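import Mathlib

/-!
# Rado's theorem with deficiency

For a matroid rank function `r` on a finite ground set (all finite sets of a type) and a finite family of
finite sets: if `m` is at most `r` of every union plus the number of the other sets, there is a partial
transversal of size `m` which is independent.
-/

namespace MP21a058

open Finset

/-- a matroid rank function on the finite subsets of a type -/
structure Rk {E : Type*} [DecidableEq E] (r : Finset E → ℕ) : Prop where
  emp : r ∅ = 0
  mono : ∀ s t : Finset E, s ⊆ t → r s ≤ r t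
  one : ∀ (s : Finset E) (e : E), r (insert e s) ≤ r s + 1
  sub : ∀ s t : Finset E, r (s ∪ t) + r (s ∩ t) ≤ r s + r t

variable {E : Type*} [DecidableEq E] {r : Finset E → ℕ}

namespace Rk

theorem le_card (h : Rk r) (s : Finset E) : r s ≤ s.card := by
  induction s using Finset.induction_on with
  | empty => rw [h.emp]; exact Nat.zero_le _
  | insert a s ha ih =>
    rw [card_insert_of_notMem ha]
    exact (h.one s a).trans (Nat.add_le_add_right ih 1)

/-- adding a set adds at most its size -/
theorem union_le (h : Rk r) (s t : Finset E) : r (s ∪ t) ≤ r s + t.card := by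
  have h1 := h.sub s t
  have h2 := h.le_card t
  omega

/-- sets in which every element is essential are independent -/
theorem card_of_essential (h : Rk r) {y : Finset E} (hy : ∀ e ∈ y, r (y.erase e) < r y) :
    ∀ z, z ⊆ y → r z = z.card := by
  intro z
  induction z using Finset.induction_on with
  | empty => intro _; rw [h.emp]; rfl
  | insert a s ha ih =>
    intro hz
    have hs : s ⊆ y := (subset_insert a s).trans hz
    have hay : a ∈ y := hz (mem_insert_self a s)
    have e1 := h.sub (insert a s) (y.erase a)
    have e2 : insert a s ∪ y.erase a = y := by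
      ext x
      simp only [mem_union, mem_insert, mem_erase]
      constructor
      · rintro ((rfl | hx) | hx)
        · exact hay
        · exact hs hx
        · exact hx.2
      · intro hx
        by_cases hxa : x = a
        · exact Or.inl (Or.inl hxa)
        · exact Or.inr ⟨hxa, hx⟩
    have e3 : insert a s ∩ y.erase a = s := by
      ext x
      simp only [mem_inter, mem_insert, mem_erase]
      constructor
      · rintro ⟨hx | hx, hx2⟩
        · exact absurd hx hx2.1
        · exact hx
      · intro hx
        exact ⟨Or.inr hx, fun hxa => ha (hxa ▸ hx), hs hx⟩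
    rw [e2, e3] at e1
    have e4 := hy a hay
    have e5 := h.one s a
    have e6 := ih hs
    rw [card_insert_of_notMem ha]
    omega

/-- an independent subset of every size up to the rank -/
theorem exists_indep (h : Rk r) {x : Finset E} {m : ℕ} (hm : m ≤ r x) :
    ∃ y, y ⊆ x ∧ y.card = m ∧ r y = m := by
  induction hn : x.card using Nat.strong_induction_on generalizing x with
  | _ n ih =>
    by_cases hx : ∃ e ∈ x, m ≤ r (x.erase e)
    · obtain ⟨e, he, hm'⟩ := hx
      obtain ⟨y, hy, hc⟩ := ih (x.erase e).card (by rw [← hn]; exact card_erase_lt_of_mem he) hm' rfl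
      exact ⟨y, hy.trans (erase_subset e x), hc⟩
    · push Not at hx
      have hes : ∀ e ∈ x, r (x.erase e) < r x := fun e he => lt_of_lt_of_le (hx e he) hm
      have hc := h.card_of_essential hes x Subset.rfl
      by_cases hne : x = ∅
      · subst hne
        rw [h.emp] at hm
        have : m = 0 := by omega
        subst this
        exact ⟨∅, Subset.rfl, rfl, h.emp⟩
      · obtain ⟨e, he⟩ := nonempty_iff_ne_empty.2 hne
        have h1 := hx e he
        have h2 := h.card_of_essential hes (x.erase e) (erase_subset e x)
        rw [card_erase_of_mem he] at h2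
        have : r x = m := by omega
        exact ⟨x, Subset.rfl, by omega, this⟩

end Rk

/-- thinning the sets to at most one element each -/
theorem rado_thin (h : Rk r) {I : Type*} [DecidableEq I] [Fintype I] (d : ℕ) :
    ∀ (n : ℕ) (A : I → Finset E), (∑ i, (A i).card) = n →
      (∀ J : Finset I, J.card ≤ r (J.biUnion A) + d) →
      ∃ B : I → Finset E, (∀ i, B i ⊆ A i) ∧ (∀ i, (B i).card ≤ 1) ∧
        (∀ J : Finset I, J.card ≤ r (J.biUnion B) + d) := by
  intro n
  induction n using Nat.strong_induction_on with
  | _ n ih =>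
    intro A hn hA
    by_cases hall : ∀ i, (A i).card ≤ 1
    · exact ⟨A, fun _ => Subset.rfl, hall, hA⟩
    push Not at hall
    obtain ⟨i, hi⟩ := hall
    obtain ⟨x, hx, y, hy, hxy⟩ := one_lt_card.1 hi
    -- the two smaller families
    have key : ∀ z ∈ A i, (∀ J : Finset I, J.card ≤ r (J.biUnion (Function.update A i ((A i).erase z))) + d) →
        ∃ B : I → Finset E, (∀ i, B i ⊆ A i) ∧ (∀ i, (B i).card ≤ 1) ∧
          (∀ J : Finset I, J.card ≤ r (J.biUnion B) + d) := by
      intro z hz hJ
      have hsub : ∀ j, Function.update A i ((A i).erase z) j ⊆ A j := by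
        intro j
        by_cases hj : j = i
        · subst hj
          rw [Function.update_self]
          exact erase_subset _ _
        · rw [Function.update_of_ne hj]
      have hlt : (∑ j, (Function.update A i ((A i).erase z) j).card) < n := by
        rw [← hn]
        apply sum_lt_sum
        · intro j _
          exact card_le_card (hsub j)
        · refine ⟨i, mem_univ i, ?_⟩
          rw [Function.update_self]
          exact card_erase_lt_of_mem hz
      obtain ⟨B, h1, h2, h3⟩ := ih _ hlt _ rfl hJ
      exact ⟨B, fun j => (h1 j).trans (hsub j), h2, h3⟩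
    by_contra hcon
    have bad : ∀ z ∈ A i, ∃ J : Finset I, i ∉ J ∧ r ((A i).erase z ∪ J.biUnion A) + d ≤ J.card := by
      intro z hz
      have h1 : ¬ ∀ J : Finset I, J.card ≤ r (J.biUnion (Function.update A i ((A i).erase z))) + d :=
        fun hJ => hcon (key z hz hJ)
      push Not at h1
      obtain ⟨J, hJ⟩ := h1
      have hiJ : i ∈ J := by
        by_contra hni
        have e : J.biUnion (Function.update A i ((A i).erase z)) = J.biUnion A := by
          apply biUnion_congr rfl
          intro j hj
          rw [Function.update_of_ne]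
          rintro rfl
          exact hni hj
        rw [e] at hJ
        exact absurd (hA J) (by omega)
      refine ⟨J.erase i, notMem_erase i J, ?_⟩
      have e : J.biUnion (Function.update A i ((A i).erase z)) = (A i).erase z ∪ (J.erase i).biUnion A := by
        conv_lhs => rw [← insert_erase hiJ]
        rw [biUnion_insert, Function.update_self]
        congr 1
        apply biUnion_congr rfl
        intro j hj
        rw [Function.update_of_ne (ne_of_mem_erase hj)]
      rw [e] at hJ
      rw [card_erase_of_mem hiJ]
      omega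
    obtain ⟨J1, hi1, h1⟩ := bad x hx
    obtain ⟨J2, hi2, h2⟩ := bad y hy
    have hs := h.sub ((A i).erase x ∪ J1.biUnion A) ((A i).erase y ∪ J2.biUnion A)
    have hu : (insert i (J1 ∪ J2)).biUnion A ⊆
        ((A i).erase x ∪ J1.biUnion A) ∪ ((A i).erase y ∪ J2.biUnion A) := by
      intro e he
      rw [mem_biUnion] at he
      obtain ⟨j, hj, hej⟩ := he
      rw [mem_insert, mem_union] at hj
      rcases hj with rfl | hj | hj
      · by_cases hex : e = x
        · subst hex
          exact mem_union_right _ (mem_union_left _ (mem_erase.2 ⟨hxy, hej⟩))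
        · exact mem_union_left _ (mem_union_left _ (mem_erase.2 ⟨hex, hej⟩))
      · exact mem_union_left _ (mem_union_right _ (mem_biUnion.2 ⟨j, hj, hej⟩))
      · exact mem_union_right _ (mem_union_right _ (mem_biUnion.2 ⟨j, hj, hej⟩))
    have hi3 : (J1 ∩ J2).biUnion A ⊆
        ((A i).erase x ∪ J1.biUnion A) ∩ ((A i).erase y ∪ J2.biUnion A) := by
      intro e he
      rw [mem_biUnion] at he
      obtain ⟨j, hj, hej⟩ := he
      rw [mem_inter] at hj
      exact mem_inter.2 ⟨mem_union_right _ (mem_biUnion.2 ⟨j, hj.1, hej⟩),
        mem_union_right _ (mem_biUnion.2 ⟨j, hj.2, hej⟩)⟩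
    have m1 := h.mono _ _ hu
    have m2 := h.mono _ _ hi3
    have c1 := hA (insert i (J1 ∪ J2))
    have c2 := hA (J1 ∩ J2)
    have hni : i ∉ J1 ∪ J2 := by
      rw [mem_union]
      rintro (hh | hh)
      · exact hi1 hh
      · exact hi2 hh
    rw [card_insert_of_notMem hni] at c1
    have c3 := card_union_add_card_inter J1 J2
    omega

/-- **Rado's theorem with deficiency**, the rainbow set `y` with its injection `g` to the indices -/
theorem rado_set (h : Rk r) {I : Type*} [DecidableEq I] [Fintype I] (A : I → Finset E) (m : ℕ)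
    (hA : ∀ J : Finset I, m ≤ r (J.biUnion A) + (univ \ J).card) :
    ∃ (y : Finset E) (g : {e // e ∈ y} → I), Function.Injective g ∧ (∀ e, e.1 ∈ A (g e)) ∧
      y.card = m ∧ r y = m := by
  have hm0 : m ≤ Fintype.card I := by
    have h1 := hA ∅
    rw [biUnion_empty, h.emp, sdiff_empty, card_univ] at h1
    omega
  have hA' : ∀ J : Finset I, J.card ≤ r (J.biUnion A) + (Fintype.card I - m) := by
    intro J
    have h1 := hA J
    have h2 : (univ \ J).card + J.card = Fintype.card I := by
      rw [card_sdiff_add_card_eq_card (subset_univ J), card_univ]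
    omega
  obtain ⟨B, hBA, hB1, hB⟩ := rado_thin h (Fintype.card I - m) _ A rfl hA'
  have hr : m ≤ r (univ.biUnion B) := by
    have h1 := hB univ
    rw [card_univ] at h1
    omega
  obtain ⟨y, hy, hyc, hyr⟩ := h.exists_indep hr
  have hch : ∀ e : {e // e ∈ y}, ∃ i, e.1 ∈ B i := by
    intro e
    obtain ⟨i, -, hi⟩ := mem_biUnion.1 (hy e.2)
    exact ⟨i, hi⟩
  choose g hg using hch
  refine ⟨y, g, ?_, fun e => hBA _ (hg e), hyc, hyr⟩
  intro a b hab
  have h1 := hg a
  have h2 := hg b
  rw [hab] at h1
  exact Subtype.ext (card_le_one.1 (hB1 (g b)) a.1 h1 b.1 h2)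

/-- **Rado's theorem with deficiency.** -/
theorem rado (h : Rk r) [Nonempty E] {I : Type*} [DecidableEq I] [Fintype I] (A : I → Finset E) (m : ℕ)
    (hA : ∀ J : Finset I, m ≤ r (J.biUnion A) + (univ \ J).card) :
    ∃ (S : Finset I) (f : I → E), S.card = m ∧ (∀ i ∈ S, f i ∈ A i) ∧ Set.InjOn f S ∧
      (S.image f).card = m ∧ r (S.image f) = m := by
  obtain ⟨y, g, hgi, hgA, hyc, hyr⟩ := rado_set h A m hA
  obtain ⟨e0⟩ := ‹Nonempty E›
  have hf : ∀ i, ∃ e : E, i ∈ univ.image g → ∃ he : e ∈ y, g ⟨e, he⟩ = i := by
    intro i
    by_cases hi : i ∈ univ.image g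
    · obtain ⟨e, -, hge⟩ := mem_image.1 hi
      exact ⟨e.1, fun _ => ⟨e.2, hge⟩⟩
    · exact ⟨e0, fun hh => absurd hh hi⟩
  choose f hf using hf
  have hfg : ∀ e : {e // e ∈ y}, f (g e) = e.1 := by
    intro e
    obtain ⟨h1, h2⟩ := hf (g e) (mem_image_of_mem g (mem_univ e))
    exact congrArg Subtype.val (hgi h2)
  have him : (univ.image g).image f = y := by
    rw [image_image]
    ext e
    rw [mem_image]
    constructor
    · rintro ⟨a, -, rfl⟩
      rw [Function.comp_apply, hfg a]
      exact a.2
    · intro he
      exact ⟨⟨e, he⟩, mem_univ _, hfg ⟨e, he⟩⟩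
  refine ⟨univ.image g, f, ?_, ?_, ?_, ?_, ?_⟩
  · rw [card_image_of_injective _ hgi, card_univ, Fintype.card_coe, hyc]
  · intro i hi
    obtain ⟨e, -, rfl⟩ := mem_image.1 hi
    rw [hfg e]
    exact hgA e
  · intro i hi j hj hij
    obtain ⟨a, -, rfl⟩ := mem_image.1 (mem_coe.1 hi)
    obtain ⟨b, -, rfl⟩ := mem_image.1 (mem_coe.1 hj)
    rw [hfg, hfg] at hij
    rw [Subtype.ext hij]
  · rw [him, hyc]
  · rw [him, hyr]

end MP21a058
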