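import Pool.Agent.Lib.MP_21a058_co.P.Defs
import Pool.Agent.Lib.MP_21a058_co.P.Rado

/-!
MP_21a058_co: **the rank of a set of edges** over the rationals (`rk`), its submodularity, and its relation to
connectedness (`card_le_of_conn`, `conn_of_card_le`).
-/

set_option autoImplicit false
set_option linter.unusedSectionVars false

namespace Pool.Agent.Lib.MP_21a058_co.P

open Finset

section rank
variable {N E : Type*} [Fintype N] [DecidableEq N] [Fintype E] [DecidableEq E] (a b : E → N)

/-- The rank of the edge vectors. -/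
noncomputable def rk (F : Finset E) : ℕ :=
  Module.finrank ℚ (Submodule.span ℚ
    ((fun e => (Pi.single (a e) 1 - Pi.single (b e) 1 : N → ℚ)) '' (F : Set E)))

theorem rk_mono {F F' : Finset E} (h : F ⊆ F') : rk a b F ≤ rk a b F' :=
  Submodule.finrank_mono (Submodule.span_mono (Set.image_mono (by exact_mod_cast h)))

theorem rk_submod (F F' : Finset E) :
    rk a b (F ∪ F') + rk a b (F ∩ F') ≤ rk a b F + rk a b F' := by
  have h1 := Submodule.finrank_sup_add_finrank_inf_eq
    (Submodule.span ℚ
      ((fun e => (Pi.single (a e) 1 - Pi.single (b e) 1 : N → ℚ)) '' (F : Set E)))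
    (Submodule.span ℚ
      ((fun e => (Pi.single (a e) 1 - Pi.single (b e) 1 : N → ℚ)) '' (F' : Set E)))
  unfold rk
  rw [← h1, coe_union, Set.image_union, Submodule.span_union]
  refine Nat.add_le_add_left (Submodule.finrank_mono (le_inf ?_ ?_)) _
  · exact Submodule.span_mono (Set.image_mono (by exact_mod_cast inter_subset_left))
  · exact Submodule.span_mono (Set.image_mono (by exact_mod_cast inter_subset_right))

theorem rk_le_card (C : Finset E) : rk a b C ≤ C.card := by
  unfold rk
  have h1 := finrank_span_finset_le_card (R := ℚ)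
    (C.image fun e => (Pi.single (a e) 1 - Pi.single (b e) 1 : N → ℚ))
  rw [coe_image] at h1
  exact h1.trans card_image_le

theorem rk_empty : rk a b ∅ = 0 := Nat.le_zero.1 (rk_le_card a b ∅)

theorem rk_le_add_card {F F' C : Finset E} (h : F ⊆ F' ∪ C) :
    rk a b F ≤ rk a b F' + C.card := by
  have h1 := rk_mono a b h
  have h2 := rk_submod a b F' C
  have h3 := rk_le_card a b C
  omega

/-- the rank function as an abstract one -/
theorem rk_rk : MP21a058.Rk (rk a b) where
  emp := rk_empty a b
  mono _ _ h := rk_mono a b h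
  one F e := by
    have := rk_le_add_card a b (F := insert e F) (F' := F) (C := {e}) (by
      rw [insert_eq, union_comm])
    rwa [card_singleton] at this
  sub := rk_submod a b

/-- the edge vectors lie in the kernel of the sums over the classes of `c` -/
theorem rk_add_image_le {γ : Type*} [DecidableEq γ] {F : Finset E} (c : N → γ)
    (h : ∀ e ∈ F, c (a e) = c (b e)) :
    rk a b F + (univ.image c).card ≤ Fintype.card N := by
  classical
  -- the sums over the classes
  obtain ⟨φ, hφ⟩ : ∃ φ : (N → ℚ) →ₗ[ℚ] ({j // j ∈ univ.image c} → ℚ),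
      ∀ v j, φ v j = ∑ x ∈ univ.filter (fun x => c x = j.1), v x := by
    refine ⟨{ toFun := fun v j => ∑ x ∈ univ.filter (fun x => c x = j.1), v x
              map_add' := fun v w => ?_
              map_smul' := fun q v => ?_ }, fun v j => rfl⟩
    · funext j
      simp only [Pi.add_apply]
      exact sum_add_distrib
    · funext j
      simp only [Pi.smul_apply, smul_eq_mul, RingHom.id_apply]
      rw [mul_sum]
  have hs : ∀ x j, φ (Pi.single x 1) j = if c x = j.1 then 1 else 0 := by
    intro x j
    rw [hφ]
    have h1 : ∀ y ∈ univ.filter (fun y => c y = j.1), (Pi.single x (1 : ℚ) : N → ℚ) y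
        = if y = x then 1 else 0 := fun y _ => by
      rw [Pi.single_apply]
    rw [sum_congr rfl h1, sum_ite_eq']
    by_cases h2 : c x = j.1
    · have h3 : x ∈ univ.filter fun y => c y = j.1 := mem_filter.2 ⟨mem_univ _, h2⟩
      rw [if_pos h2, if_pos h3]
    · have h3 : x ∉ univ.filter fun y => c y = j.1 := fun h3 => h2 (mem_filter.1 h3).2
      rw [if_neg h2, if_neg h3]
  have hsurj : Function.Surjective φ := by
    intro w
    choose rep hrep using fun j : {j // j ∈ univ.image c} => mem_image.1 j.2
    refine ⟨∑ j, w j • Pi.single (rep j) 1, ?_⟩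
    funext i
    rw [map_sum, Finset.sum_apply]
    have h1 : ∀ j, (φ (w j • Pi.single (rep j) 1)) i = if j = i then w j else 0 := by
      intro j
      rw [map_smul, Pi.smul_apply, hs, (hrep j).2, smul_eq_mul]
      by_cases h2 : j = i
      · rw [if_pos h2, if_pos (by rw [h2]), mul_one]
      · rw [if_neg h2, if_neg fun h3 => h2 (Subtype.ext h3), mul_zero]
    rw [sum_congr rfl fun j _ => h1 j, sum_ite_eq', if_pos (mem_univ _)]
  have hker : Submodule.span ℚ
      ((fun e => (Pi.single (a e) 1 - Pi.single (b e) 1 : N → ℚ)) '' (F : Set E))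
      ≤ LinearMap.ker φ := by
    rw [Submodule.span_le]
    rintro _ ⟨e, he, rfl⟩
    rw [SetLike.mem_coe, LinearMap.mem_ker]
    funext j
    beta_reduce
    rw [map_sub, Pi.sub_apply, hs, hs, h e (by exact_mod_cast he), sub_self]
    rfl
  have h1 := Submodule.finrank_mono hker
  have h2 := LinearMap.finrank_range_add_finrank_ker φ
  rw [LinearMap.range_eq_top.2 hsurj, finrank_top, Module.finrank_fintype_fun_eq_card,
    Module.finrank_fintype_fun_eq_card, Fintype.card_coe] at h2
  unfold rk
  omega

theorem exists_const (F : Finset E) :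
    ∃ c : N → N, (∀ e ∈ F, c (a e) = c (b e)) ∧
      Fintype.card N ≤ rk a b F + (univ.image c).card := by
  classical
  obtain ⟨W, hW⟩ : ∃ W : Submodule ℚ (N → ℚ), W = Submodule.span ℚ
    ((fun e => (Pi.single (a e) 1 - Pi.single (b e) 1 : N → ℚ)) '' (F : Set E)) := ⟨_, rfl⟩
  let s : Setoid N :=
    { r := fun x y => (Pi.single x 1 - Pi.single y 1 : N → ℚ) ∈ W
      iseqv :=
        { refl := fun x => by
            rw [sub_self]
            exact W.zero_mem
          symm := fun {x y} h => by
            have := W.neg_mem h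
            rwa [neg_sub] at this
          trans := fun {x y w} h h' => by
            have := W.add_mem h h'
            rwa [sub_add_sub_cancel] at this } }
  have hout : ∀ x : N, (Pi.single (Quotient.mk s x).out 1 - Pi.single x 1 : N → ℚ) ∈ W :=
    fun x => Quotient.exact (Quotient.out_eq (Quotient.mk s x))
  refine ⟨fun x => (Quotient.mk s x).out, fun e he => ?_, ?_⟩
  · have h1 : (Pi.single (a e) 1 - Pi.single (b e) 1 : N → ℚ) ∈ W := by
      rw [hW]
      exact Submodule.subset_span ⟨e, by exact_mod_cast he, rfl⟩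
    have h2 : Quotient.mk s (a e) = Quotient.mk s (b e) := Quotient.sound h1
    beta_reduce
    rw [h2]
  · obtain ⟨I, hI⟩ : ∃ I : Finset N, I = univ.image fun x => (Quotient.mk s x).out := ⟨_, rfl⟩
    obtain ⟨Y, hY⟩ : ∃ Y : Finset (N → ℚ), Y = I.image fun y => (Pi.single y 1 : N → ℚ) :=
      ⟨_, rfl⟩
    have h1 : (⊤ : Submodule ℚ (N → ℚ)) ≤ W ⊔ Submodule.span ℚ (Y : Set (N → ℚ)) := by
      intro v _
      have h2 : v = ∑ x, v x • (Pi.single x 1 : N → ℚ) := by
        funext y
        rw [Finset.sum_apply]
        simp only [Pi.smul_apply, Pi.single_apply, smul_eq_mul, mul_ite, mul_one, mul_zero]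
        rw [sum_ite_eq, if_pos (mem_univ _)]
      rw [h2]
      refine Submodule.sum_mem _ fun x _ => Submodule.smul_mem _ _ ?_
      have h3 : (Pi.single x 1 : N → ℚ)
          = -(Pi.single (Quotient.mk s x).out 1 - Pi.single x 1)
            + Pi.single (Quotient.mk s x).out 1 := by
        rw [neg_sub, sub_add_cancel]
      rw [h3]
      refine Submodule.add_mem_sup (W.neg_mem (hout x)) (Submodule.subset_span ?_)
      rw [mem_coe, hY, hI]
      exact mem_image.2 ⟨_, mem_image.2 ⟨x, mem_univ _, rfl⟩, rfl⟩
    have h2 := Submodule.finrank_mono h1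
    rw [finrank_top, Module.finrank_fintype_fun_eq_card] at h2
    have h3 := Submodule.finrank_add_le_finrank_add_finrank W
      (Submodule.span ℚ (Y : Set (N → ℚ)))
    have h4 : Module.finrank ℚ (Submodule.span ℚ (Y : Set (N → ℚ))) ≤ Y.card :=
      finrank_span_finset_le_card Y
    have h5 : Y.card ≤ I.card := by
      rw [hY]
      exact card_image_le
    have h6 : Module.finrank ℚ W = rk a b F := by
      rw [hW]
      rfl
    rw [← hI]
    omega

theorem card_le_of_conn {F : Finset E} {X : Finset N} (h : ConnOn a b F X) :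
    X.card ≤ rk a b F + 1 := by
  classical
  rcases X.eq_empty_or_nonempty with rfl | ⟨x0, hx0⟩
  · simp
  obtain ⟨c, hc, h1⟩ := exists_const a b F
  have h2 : ∀ x ∈ X, c x = c x0 := by
    by_contra hcon
    push Not at hcon
    obtain ⟨x1, hx1, hne⟩ := hcon
    obtain ⟨e, he, h3, h4⟩ := h (X.filter fun x => c x = c x0) (filter_subset _ _)
      ⟨x0, mem_filter.2 ⟨hx0, rfl⟩⟩ fun h5 => by
        have h6 : x1 ∈ X.filter fun x => c x = c x0 := by
          rw [h5]
          exact hx1
        exact hne (mem_filter.1 h6).2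
    rw [mem_cut] at h4
    rw [mem_ins] at h3
    refine h4 ?_
    rw [mem_filter, mem_filter, hc e he]
    exact ⟨fun h5 => ⟨h3.2, h5.2⟩, fun h5 => ⟨h3.1, h5.2⟩⟩
  have h3 : univ.image c ⊆ insert (c x0) ((univ \ X).image c) := by
    intro y hy
    obtain ⟨x, -, rfl⟩ := mem_image.1 hy
    by_cases h4 : x ∈ X
    · rw [h2 x h4]
      exact mem_insert_self _ _
    · exact mem_insert_of_mem (mem_image.2 ⟨x, mem_sdiff.2 ⟨mem_univ _, h4⟩, rfl⟩)
  have h4 := (card_le_card h3).trans (card_insert_le _ _)
  have h5 := card_image_le (s := univ \ X) (f := c)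
  have h6 : (univ \ X).card = Fintype.card N - X.card := by
    rw [card_sdiff_of_subset (subset_univ _), card_univ]
  have h7 := card_le_univ X
  omega

theorem conn_of_card_le {F : Finset E} {X : Finset N} (hF : F ⊆ ins a b X)
    (h : X.card ≤ rk a b F + 1) : ConnOn a b F X := by
  classical
  intro Y hY hne hYX
  by_contra hcon
  push Not at hcon
  obtain ⟨y0, hy0⟩ := hne
  obtain ⟨x0, hx0, hx0Y⟩ : ∃ x ∈ X, x ∉ Y := by
    by_contra h1
    push Not at h1
    exact hYX (Subset.antisymm hY h1)
  have h1 := rk_add_image_le a b (F := F)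
    (fun x => if x ∈ Y then y0 else if x ∈ X then x0 else x) fun e he => by
      have h2 := hcon e he (hF he)
      have h3 := (mem_ins a b).1 (hF he)
      rw [mem_cut, not_not] at h2
      by_cases h4 : a e ∈ Y
      · rw [if_pos h4, if_pos (h2.1 h4)]
      · rw [if_neg h4, if_neg fun h5 => h4 (h2.2 h5), if_pos h3.1, if_pos h3.2]
  have h2 : insert y0 (insert x0 (univ \ X))
      ⊆ univ.image fun x => if x ∈ Y then y0 else if x ∈ X then x0 else x := by
    intro x hx
    rw [mem_image]
    rcases mem_insert.1 hx with rfl | hx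
    · exact ⟨x, mem_univ _, if_pos hy0⟩
    rcases mem_insert.1 hx with rfl | hx
    · exact ⟨x, mem_univ _, by rw [if_neg hx0Y, if_pos hx0]⟩
    · have h3 := (mem_sdiff.1 hx).2
      exact ⟨x, mem_univ _, by rw [if_neg fun h4 => h3 (hY h4), if_neg h3]⟩
  have h3 := card_le_card h2
  rw [card_insert_of_notMem, card_insert_of_notMem, card_sdiff_of_subset (subset_univ _),
    card_univ] at h3
  · have h4 := card_le_univ X
    omega
  · rw [mem_sdiff]
    exact fun h4 => h4.2 hx0
  · rw [mem_insert, mem_sdiff]
    rintro (h4 | h4)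
    · exact hx0Y (h4 ▸ hy0)
    · exact h4.2 (hY hy0)

end rank

end Pool.Agent.Lib.MP_21a058_co.P
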