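import Mathlib
import Pool.Agent.Lib.MP_21a058_co.P.Rado

/-!
# The rank function of a multigraph, by the annihilator

`A B : E → V` are the two ends. `ann A B F` = the functions `V → ℚ` which are constant along the edges of
`F`; `gk A B F = card V - dim (ann A B F)` is a matroid rank function (`gk_rk`), at most `card V - 1`, and
equal to it exactly when `(V, F)` is connected; `dim (ann A B F)` is at most the number of the components.
-/

namespace MP21a058

open Finset

variable {V E : Type*}

/-- the functions which are constant along the edges of `F` -/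
def ann (A B : E → V) (F : Finset E) : Submodule ℚ (V → ℚ) where
  carrier := {f | ∀ e ∈ F, f (A e) = f (B e)}
  add_mem' := by
    intro f g hf hg e he
    rw [Pi.add_apply, Pi.add_apply, hf e he, hg e he]
  zero_mem' := fun _ _ => rfl
  smul_mem' := by
    intro c f hf e he
    rw [Pi.smul_apply, Pi.smul_apply, hf e he]

theorem mem_ann {A B : E → V} {F : Finset E} {f : V → ℚ} :
    f ∈ ann A B F ↔ ∀ e ∈ F, f (A e) = f (B e) := Iff.rfl

/-- the difference functional of an edge -/
def dfn (A B : E → V) (e : E) : (V → ℚ) →ₗ[ℚ] ℚ :=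
  (LinearMap.proj (A e) : (V → ℚ) →ₗ[ℚ] ℚ) - (LinearMap.proj (B e) : (V → ℚ) →ₗ[ℚ] ℚ)

theorem mem_ker_dfn {A B : E → V} {e : E} {f : V → ℚ} :
    f ∈ LinearMap.ker (dfn A B e) ↔ f (A e) = f (B e) := by
  rw [LinearMap.mem_ker, dfn, LinearMap.sub_apply, LinearMap.proj_apply, LinearMap.proj_apply, sub_eq_zero]

theorem ann_mono {A B : E → V} {F F' : Finset E} (h : F ⊆ F') : ann A B F' ≤ ann A B F :=
  fun _ hf e he => hf e (h he)

theorem one_mem_ann {A B : E → V} {F : Finset E} : (fun _ => (1 : ℚ)) ∈ ann A B F := fun _ _ => rfl

variable [Fintype V]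

/-- the rank of the graph `(V, F)` -/
noncomputable def gk (A B : E → V) (F : Finset E) : ℕ := Fintype.card V - Module.finrank ℚ (ann A B F)

theorem finrank_ann_le (A B : E → V) (F : Finset E) : Module.finrank ℚ (ann A B F) ≤ Fintype.card V := by
  have h := Submodule.finrank_le (ann A B F)
  rwa [Module.finrank_fintype_fun_eq_card] at h

theorem gk_add (A B : E → V) (F : Finset E) : gk A B F + Module.finrank ℚ (ann A B F) = Fintype.card V :=
  Nat.sub_add_cancel (finrank_ann_le A B F)

theorem gk_rk [DecidableEq E] (A B : E → V) : Rk (gk A B) where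
  emp := by
    have h : ann A B ∅ = ⊤ := by
      rw [eq_top_iff]
      intro f _ e he
      exact absurd he (notMem_empty e)
    unfold gk
    rw [h, finrank_top, Module.finrank_fintype_fun_eq_card, Nat.sub_self]
  mono := by
    intro s t h
    have h1 := Submodule.finrank_mono (ann_mono (A := A) (B := B) h)
    have h2 := gk_add A B s
    have h3 := gk_add A B t
    omega
  one := by
    intro s e
    have h1 : ann A B (insert e s) = ann A B s ⊓ LinearMap.ker (dfn A B e) := by
      ext f
      rw [Submodule.mem_inf, mem_ker_dfn, mem_ann, mem_ann]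
      constructor
      · intro h
        exact ⟨fun x hx => h x (mem_insert_of_mem hx), h e (mem_insert_self e s)⟩
      · rintro ⟨h1, h2⟩ x hx
        rcases mem_insert.1 hx with rfl | hx
        · exact h2
        · exact h1 x hx
    have h2 := Submodule.finrank_sup_add_finrank_inf_eq (ann A B s) (LinearMap.ker (dfn A B e))
    have h3 := Submodule.finrank_le (ann A B s ⊔ LinearMap.ker (dfn A B e))
    rw [Module.finrank_fintype_fun_eq_card] at h3
    have h4 := LinearMap.finrank_range_add_finrank_ker (dfn A B e)
    rw [Module.finrank_fintype_fun_eq_card] at h4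
    have h5 := Submodule.finrank_le (LinearMap.range (dfn A B e))
    rw [Module.finrank_self] at h5
    have h6 := gk_add A B s
    have h7 := gk_add A B (insert e s)
    rw [h1] at h7
    omega
  sub := by
    intro s t
    have h1 : ann A B (s ∪ t) = ann A B s ⊓ ann A B t := by
      ext f
      rw [Submodule.mem_inf, mem_ann, mem_ann, mem_ann]
      constructor
      · intro h
        exact ⟨fun x hx => h x (mem_union_left t hx), fun x hx => h x (mem_union_right s hx)⟩
      · rintro ⟨h1, h2⟩ x hx
        rcases mem_union.1 hx with hx | hx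
        · exact h1 x hx
        · exact h2 x hx
    have h2 : ann A B s ⊔ ann A B t ≤ ann A B (s ∩ t) :=
      sup_le (ann_mono inter_subset_left) (ann_mono inter_subset_right)
    have h3 := Submodule.finrank_mono h2
    have h4 := Submodule.finrank_sup_add_finrank_inf_eq (ann A B s) (ann A B t)
    have h5 := gk_add A B s
    have h6 := gk_add A B t
    have h7 := gk_add A B (s ∪ t)
    have h8 := gk_add A B (s ∩ t)
    rw [h1] at h7
    omega

/-- the constant functions make the rank at most `card V - 1` -/
theorem one_le_finrank_ann [Nonempty V] (A B : E → V) (F : Finset E) : 1 ≤ Module.finrank ℚ (ann A B F) := by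
  rw [Nat.one_le_iff_ne_zero]
  intro h
  have h1 := Submodule.finrank_eq_zero.1 h
  have h2 : (fun _ => (1 : ℚ)) ∈ ann A B F := one_mem_ann
  rw [h1, Submodule.mem_bot] at h2
  obtain ⟨v⟩ := ‹Nonempty V›
  have h3 := congrFun h2 v
  exact one_ne_zero h3

theorem gk_lt [Nonempty V] (A B : E → V) (F : Finset E) : gk A B F + 1 ≤ Fintype.card V := by
  have h1 := gk_add A B F
  have h2 := one_le_finrank_ann A B F
  omega

/-- a set closed along the edges and of full rank is everything or nothing -/
theorem all_of_closed {A B : E → V} {F : Finset E} (h : Fintype.card V ≤ gk A B F + 1) (S : V → Prop)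
    (hS : ∀ e ∈ F, (S (A e) ↔ S (B e))) {u v : V} (hu : S u) : S v := by
  classical
  have : Nonempty V := ⟨u⟩
  by_contra hv
  have h1 := gk_add A B F
  have h2 := one_le_finrank_ann A B F
  have h3 : Module.finrank ℚ (ann A B F) = 1 := by omega
  have hne : (⟨fun _ => (1 : ℚ), one_mem_ann⟩ : ann A B F) ≠ 0 := by
    intro h0
    have h4 := congrArg Subtype.val h0
    have h5 := congrFun h4 u
    exact one_ne_zero h5
  have h4 := (finrank_eq_one_iff_of_nonzero' _ hne).1 h3
  have hfS : (fun w => if S w then (1 : ℚ) else 0) ∈ ann A B F := by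
    intro e he
    change (if S (A e) then (1 : ℚ) else 0) = (if S (B e) then (1 : ℚ) else 0)
    by_cases hh : S (A e)
    · rw [if_pos hh, if_pos ((hS e he).1 hh)]
    · rw [if_neg hh, if_neg (fun hb => hh ((hS e he).2 hb))]
  obtain ⟨c, hc⟩ := h4 ⟨_, hfS⟩
  have h5 := congrArg Subtype.val hc
  have h6 := congrFun h5 u
  have h7 := congrFun h5 v
  simp only [Submodule.coe_smul, Pi.smul_apply, smul_eq_mul, mul_one, hu, hv, if_true, if_false] at h6 h7
  rw [h6] at h7
  exact one_ne_zero h7

/-- the dimension of `ann` is at most the number of the classes of any setoid whose classes are joined -/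
theorem finrank_ann_le_quot (A B : E → V) (F : Finset E) (s : Setoid V) [Fintype (Quotient s)]
    (hs : ∀ f ∈ ann A B F, ∀ u v, s.r u v → f u = f v) :
    Module.finrank ℚ (ann A B F) ≤ Fintype.card (Quotient s) := by
  let φ : (Quotient s → ℚ) →ₗ[ℚ] (V → ℚ) :=
    { toFun := fun g v => g (Quotient.mk s v)
      map_add' := fun _ _ => rfl
      map_smul' := fun _ _ => rfl }
  have h1 : ann A B F ≤ LinearMap.range φ := by
    intro f hf
    refine ⟨Quotient.lift f (fun u v huv => hs f hf u v huv), ?_⟩
    funext v
    rfl
  have h2 := Submodule.finrank_mono h1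
  have h3 := LinearMap.finrank_range_le φ
  rw [Module.finrank_fintype_fun_eq_card] at h3
  exact h2.trans h3

end MP21a058
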