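import Mathlib
import Pool.Agent.Lib.MP_21a058_co.P.AnnR

/-!
# Disjoint bases from the partition condition

`pack_str`: if for every labelling `c` of the nodes at least `t * (number of values - 1)` edges of `F` have
ends with different values, then `F` contains `t` disjoint bases of the graph.
-/

namespace MP21a058

open Finset

variable {N E : Type*}

/-- the `i`-th slice of a set of labelled edges -/
def slc [DecidableEq E] {t : ℕ} (F : Finset (E × Fin t)) (i : Fin t) : Finset E :=
  (F.filter fun x => x.2 = i).image Prod.fst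

section
variable [DecidableEq E] {t : ℕ}

theorem mem_slc {F : Finset (E × Fin t)} {i : Fin t} {e : E} : e ∈ slc F i ↔ (e, i) ∈ F := by
  simp only [slc, mem_image, mem_filter]
  constructor
  · rintro ⟨⟨e', i'⟩, ⟨h1, h2⟩, h3⟩
    simp only at h2 h3
    rw [← h2, ← h3]
    exact h1
  · intro h
    exact ⟨(e, i), ⟨h, rfl⟩, rfl⟩

theorem slc_union (s u : Finset (E × Fin t)) (i : Fin t) : slc (s ∪ u) i = slc s i ∪ slc u i := by
  ext x
  rw [mem_slc, mem_union, mem_union, mem_slc, mem_slc]

theorem slc_inter (s u : Finset (E × Fin t)) (i : Fin t) : slc (s ∩ u) i = slc s i ∩ slc u i := by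
  ext x
  rw [mem_slc, mem_inter, mem_inter, mem_slc, mem_slc]

theorem sum_card_slc (F : Finset (E × Fin t)) : ∑ i, (slc F i).card = F.card := by
  have h : ∀ i, (slc F i).card = (F.filter fun x => x.2 = i).card := by
    intro i
    apply card_image_of_injOn
    rintro ⟨e, j⟩ hx ⟨e', j'⟩ hy hxy
    rw [mem_coe, mem_filter] at hx hy
    simp only at hx hy hxy
    rw [hxy, hx.2, hy.2]
  rw [sum_congr rfl fun i _ => h i]
  exact (card_eq_sum_card_fiberwise (f := Prod.snd) (t := univ) (fun x _ => mem_univ _)).symm

/-- the sum of `t` copies of a rank function -/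
theorem slc_rk {r : Finset E → ℕ} (hr : Rk r) : Rk (fun F : Finset (E × Fin t) => ∑ i, r (slc F i)) where
  emp := by
    apply sum_eq_zero
    intro i _
    have h : slc (∅ : Finset (E × Fin t)) i = ∅ := by
      ext e
      rw [mem_slc]
      simp
    rw [h]
    exact hr.emp
  mono := by
    intro s u h
    apply sum_le_sum
    intro i _
    apply hr.mono
    intro e he
    rw [mem_slc] at he ⊢
    exact h he
  one := by
    rintro s ⟨e, j⟩
    rw [← add_sum_erase univ (fun i => r (slc (insert (e, j) s) i)) (mem_univ j),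
      ← add_sum_erase univ (fun i => r (slc s i)) (mem_univ j)]
    have h1 : slc (insert (e, j) s) j = insert e (slc s j) := by
      ext x
      rw [mem_slc, mem_insert, mem_insert, mem_slc, Prod.mk.injEq]
      simp
    have h2 : ∑ i ∈ univ.erase j, r (slc (insert (e, j) s) i) = ∑ i ∈ univ.erase j, r (slc s i) := by
      apply sum_congr rfl
      intro i hi
      have h3 : slc (insert (e, j) s) i = slc s i := by
        ext x
        rw [mem_slc, mem_insert, mem_slc, Prod.mk.injEq]
        constructor
        · rintro (⟨-, h⟩ | h)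
          · exact absurd h (ne_of_mem_erase hi)
          · exact h
        · exact Or.inr
      rw [h3]
    have h4 := hr.one (slc s j) e
    rw [h1, h2]
    omega
  sub := by
    intro s u
    change ∑ i, r (slc (s ∪ u) i) + ∑ i, r (slc (s ∩ u) i) ≤ ∑ i, r (slc s i) + ∑ i, r (slc u i)
    rw [← sum_add_distrib, ← sum_add_distrib]
    apply sum_le_sum
    intro i _
    rw [slc_union, slc_inter]
    exact hr.sub _ _

/-- **`t` disjoint bases inside `F`** from Rado's condition, for any rank function -/
theorem pack_rk {r : Finset E → ℕ} (hr : Rk r) (F : Finset E) (ρ : ℕ) (hle : ∀ J, J ⊆ F → r J ≤ ρ)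
    (h : ∀ J, J ⊆ F → t * ρ ≤ t * r J + (F \ J).card) :
    ∃ T : Fin t → Finset E, (∀ i, T i ⊆ F) ∧ (∀ i j, i ≠ j → Disjoint (T i) (T j)) ∧
      ∀ i, (T i).card = ρ ∧ r (T i) = ρ := by
  classical
  let A : {e // e ∈ F} → Finset (E × Fin t) := fun e => univ.image fun i => (e.1, i)
  have hA : ∀ J : Finset {e // e ∈ F}, t * ρ ≤ (∑ i, r (slc (J.biUnion A) i)) + (univ \ J).card := by
    intro J
    have h1 : ∀ i, slc (J.biUnion A) i = J.map (Function.Embedding.subtype _) := by
      intro i
      ext e
      rw [mem_slc, mem_biUnion, mem_map]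
      constructor
      · rintro ⟨e', he', hh⟩
        obtain ⟨i', -, hi⟩ := mem_image.1 hh
        rw [Prod.mk.injEq] at hi
        exact ⟨e', he', hi.1⟩
      · rintro ⟨e', he', rfl⟩
        exact ⟨e', he', mem_image_of_mem _ (mem_univ i)⟩
    rw [sum_congr rfl (fun i _ => by rw [h1 i]), sum_const, card_univ, Fintype.card_fin, smul_eq_mul]
    have h2 : J.map (Function.Embedding.subtype _) ⊆ F := by
      intro e he
      rw [mem_map] at he
      obtain ⟨e', -, rfl⟩ := he
      exact e'.2
    have h3 := h _ h2
    have h4 : (F \ J.map (Function.Embedding.subtype _)).card = (univ \ J).card := by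
      have h5 : F \ J.map (Function.Embedding.subtype _) = (univ \ J).map (Function.Embedding.subtype _) := by
        ext e
        rw [mem_sdiff, mem_map, mem_map]
        constructor
        · rintro ⟨h6, h7⟩
          refine ⟨⟨e, h6⟩, ?_, rfl⟩
          rw [mem_sdiff]
          exact ⟨mem_univ _, fun h8 => h7 ⟨_, h8, rfl⟩⟩
        · rintro ⟨e', h6, rfl⟩
          rw [mem_sdiff] at h6
          refine ⟨e'.2, ?_⟩
          rintro ⟨e'', h7, h8⟩
          have : e'' = e' := Subtype.ext h8
          rw [this] at h7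
          exact h6.2 h7
      rw [h5, card_map]
    omega
  obtain ⟨y, g, hgi, hgA, hyc, hyr⟩ := rado_set (slc_rk hr) A (t * ρ) hA
  have hfst : ∀ e : {e // e ∈ y}, (g e).1 = e.1.1 := by
    intro e
    obtain ⟨i, -, hi⟩ := mem_image.1 (hgA e)
    rw [← hi]
  have huniq : ∀ e i j, (e, i) ∈ y → (e, j) ∈ y → i = j := by
    intro e i j hi hj
    have h1 : (⟨(e, i), hi⟩ : {e // e ∈ y}) = ⟨(e, j), hj⟩ :=
      hgi (Subtype.ext (by rw [hfst, hfst]))
    have h2 := congrArg Subtype.val h1
    exact (Prod.mk.inj h2).2
  have hsub : ∀ i, slc y i ⊆ F := by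
    intro i e he
    rw [mem_slc] at he
    have h1 := hfst ⟨(e, i), he⟩
    simp only at h1
    rw [← h1]
    exact (g ⟨(e, i), he⟩).2
  have hyr' : ∑ i, r (slc y i) = t * ρ := hyr
  have hrr : ∀ i, r (slc y i) = ρ := by
    intro i
    by_contra hcon
    have hlt : ∑ i, r (slc y i) < ∑ _i : Fin t, ρ := by
      apply sum_lt_sum
      · intro j _
        exact hle _ (hsub j)
      · exact ⟨i, mem_univ i, lt_of_le_of_ne (hle _ (hsub i)) hcon⟩
    rw [sum_const, card_univ, Fintype.card_fin, smul_eq_mul] at hlt
    omega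
  have hcc : ∀ i, (slc y i).card = ρ := by
    have h0 : ∀ i, ρ ≤ (slc y i).card := fun i => by
      rw [← hrr i]
      exact hr.le_card _
    intro i
    by_contra hcon
    have hlt : ∑ _i : Fin t, ρ < ∑ i, (slc y i).card := by
      apply sum_lt_sum
      · intro j _
        exact h0 j
      · exact ⟨i, mem_univ i, lt_of_le_of_ne (h0 i) (Ne.symm hcon)⟩
    rw [sum_const, card_univ, Fintype.card_fin, smul_eq_mul, sum_card_slc] at hlt
    omega
  refine ⟨fun i => slc y i, hsub, ?_, fun i => ⟨hcc i, hrr i⟩⟩
  intro i j hij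
  rw [disjoint_left]
  intro e h1 h2
  rw [mem_slc] at h1 h2
  exact hij (huniq e i j h1 h2)

end

/-- the rank of a set of edges and its classes: there is a labelling constant along `J` whose number of
values is at least `card N - gk J` -/
theorem exists_lab [Fintype N] [DecidableEq N] (a b : E → N) (J : Finset E) :
    ∃ c : N → N, (∀ e ∈ J, c (a e) = c (b e)) ∧ Fintype.card N ≤ gk a b J + (univ.image c).card := by
  classical
  let s : Setoid N :=
    { r := fun u v => ∀ f ∈ ann a b J, f u = f v
      iseqv := ⟨fun _ _ _ => rfl, fun h f hf => (h f hf).symm, fun h1 h2 f hf => (h1 f hf).trans (h2 f hf)⟩ }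
  have hdim := finrank_ann_le_quot a b J s (fun f hf u v huv => huv f hf)
  have hgk := gk_add a b J
  refine ⟨fun u => (Quotient.mk s u).out, ?_, ?_⟩
  · intro e he
    have h1 : Quotient.mk s (a e) = Quotient.mk s (b e) := Quotient.sound (fun f hf => hf e he)
    change (Quotient.mk s (a e)).out = (Quotient.mk s (b e)).out
    rw [h1]
  · have h1 : Fintype.card (Quotient s) ≤ (univ.image fun u => (Quotient.mk s u).out).card := by
      rw [← card_univ]
      apply card_le_card_of_injOn (fun q => q.out)
      · intro q _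
        rw [mem_coe, mem_image]
        exact ⟨q.out, mem_univ _, by rw [Quotient.out_eq]⟩
      · intro q _ q' _ hqq
        have h2 := congrArg (Quotient.mk s) hqq
        rwa [Quotient.out_eq, Quotient.out_eq] at h2
    omega

/-- **Nash-Williams / Tutte**: the partition condition gives `t` disjoint bases. -/
theorem pack_str [Fintype N] [DecidableEq N] [Nonempty N] [DecidableEq E] (a b : E → N) (F : Finset E) (t : ℕ)
    (h : ∀ c : N → N, t * ((univ.image c).card - 1) ≤ (F.filter fun e => c (a e) ≠ c (b e)).card) :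
    ∃ T : Fin t → Finset E, (∀ i, T i ⊆ F) ∧ (∀ i j, i ≠ j → Disjoint (T i) (T j)) ∧
      ∀ i, (T i).card + 1 = Fintype.card N ∧ gk a b (T i) + 1 = Fintype.card N := by
  have hN : 0 < Fintype.card N := Fintype.card_pos
  have key : ∀ J, J ⊆ F → t * (Fintype.card N - 1) ≤ t * gk a b J + (F \ J).card := by
    intro J hJ
    obtain ⟨c, hc, hcard⟩ := exists_lab a b J
    have h1 := h c
    have h2 : (F.filter fun e => c (a e) ≠ c (b e)).card ≤ (F \ J).card := by
      apply card_le_card
      intro e he
      rw [mem_filter] at he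
      rw [mem_sdiff]
      exact ⟨he.1, fun hh => he.2 (hc e hh)⟩
    have h3 : Fintype.card N - 1 ≤ gk a b J + ((univ.image c).card - 1) := by omega
    calc t * (Fintype.card N - 1) ≤ t * (gk a b J + ((univ.image c).card - 1)) := Nat.mul_le_mul_left t h3
      _ = t * gk a b J + t * ((univ.image c).card - 1) := by ring
      _ ≤ _ := Nat.add_le_add_left (h1.trans h2) _
  obtain ⟨T, h1, h2, h3⟩ := pack_rk (gk_rk a b) F (Fintype.card N - 1)
    (fun J _ => by have := gk_lt a b J; omega) key
  exact ⟨T, h1, h2, fun i => ⟨by have := (h3 i).1; omega, by have := (h3 i).2; omega⟩⟩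

/-- full rank means that every proper cut is crossed -/
theorem cross_of_gk [Fintype N] {a b : E → N} {F : Finset E} (h : Fintype.card N ≤ gk a b F + 1)
    (Y : Finset N) {u v : N} (hu : u ∈ Y) (hv : v ∉ Y) : ∃ e ∈ F, ¬ (a e ∈ Y ↔ b e ∈ Y) := by
  by_contra hcon
  push Not at hcon
  exact hv (all_of_closed h (fun w => w ∈ Y) hcon hu)

/-- if every proper cut is crossed the rank is full -/
theorem gk_of_cross [Fintype N] [DecidableEq N] {a b : E → N} {F : Finset E}
    (h : ∀ Y : Finset N, Y.Nonempty → Y ≠ univ → ∃ e ∈ F, ¬ (a e ∈ Y ↔ b e ∈ Y)) :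
    Fintype.card N ≤ gk a b F + 1 := by
  obtain ⟨c, hc, hcard⟩ := exists_lab a b F
  by_contra hcon
  push Not at hcon
  have h1 : 1 < (univ.image c).card := by omega
  obtain ⟨x, hx, y, hy, hxy⟩ := one_lt_card.1 h1
  obtain ⟨u, -, hu⟩ := mem_image.1 hx
  obtain ⟨v, -, hv⟩ := mem_image.1 hy
  obtain ⟨e, he, hne⟩ := h (univ.filter fun w => c w = x) ⟨u, by simp [hu]⟩ (by
    intro hh
    have : v ∈ univ.filter fun w => c w = x := by rw [hh]; exact mem_univ v
    rw [mem_filter] at this
    exact hxy (this.2.symm.trans hv))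
  apply hne
  simp only [mem_filter, mem_univ, true_and]
  rw [hc e he]

end MP21a058
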