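import Mathlib

/-! Cuts, inner edges and connected edge sets (MP_21a058_co, one tree). -/

namespace Pool.Agent.Lib.MP_21a058_co.P

open Finset

section
variable {V E : Type*} [DecidableEq V] [Fintype E] [DecidableEq E] (a b : E → V)

/-- Edges with exactly one end in `X`. -/
def cut (X : Finset V) : Finset E := univ.filter fun e => ¬ (a e ∈ X ↔ b e ∈ X)

/-- Edges with both ends in `X`. -/
def ins (X : Finset V) : Finset E := univ.filter fun e => a e ∈ X ∧ b e ∈ X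

/-- `F` connects `X`: every proper part of `X` is left by an edge of `F` inside `X`. -/
def ConnOn (F : Finset E) (X : Finset V) : Prop :=
  ∀ Y ⊆ X, Y.Nonempty → Y ≠ X → ∃ e ∈ F, e ∈ ins a b X ∧ e ∈ cut a b Y

/-- The edges of a label. -/
def cls {t : ℕ} (lab : E → Fin t) (l : Fin t) : Finset E := univ.filter fun e => lab e = l

theorem mem_cut {X : Finset V} {e : E} : e ∈ cut a b X ↔ ¬ (a e ∈ X ↔ b e ∈ X) := by
  simp [cut]

theorem mem_ins {X : Finset V} {e : E} : e ∈ ins a b X ↔ a e ∈ X ∧ b e ∈ X := by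
  simp [ins]

theorem mem_cls {t : ℕ} (lab : E → Fin t) {l : Fin t} {e : E} :
    e ∈ cls lab l ↔ lab e = l := by
  simp [cls]

end

/-- The numbers of the construction. -/
structure Pars where
  k : ℕ
  D : ℕ
  q : ℕ
  β : ℕ
  K : ℕ
  κ : ℕ
  t : ℕ
  hk : 5 ≤ k
  hβ : β = 4 * q
  hK : K = D + β + 4 * k + 1
  hκ : κ = D + 1 + K + k
  ht : t = 2 * K + D + 3 * k + β + 3
  hq : κ + k * k + 2 * k ≤ (k - 1) * q

/-- A graph whose edges are split into `t` connected classes, all cuts have at least `2t` edges. -/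
structure Setup (V E : Type*) [Fintype V] [DecidableEq V] [Fintype E] [DecidableEq E]
    (p : Pars) where
  a : E → V
  b : E → V
  lab : E → Fin p.t
  conn : ∀ l, ConnOn a b (cls lab l) univ
  cutge : ∀ Z : Finset V, Z.Nonempty → Z ≠ univ → 2 * p.t ≤ (cut a b Z).card
  r : V

namespace Setup

variable {V E : Type*} [Fintype V] [DecidableEq V] [Fintype E] [DecidableEq E] {p : Pars}
  (S : Setup V E p)

/-- Labels crossing `X` at most once. -/
def J (X : Finset V) : Finset (Fin p.t) :=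
  univ.filter fun l => (cls S.lab l ∩ cut S.a S.b X).card ≤ 1

/-- Tight sets. -/
def L : Finset (Finset V) :=
  univ.filter fun Z => Z.Nonempty ∧ S.r ∉ Z ∧ p.t ≤ (S.J Z).card + p.K

/-- Number of used edges of `O` crossing `Z`. -/
def o (O : Finset E) (Z : Finset V) : ℕ := (O ∩ cut S.a S.b Z).card

/-- Number of missed edges crossing `X` and `Z`. -/
def m (X : Finset V) (O : Finset E) (Z : Finset V) : ℕ :=
  ((cut S.a S.b X ∩ cut S.a S.b Z) \ O).card

/-- Number of edges inside `X`, crossing `Z`, with label outside `P`. -/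
def out (X : Finset V) (P : Finset (Fin p.t)) (Z : Finset V) : ℕ :=
  ((ins S.a S.b X ∩ cut S.a S.b Z).filter fun e => S.lab e ∉ P).card

/-- The invariant at the boundary of `X`. -/
structure Inv (X : Finset V) (O : Finset E) : Prop where
  hO : O ⊆ cut S.a S.b X
  i1 : ∀ Z ∈ S.L, Z ⊂ X → p.κ ≤ S.m X O Z ∨ S.o O Z ≤ p.β
  i2 : ∀ Z ∈ S.L, ∀ Z' ∈ S.L, Z ⊂ X → Z' ⊂ X → Disjoint Z Z' →
    S.m X O Z < p.κ → S.m X O Z' < p.κ → p.β < 2 * S.o O Z → 2 * S.o O Z' ≤ p.β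
  i3 : ∃ Q : Finset (Fin p.t), Q.card ≤ p.k ∧
    (O.filter fun e => S.lab e ∉ Q).card ≤ p.β + 1

/-- What the construction gives inside `X`. -/
structure Good (X : Finset V) (O A : Finset E) : Prop where
  hA : A ⊆ ins S.a S.b X
  conn : ConnOn S.a S.b A X
  c1 : ∀ Z : Finset V, Z.Nonempty → Z ⊂ X → S.r ∉ Z →
    p.t + p.D ≤ (cut S.a S.b Z \ (A ∪ O)).card
  c2 : ∀ Y : Finset V, (Y ∩ X).Nonempty → ¬ X ⊆ Y →
    p.t ≤ ((ins S.a S.b X ∩ cut S.a S.b Y) \ A).card + p.K + p.k + 1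

/-- One step of the construction: the children `C` of `X`, the edges `A0` between them,
the labels `P`. -/
structure StepData (X : Finset V) (O : Finset E) (C : Finset (Finset V)) (A0 : Finset E)
    (P : Finset (Fin p.t)) : Prop where
  sub : ∀ W ∈ C, W ∈ S.L ∧ W ⊂ X
  disj : ∀ W ∈ C, ∀ W' ∈ C, W ≠ W' → Disjoint W W'
  hA0 : A0 ⊆ ins S.a S.b X
  hA0' : ∀ W ∈ C, ∀ e ∈ A0, e ∉ ins S.a S.b W
  conn : ∀ Y ⊆ X, Y.Nonempty → Y ≠ X → (∀ W ∈ C, W ⊆ Y ∨ Disjoint W Y) →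
    ∃ e ∈ A0, e ∈ cut S.a S.b Y
  inv : ∀ W ∈ C, S.Inv W ((O ∪ A0) ∩ cut S.a S.b W)
  child : ∀ W ∈ C, p.t + p.D ≤ (cut S.a S.b W \ (O ∪ A0)).card
  hP : P.card = p.k
  hPA : (A0.filter fun e => S.lab e ∉ P).card ≤ 1
  crit : ∀ Z : Finset V, Z.Nonempty → Z ⊂ X → S.r ∉ Z → (∀ W ∈ C, ¬ Z ⊆ W) →
    (∀ W ∈ C, W ⊆ Z ∨ Disjoint W Z) → p.t + p.D < S.out X P Z + S.m X O Z

end Setup

end Pool.Agent.Lib.MP_21a058_co.P
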