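import Mathlib
import Pool.Agent.Lib.MP_21a058_co.P.Defs

/-!
MP_21a058_co, elementary thin trees: **a connected class crosses a partition**.

* `colour_le`: a class `F` connecting `X` has at least `#colours - 1` edges inside `X` whose ends have
  different colours;
* `parts_le`: at least `|π| - 1` edges between the members of a partition `π` of `X`;
* `rest_le`: for a partition `π` of a proper part `Y` of the whole, at least `|π|` edges leave `Y` or join
  two members of `π`;
* `corners_le`: at least three edges cross `X` or `Y` when the four corners are not empty.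
-/

set_option autoImplicit false

namespace Pool.Agent.Lib.MP_21a058_co.P

open Finset

section
variable {V E : Type*} [DecidableEq V] [Fintype E] [DecidableEq E] {a b : E → V}

/-- growing a set of colours along the edges of a connected class -/
private theorem grow {ι : Type*} [DecidableEq ι] {F : Finset E} {X : Finset V}
    (h : ConnOn a b F X) (c : V → ι) : ∀ m : ℕ, m + 1 ≤ (X.image c).card →
    ∃ S : Finset ι, S ⊆ X.image c ∧ S.card = m + 1 ∧
      ∃ T : Finset E, T ⊆ F.filter (fun e => e ∈ ins a b X ∧ c (a e) ≠ c (b e)) ∧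
        (∀ e ∈ T, c (a e) ∈ S ∧ c (b e) ∈ S) ∧ T.card = m := by
  intro m
  induction m with
  | zero =>
    intro hm
    obtain ⟨s, hs⟩ := card_pos.1 (show 0 < (X.image c).card by omega)
    exact ⟨{s}, singleton_subset_iff.2 hs, card_singleton s, ∅, empty_subset _,
      fun e he => absurd he (notMem_empty e), card_empty⟩
  | succ m ih =>
    intro hm
    obtain ⟨S, hS, hSc, T, hT, hTS, hTc⟩ := ih (by omega)
    have hex : ∃ s ∈ X.image c, s ∉ S := by
      by_contra hcon
      push Not at hcon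
      have := card_le_card (show X.image c ⊆ S from hcon)
      omega
    obtain ⟨s, hs, hsS⟩ := hex
    obtain ⟨x, hxX, hxs⟩ := mem_image.1 hs
    have hne : S.Nonempty := card_pos.1 (by omega)
    obtain ⟨s', hs'⟩ := hne
    obtain ⟨y, hyX, hys⟩ := mem_image.1 (hS hs')
    obtain ⟨e, heF, heX, hec⟩ := h (X.filter fun v => c v ∈ S) (filter_subset _ _)
      ⟨y, mem_filter.2 ⟨hyX, by rw [hys]; exact hs'⟩⟩
      (fun hh => hsS (by
        have h0 : x ∈ X.filter fun v => c v ∈ S := by
          rw [hh]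
          exact hxX
        have h1 := (mem_filter.1 h0).2
        rwa [hxs] at h1))
    have heX' := (mem_ins a b).1 heX
    rw [mem_cut, mem_filter, mem_filter] at hec
    have hec' : ¬ (c (a e) ∈ S ↔ c (b e) ∈ S) := by
      intro hh
      exact hec ⟨fun h1 => ⟨heX'.2, hh.1 h1.2⟩, fun h1 => ⟨heX'.1, hh.2 h1.2⟩⟩
    have heT : e ∉ T := fun hh => hec' ⟨fun _ => (hTS e hh).2, fun _ => (hTS e hh).1⟩
    have hne' : c (a e) ≠ c (b e) := fun hh => hec' (by rw [hh])
    have hins : insert e T ⊆ F.filter (fun e => e ∈ ins a b X ∧ c (a e) ≠ c (b e)) :=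
      insert_subset (mem_filter.2 ⟨heF, heX, hne'⟩) hT
    by_cases h1 : c (a e) ∈ S
    · have h2 : c (b e) ∉ S := fun h2 => hec' ⟨fun _ => h2, fun _ => h1⟩
      refine ⟨insert (c (b e)) S, insert_subset (mem_image_of_mem c heX'.2) hS,
        by rw [card_insert_of_notMem h2, hSc], insert e T, hins, ?_,
        by rw [card_insert_of_notMem heT, hTc]⟩
      intro f hf
      rcases mem_insert.1 hf with rfl | hf
      · exact ⟨mem_insert_of_mem h1, mem_insert_self _ _⟩
      · exact ⟨mem_insert_of_mem (hTS f hf).1, mem_insert_of_mem (hTS f hf).2⟩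
    · have h2 : c (b e) ∈ S := by
        by_contra h2
        exact hec' ⟨fun h3 => absurd h3 h1, fun h3 => absurd h3 h2⟩
      refine ⟨insert (c (a e)) S, insert_subset (mem_image_of_mem c heX'.1) hS,
        by rw [card_insert_of_notMem h1, hSc], insert e T, hins, ?_,
        by rw [card_insert_of_notMem heT, hTc]⟩
      intro f hf
      rcases mem_insert.1 hf with rfl | hf
      · exact ⟨mem_insert_self _ _, mem_insert_of_mem h2⟩
      · exact ⟨mem_insert_of_mem (hTS f hf).1, mem_insert_of_mem (hTS f hf).2⟩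

/-- **a connected class meets a colouring**: at least `#colours - 1` edges inside `X` have ends of
different colours -/
theorem colour_le {ι : Type*} [DecidableEq ι] {F : Finset E} {X : Finset V}
    (h : ConnOn a b F X) (c : V → ι) :
    (X.image c).card ≤ (F.filter fun e => e ∈ ins a b X ∧ c (a e) ≠ c (b e)).card + 1 := by
  rcases Nat.eq_zero_or_pos (X.image c).card with h0 | h0
  · omega
  · obtain ⟨m, hm⟩ : ∃ m, (X.image c).card = m + 1 := ⟨(X.image c).card - 1, by omega⟩
    obtain ⟨S, -, -, T, hT, -, hTc⟩ := grow h c m (by omega)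
    have h1 := card_le_card hT
    omega

/-- **a connected class crosses a partition** `π` of `X` at least `|π| - 1` times -/
theorem parts_le {F : Finset E} {X : Finset V} (h : ConnOn a b F X) {π : Finset (Finset V)}
    (hne : ∀ W ∈ π, W.Nonempty) (hsub : ∀ W ∈ π, W ⊆ X)
    (hd : ∀ W ∈ π, ∀ W' ∈ π, W ≠ W' → Disjoint W W') (hc : ∀ x ∈ X, ∃ W ∈ π, x ∈ W) :
    π.card ≤ (F.filter fun e => ∃ W ∈ π, ∃ W' ∈ π, W ≠ W' ∧ a e ∈ W ∧ b e ∈ W').card + 1 := by
  classical
  have hc' : ∀ x, ∃ W, x ∈ X → W ∈ π ∧ x ∈ W := by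
    intro x
    by_cases hx : x ∈ X
    · obtain ⟨W, hW, hxW⟩ := hc x hx
      exact ⟨W, fun _ => ⟨hW, hxW⟩⟩
    · exact ⟨∅, fun hh => absurd hh hx⟩
  choose c hcc using hc'
  have huniq : ∀ W ∈ π, ∀ x ∈ W, c x = W := by
    intro W hW x hx
    by_contra hcon
    obtain ⟨h1, h2⟩ := hcc x (hsub W hW hx)
    exact (disjoint_left.1 (hd _ h1 W hW hcon) h2) hx
  have h1 : π ⊆ X.image c := by
    intro W hW
    obtain ⟨x, hx⟩ := hne W hW
    exact mem_image.2 ⟨x, hsub W hW hx, huniq W hW x hx⟩
  have h2 := colour_le h c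
  have h3 : (F.filter fun e => e ∈ ins a b X ∧ c (a e) ≠ c (b e)) ⊆
      F.filter fun e => ∃ W ∈ π, ∃ W' ∈ π, W ≠ W' ∧ a e ∈ W ∧ b e ∈ W' := by
    intro e he
    obtain ⟨heF, heX, hne'⟩ := mem_filter.1 he
    obtain ⟨h4, h5⟩ := (mem_ins a b).1 heX
    exact mem_filter.2 ⟨heF, c (a e), (hcc _ h4).1, c (b e), (hcc _ h5).1, hne', (hcc _ h4).2,
      (hcc _ h5).2⟩
  have h4 := card_le_card h1
  have h5 := card_le_card h3
  omega

/-- **with the rest**: a class connecting everything; `π` a partition of a proper part `Y`: at least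
`|π|` edges leave `Y` or join two members of `π` -/
theorem rest_le [Fintype V] {F : Finset E} (h : ConnOn a b F univ) {Y : Finset V} (hY : Y ≠ univ)
    {π : Finset (Finset V)} (hne : ∀ W ∈ π, W.Nonempty) (hsub : ∀ W ∈ π, W ⊆ Y)
    (hd : ∀ W ∈ π, ∀ W' ∈ π, W ≠ W' → Disjoint W W') (hc : ∀ x ∈ Y, ∃ W ∈ π, x ∈ W) :
    π.card ≤ (F.filter fun e => ∃ W ∈ π, ∃ W' ∈ π, W ≠ W' ∧ a e ∈ W ∧ b e ∈ W').card +
      (F ∩ cut a b Y).card := by
  classical
  have hYc : (Yᶜ).Nonempty := by
    rw [nonempty_iff_ne_empty]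
    intro hh
    exact hY (by rwa [compl_eq_empty_iff] at hh)
  have hnot : Yᶜ ∉ π := by
    intro hh
    obtain ⟨x, hx⟩ := hYc
    exact (mem_compl.1 hx) (hsub _ hh hx)
  have hdY : ∀ W ∈ π, Disjoint Yᶜ W := by
    intro W hW
    rw [disjoint_left]
    intro x hx hx'
    exact (mem_compl.1 hx) (hsub _ hW hx')
  have h1 := parts_le (π := insert Yᶜ π) h
    (by
      intro W hW
      rcases mem_insert.1 hW with rfl | hW
      · exact hYc
      · exact hne W hW)
    (fun W _ => subset_univ _)
    (by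
      intro W hW W' hW' hWW
      rcases mem_insert.1 hW with h2 | hW
      · rcases mem_insert.1 hW' with h3 | hW'
        · exact absurd (h2.trans h3.symm) hWW
        · rw [h2]
          exact hdY W' hW'
      · rcases mem_insert.1 hW' with h3 | hW'
        · rw [h3]
          exact (hdY W hW).symm
        · exact hd W hW W' hW' hWW)
    (by
      intro x _
      by_cases hx : x ∈ Y
      · obtain ⟨W, hW, hxW⟩ := hc x hx
        exact ⟨W, mem_insert_of_mem hW, hxW⟩
      · exact ⟨Yᶜ, mem_insert_self _ _, mem_compl.2 hx⟩)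
  rw [card_insert_of_notMem hnot] at h1
  have h2 : (F.filter fun e => ∃ W ∈ insert Yᶜ π, ∃ W' ∈ insert Yᶜ π, W ≠ W' ∧ a e ∈ W ∧ b e ∈ W') ⊆
      (F.filter fun e => ∃ W ∈ π, ∃ W' ∈ π, W ≠ W' ∧ a e ∈ W ∧ b e ∈ W') ∪ (F ∩ cut a b Y) := by
    intro e he
    obtain ⟨heF, W, hW, W', hW', hWW, h3, h4⟩ := mem_filter.1 he
    rcases mem_insert.1 hW with h5 | hW
    · rcases mem_insert.1 hW' with h6 | hW'
      · exact absurd (h5.trans h6.symm) hWW
      · rw [h5, mem_compl] at h3
        exact mem_union_right _ (mem_inter.2 ⟨heF, (mem_cut a b).2 fun hh =>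
          h3 (hh.2 (hsub _ hW' h4))⟩)
    · rcases mem_insert.1 hW' with h6 | hW'
      · rw [h6, mem_compl] at h4
        exact mem_union_right _ (mem_inter.2 ⟨heF, (mem_cut a b).2 fun hh =>
          h4 (hh.1 (hsub _ hW h3))⟩)
      · exact mem_union_left _ (mem_filter.2 ⟨heF, W, hW, W', hW', hWW, h3, h4⟩)
  have h3 := (card_le_card h2).trans (card_union_le _ _)
  omega

/-- **four corners**: a connected class crosses `X` or `Y` at least three times in all -/
theorem corners_le [Fintype V] {F : Finset E} (h : ConnOn a b F univ) {X Y : Finset V}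
    (h1 : (X ∩ Y).Nonempty) (h2 : (X \ Y).Nonempty) (h3 : (Y \ X).Nonempty) (h4 : X ∪ Y ≠ univ) :
    3 ≤ (F ∩ cut a b X).card + (F ∩ cut a b Y).card := by
  classical
  have g := colour_le h (fun v => (decide (v ∈ X), decide (v ∈ Y)))
  have g1 : ∀ p : Bool × Bool, p ∈ (univ : Finset V).image
      (fun v => (decide (v ∈ X), decide (v ∈ Y))) := by
    rintro ⟨p, q⟩
    rw [mem_image]
    rcases p with _ | _ <;> rcases q with _ | _
    · obtain ⟨v, hv⟩ : ∃ v, v ∉ X ∪ Y := by
        by_contra hcon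
        push Not at hcon
        exact h4 (eq_univ_iff_forall.2 hcon)
      rw [mem_union, not_or] at hv
      exact ⟨v, mem_univ _, by simp [hv.1, hv.2]⟩
    · obtain ⟨v, hv⟩ := h3
      rw [mem_sdiff] at hv
      exact ⟨v, mem_univ _, by simp [hv.1, hv.2]⟩
    · obtain ⟨v, hv⟩ := h2
      rw [mem_sdiff] at hv
      exact ⟨v, mem_univ _, by simp [hv.1, hv.2]⟩
    · obtain ⟨v, hv⟩ := h1
      rw [mem_inter] at hv
      exact ⟨v, mem_univ _, by simp [hv.1, hv.2]⟩
  have g2 : (univ : Finset (Bool × Bool)) ⊆ (univ : Finset V).image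
      (fun v => (decide (v ∈ X), decide (v ∈ Y))) := fun p _ => g1 p
  have g3 := card_le_card g2
  have g4 : (univ : Finset (Bool × Bool)).card = 4 := rfl
  have g5 : (F.filter fun e => e ∈ ins a b univ ∧
      (decide (a e ∈ X), decide (a e ∈ Y)) ≠ (decide (b e ∈ X), decide (b e ∈ Y))) ⊆
      (F ∩ cut a b X) ∪ (F ∩ cut a b Y) := by
    intro e he
    obtain ⟨heF, -, hne⟩ := mem_filter.1 he
    rw [mem_union, mem_inter, mem_inter, mem_cut, mem_cut]
    by_contra hcon
    rw [not_or, not_and, not_and, not_not, not_not] at hcon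
    obtain ⟨g6, g7⟩ := hcon
    have g8 := g6 heF
    have g9 := g7 heF
    apply hne
    simp only [Prod.mk.injEq, decide_eq_decide]
    exact ⟨g8, g9⟩
  have g6 := (card_le_card g5).trans (card_union_le _ _)
  omega

end

end Pool.Agent.Lib.MP_21a058_co.P
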