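import Mathlib
import Pool.Agent.Lib.MP_21a058_co.P.Defs
import Pool.Agent.Lib.MP_21a058_co.P.AnnR

/-!
# Packing connected classes

If every cut has at least `2 t` edges, the edges can be labelled by `Fin t` such that every class is
connected: Rado's theorem for the groups `{(e, i) : i}` and the sum of `t` graph ranks.
-/

namespace Pool.Agent.Lib.MP_21a058_co.P

open Finset MP21a058

/-- the `i`-th slice of a set of labelled edges -/
def pksl {E : Type*} [Fintype E] [DecidableEq E] {t : ℕ} (F : Finset (E × Fin t)) (i : Fin t) : Finset E :=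
  univ.filter fun e => (e, i) ∈ F

section
variable {V E : Type*} [Fintype E] [DecidableEq E] {t : ℕ}

theorem mem_pksl {F : Finset (E × Fin t)} {i : Fin t} {e : E} : e ∈ pksl F i ↔ (e, i) ∈ F := by
  simp [pksl]

theorem pksl_rk [Fintype V] (a b : E → V) :
    Rk (fun F : Finset (E × Fin t) => ∑ i, gk a b (pksl F i)) where
  emp := by
    apply sum_eq_zero
    intro i _
    have h : pksl (∅ : Finset (E × Fin t)) i = ∅ := by
      ext e
      rw [mem_pksl]
      simp
    rw [h]
    exact (gk_rk a b).emp
  mono := by
    intro s u h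
    apply sum_le_sum
    intro i _
    apply (gk_rk a b).mono
    intro e he
    rw [mem_pksl] at he ⊢
    exact h he
  one := by
    rintro s ⟨e, j⟩
    rw [← add_sum_erase univ (fun i => gk a b (pksl (insert (e, j) s) i)) (mem_univ j),
      ← add_sum_erase univ (fun i => gk a b (pksl s i)) (mem_univ j)]
    have h1 : pksl (insert (e, j) s) j = insert e (pksl s j) := by
      ext x
      rw [mem_pksl, mem_insert, mem_insert, mem_pksl, Prod.mk.injEq]
      simp
    have h2 : ∑ i ∈ univ.erase j, gk a b (pksl (insert (e, j) s) i) = ∑ i ∈ univ.erase j, gk a b (pksl s i) := by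
      apply sum_congr rfl
      intro i hi
      have h3 : pksl (insert (e, j) s) i = pksl s i := by
        ext x
        rw [mem_pksl, mem_insert, mem_pksl, Prod.mk.injEq]
        constructor
        · rintro (⟨-, h⟩ | h)
          · exact absurd h (ne_of_mem_erase hi)
          · exact h
        · exact Or.inr
      rw [h3]
    have h4 := (gk_rk a b).one (pksl s j) e
    rw [h1, h2]
    omega
  sub := by
    intro s u
    change ∑ i, gk a b (pksl (s ∪ u) i) + ∑ i, gk a b (pksl (s ∩ u) i) ≤
      ∑ i, gk a b (pksl s i) + ∑ i, gk a b (pksl u i)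
    rw [← sum_add_distrib, ← sum_add_distrib]
    apply sum_le_sum
    intro i _
    have h1 : pksl (s ∪ u) i = pksl s i ∪ pksl u i := by
      ext x
      rw [mem_pksl, mem_union, mem_union, mem_pksl, mem_pksl]
    have h2 : pksl (s ∩ u) i = pksl s i ∩ pksl u i := by
      ext x
      rw [mem_pksl, mem_inter, mem_inter, mem_pksl, mem_pksl]
    rw [h1, h2]
    exact (gk_rk a b).sub _ _

/-- the counting: a set `J` of edges and the cuts of its classes -/
theorem pk_count [Fintype V] [DecidableEq V] (a b : E → V)
    (h : ∀ Z : Finset V, Z.Nonempty → Z ≠ univ → 2 * t ≤ (cut a b Z).card) (J : Finset E) :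
    t * (Fintype.card V - 1) ≤ t * gk a b J + (univ \ J).card := by
  classical
  let s : Setoid V :=
    { r := fun u v => ∀ f ∈ ann a b J, f u = f v
      iseqv := ⟨fun _ _ _ => rfl, fun h f hf => (h f hf).symm, fun h1 h2 f hf => (h1 f hf).trans (h2 f hf)⟩ }
  have hdim := finrank_ann_le_quot a b J s (fun f hf u v huv => huv f hf)
  have hgk := gk_add a b J
  by_cases hc : Fintype.card (Quotient s) ≤ 1
  · have h1 : Fintype.card V - 1 ≤ gk a b J := by omega
    exact (Nat.mul_le_mul_left t h1).trans (Nat.le_add_right _ _)
  · push Not at hc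
    -- the class of `q`
    let Z : Quotient s → Finset V := fun q => univ.filter fun v => Quotient.mk s v = q
    have hZ : ∀ q, 2 * t ≤ (cut a b (Z q)).card := by
      intro q
      apply h
      · obtain ⟨v, rfl⟩ := Quotient.exists_rep q
        exact ⟨v, by simp [Z]⟩
      · intro hq
        obtain ⟨q', hq'⟩ := Fintype.exists_ne_of_one_lt_card hc q
        obtain ⟨v, rfl⟩ := Quotient.exists_rep q'
        have hv : v ∈ Z q := by rw [hq]; exact mem_univ v
        exact hq' (mem_filter.1 hv).2
    have hsum : ∑ q : Quotient s, (cut a b (Z q)).card ≤ 2 * (univ \ J).card := by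
      have h1 : ∀ q, (cut a b (Z q)).card = ∑ e : E, if e ∈ cut a b (Z q) then 1 else 0 := by
        intro q
        rw [sum_boole, Nat.cast_id]
        congr 1
        ext e
        simp
      have h2 : ∑ q : Quotient s, (cut a b (Z q)).card =
          ∑ e : E, ∑ q : Quotient s, if e ∈ cut a b (Z q) then 1 else 0 := by
        rw [sum_comm]
        exact sum_congr rfl fun q _ => h1 q
      rw [h2]
      have h3 : ∀ e : E, (∑ q : Quotient s, if e ∈ cut a b (Z q) then 1 else 0) ≤
          if e ∈ univ \ J then 2 else 0 := by
        intro e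
        rw [sum_boole, Nat.cast_id]
        have hmem : ∀ q, e ∈ cut a b (Z q) → q = Quotient.mk s (a e) ∨ q = Quotient.mk s (b e) := by
          intro q hq
          rw [mem_cut] at hq
          by_contra hcon
          push Not at hcon
          apply hq
          constructor
          · intro hh
            exact absurd (mem_filter.1 hh).2.symm hcon.1
          · intro hh
            exact absurd (mem_filter.1 hh).2.symm hcon.2
        by_cases he : e ∈ J
        · rw [if_neg (by simp [he])]
          rw [Nat.le_zero, card_eq_zero, filter_eq_empty_iff]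
          intro q _ hq
          have hab : Quotient.mk s (a e) = Quotient.mk s (b e) := Quotient.sound (fun f hf => hf e he)
          rw [mem_cut] at hq
          apply hq
          simp only [Z, mem_filter, mem_univ, true_and, hab]
        · rw [if_pos (by simp [he])]
          have hsub : (univ.filter fun q => e ∈ cut a b (Z q)) ⊆ {Quotient.mk s (a e), Quotient.mk s (b e)} := by
            intro q hq
            rcases hmem q (mem_filter.1 hq).2 with h | h
            · rw [h]; exact mem_insert_self _ _
            · rw [h]; exact mem_insert_of_mem (mem_singleton_self _)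
          exact (card_le_card hsub).trans card_le_two
      refine (sum_le_sum fun e _ => h3 e).trans ?_
      rw [← sum_filter, sum_const, smul_eq_mul, mul_comm]
      apply Nat.mul_le_mul_left
      apply card_le_card
      intro e he
      exact (mem_filter.1 he).2
    have h4 : Fintype.card (Quotient s) * (2 * t) ≤ ∑ q : Quotient s, (cut a b (Z q)).card := by
      rw [← smul_eq_mul, ← card_univ]
      exact card_nsmul_le_sum _ _ _ fun q _ => hZ q
    have h5 : Fintype.card V - 1 ≤ gk a b J + (Fintype.card (Quotient s) - 1) := by omega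
    have h6 : t * (Fintype.card (Quotient s) - 1) ≤ (univ \ J).card := by
      have h7 : t * (Fintype.card (Quotient s) - 1) ≤ t * Fintype.card (Quotient s) :=
        Nat.mul_le_mul_left t (Nat.sub_le _ _)
      have h8 : 2 * (t * Fintype.card (Quotient s)) = Fintype.card (Quotient s) * (2 * t) := by ring
      omega
    calc t * (Fintype.card V - 1) ≤ t * (gk a b J + (Fintype.card (Quotient s) - 1)) := Nat.mul_le_mul_left t h5
      _ = t * gk a b J + t * (Fintype.card (Quotient s) - 1) := by ring
      _ ≤ _ := Nat.add_le_add_left h6 _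

end

/-- **Packing**: cuts of size `2 t` give `t` connected classes. -/
theorem pack {V E : Type*} [Fintype V] [DecidableEq V] [Fintype E] [DecidableEq E]
    (a b : E → V) (t : ℕ) (ht : 0 < t)
    (h : ∀ Z : Finset V, Z.Nonempty → Z ≠ univ → 2 * t ≤ (cut a b Z).card) :
    ∃ lab : E → Fin t, ∀ l, ConnOn a b (cls lab l) univ := by
  classical
  by_cases hV : IsEmpty V
  · refine ⟨fun _ => ⟨0, ht⟩, fun l Y _ hY _ => ?_⟩
    obtain ⟨v, -⟩ := hY
    exact (hV.false v).elim
  rw [not_isEmpty_iff] at hV
  let A : E → Finset (E × Fin t) := fun e => univ.image fun i => (e, i)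
  have hA : ∀ J : Finset E, t * (Fintype.card V - 1) ≤
      (∑ i, gk a b (pksl (J.biUnion A) i)) + (univ \ J).card := by
    intro J
    have h1 : ∀ i, pksl (J.biUnion A) i = J := by
      intro i
      ext e
      rw [mem_pksl, mem_biUnion]
      constructor
      · rintro ⟨e', he', hh⟩
        obtain ⟨i', -, hi⟩ := mem_image.1 hh
        rw [Prod.mk.injEq] at hi
        rw [← hi.1]
        exact he'
      · intro he
        exact ⟨e, he, mem_image_of_mem _ (mem_univ i)⟩
    rw [sum_congr rfl (fun i _ => by rw [h1 i]), sum_const, card_univ, Fintype.card_fin, smul_eq_mul]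
    exact pk_count a b h J
  obtain ⟨y, g, hgi, hgA, hyc, hyr⟩ := rado_set (pksl_rk a b) A (t * (Fintype.card V - 1)) hA
  have hfst : ∀ e : {e // e ∈ y}, g e = e.1.1 := by
    intro e
    obtain ⟨i, -, hi⟩ := mem_image.1 (hgA e)
    rw [← hi]
  have huniq : ∀ e i j, (e, i) ∈ y → (e, j) ∈ y → i = j := by
    intro e i j hi hj
    have h1 : (⟨(e, i), hi⟩ : {e // e ∈ y}) = ⟨(e, j), hj⟩ := hgi (by rw [hfst, hfst])
    have h2 := congrArg Subtype.val h1
    exact (Prod.mk.inj h2).2
  have hfull : ∀ i, Fintype.card V ≤ gk a b (pksl y i) + 1 := by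
    intro i
    by_contra hcon
    push Not at hcon
    have hlt : ∑ i, gk a b (pksl y i) < ∑ _i : Fin t, (Fintype.card V - 1) := by
      apply sum_lt_sum
      · intro j _
        have := gk_lt a b (pksl y j)
        omega
      · exact ⟨i, mem_univ i, by omega⟩
    rw [sum_const, card_univ, Fintype.card_fin, smul_eq_mul] at hlt
    have hyr' : ∑ i, gk a b (pksl y i) = t * (Fintype.card V - 1) := hyr
    omega
  let lab : E → Fin t := fun e => if h : ∃ i, (e, i) ∈ y then h.choose else ⟨0, ht⟩
  have hlab : ∀ e i, (e, i) ∈ y → lab e = i := by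
    intro e i hi
    have hex : ∃ i, (e, i) ∈ y := ⟨i, hi⟩
    have h1 : lab e = hex.choose := dif_pos hex
    rw [h1]
    exact huniq e _ _ hex.choose_spec hi
  refine ⟨lab, fun l Y _ hY hne => ?_⟩
  obtain ⟨u, hu⟩ := hY
  by_contra hcon
  push Not at hcon
  apply hne
  rw [eq_univ_iff_forall]
  intro v
  refine all_of_closed (hfull l) (fun w => w ∈ Y) ?_ hu
  intro e he
  rw [mem_pksl] at he
  have h1 : e ∈ cls lab l := (mem_cls lab).2 (hlab e l he)
  have h2 := hcon e h1 ((mem_ins a b).2 ⟨mem_univ _, mem_univ _⟩)
  rw [mem_cut] at h2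
  exact not_not.1 h2

end Pool.Agent.Lib.MP_21a058_co.P
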