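import Mathlib

/-!
MP_21a058_co: a connected edge set contains a spanning tree grown from a root `r`; every edge is owned by its end nearer
to the root (the parent), so every node has at most one edge which it does not own.
-/

set_option autoImplicit false

namespace Pool.Agent.Lib.MP_21a058_co

open Finset

/-- the two nodes are the ends of an edge of `F` -/
def PJoin {N E : Type*} (a b : E → N) (F : Finset E) (x y : N) : Prop :=
  ∃ e ∈ F, (a e = x ∧ b e = y) ∨ (a e = y ∧ b e = x)

lemma PJoin.mono {N E : Type*} {a b : E → N} {F G : Finset E} (h : F ⊆ G) {x y : N}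
    (hx : PJoin a b F x y) : PJoin a b G x y := by
  obtain ⟨e, he, h1⟩ := hx
  exact ⟨e, h he, h1⟩

lemma PJoin.symm {N E : Type*} {a b : E → N} {F : Finset E} {x y : N}
    (hx : PJoin a b F x y) : PJoin a b F y x := by
  obtain ⟨e, he, h1⟩ := hx
  exact ⟨e, he, h1.symm⟩

/-- an edge leaving a set which contains the start of a path and not its end -/
lemma PJoin.leaves {N E : Type*} {a b : E → N} {F : Finset E} {r v : N}
    (h : Relation.ReflTransGen (PJoin a b F) r v) (S : Finset N) (hr : r ∈ S) (hv : v ∉ S) :
    ∃ e ∈ F, ∃ x y, x ∈ S ∧ y ∉ S ∧ ((a e = x ∧ b e = y) ∨ (a e = y ∧ b e = x)) := by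
  classical
  by_contra hcon
  push Not at hcon
  have key : ∀ w, Relation.ReflTransGen (PJoin a b F) r w → w ∈ S := by
    intro w hw
    induction hw with
    | refl => exact hr
    | tail _ hyz ih =>
      obtain ⟨e, heF, he⟩ := hyz
      by_contra h3
      have h1 := hcon e heF _ _ ih h3
      rcases he with h2 | h2
      · exact h1.1 h2.1 h2.2
      · exact h1.2 h2.1 h2.2
  exact hv (key v h)

/-- **the tree grown from the root**, nodes in a finite set `U` -/
theorem par_on {N E : Type*} [DecidableEq N] [DecidableEq E] (a b : E → N) (U : Finset N)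
    (F : Finset E) (hin : ∀ e ∈ F, a e ∈ U ∧ b e ∈ U) (r : N) (hr : r ∈ U)
    (h : ∀ v ∈ U, Relation.ReflTransGen (PJoin a b F) r v) :
    ∃ (T : Finset E) (own : E → N), T ⊆ F ∧ (∀ e ∈ T, a e ≠ b e) ∧
      (∀ e ∈ T, own e = a e ∨ own e = b e) ∧
      (∀ v ∈ U, Relation.ReflTransGen (PJoin a b T) r v) ∧
      (∀ v, (T.filter fun e => (a e = v ∨ b e = v) ∧ own e ≠ v).card ≤ 1) ∧
      T.card + 1 = U.card := by
  have key : ∀ m : ℕ, m + 1 ≤ U.card → ∃ (S : Finset N) (T : Finset E) (own : E → N),
      r ∈ S ∧ S ⊆ U ∧ S.card = m + 1 ∧ T ⊆ F ∧ (∀ e ∈ T, a e ≠ b e) ∧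
      (∀ e ∈ T, own e = a e ∨ own e = b e) ∧ (∀ e ∈ T, a e ∈ S ∧ b e ∈ S) ∧
      (∀ v ∈ S, Relation.ReflTransGen (PJoin a b T) r v) ∧
      (∀ v, (T.filter fun e => (a e = v ∨ b e = v) ∧ own e ≠ v).card ≤ 1) ∧ T.card = m := by
    intro m
    induction m with
    | zero =>
      intro _
      refine ⟨{r}, ∅, fun _ => r, mem_singleton_self _, singleton_subset_iff.2 hr,
        card_singleton _, empty_subset _,
        fun e he => absurd he (notMem_empty _), fun e he => absurd he (notMem_empty _),
        fun e he => absurd he (notMem_empty _), fun v hv => ?_, fun v => ?_, card_empty⟩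
      · rw [mem_singleton.1 hv]
      · rw [filter_empty, card_empty]
        exact zero_le_one
    | succ m ih =>
      intro hm
      obtain ⟨S, T, own, h1, hSU, h2, h3, h4, h5, h6, h7, h8, h9⟩ := ih (by omega)
      have hne : ∃ v ∈ U, v ∉ S := by
        by_contra hcon
        push Not at hcon
        have h10 : U.card ≤ S.card := card_le_card hcon
        omega
      obtain ⟨v, hvU, hv⟩ := hne
      obtain ⟨e, he, x, y, hx, hy, hxy⟩ := PJoin.leaves (h v hvU) S h1 hv
      have heT : e ∉ T := by
        intro hcon
        obtain ⟨k1, k2⟩ := h6 e hcon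
        rcases hxy with ⟨l1, l2⟩ | ⟨l1, l2⟩
        · exact hy (by rw [← l2]; exact k2)
        · exact hy (by rw [← l1]; exact k1)
      have hyU : y ∈ U := by
        obtain ⟨k1, k2⟩ := hin e he
        rcases hxy with ⟨l1, l2⟩ | ⟨l1, l2⟩
        · rw [← l2]
          exact k2
        · rw [← l1]
          exact k1
      have hne' : x ≠ y := fun hcon => hy (by rw [← hcon]; exact hx)
      have hown : ∀ f ∈ T, Function.update own e x f = own f := by
        intro f hf
        rw [Function.update_of_ne]
        rintro rfl
        exact heT hf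
      refine ⟨insert y S, insert e T, Function.update own e x, mem_insert_of_mem h1,
        insert_subset hyU hSU, ?_,
        insert_subset he h3, fun f hf => ?_, fun f hf => ?_, fun f hf => ?_, fun w hw => ?_,
        fun w => ?_, ?_⟩
      · rw [card_insert_of_notMem hy, h2]
      · rcases mem_insert.1 hf with rfl | hf
        · rcases hxy with ⟨l1, l2⟩ | ⟨l1, l2⟩
          · rw [l1, l2]
            exact hne'
          · rw [l1, l2]
            exact hne'.symm
        · exact h4 f hf
      · rcases mem_insert.1 hf with rfl | hf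
        · rw [Function.update_self]
          rcases hxy with ⟨l1, l2⟩ | ⟨l1, l2⟩
          · exact Or.inl l1.symm
          · exact Or.inr l2.symm
        · rw [hown f hf]
          exact h5 f hf
      · rcases mem_insert.1 hf with rfl | hf
        · rcases hxy with ⟨l1, l2⟩ | ⟨l1, l2⟩
          · rw [l1, l2]
            exact ⟨mem_insert_of_mem hx, mem_insert_self _ _⟩
          · rw [l1, l2]
            exact ⟨mem_insert_self _ _, mem_insert_of_mem hx⟩
        · exact ⟨mem_insert_of_mem (h6 f hf).1, mem_insert_of_mem (h6 f hf).2⟩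
      · have hsub : T ⊆ insert e T := subset_insert _ _
        rcases mem_insert.1 hw with rfl | hw
        · exact (Relation.ReflTransGen.mono (fun _ _ => PJoin.mono hsub) _ _ (h7 x hx)).tail ⟨e, mem_insert_self _ _, hxy⟩
        · exact Relation.ReflTransGen.mono (fun _ _ => PJoin.mono hsub) _ _ (h7 w hw)
      · rcases eq_or_ne w y with rfl | hwy
        · have h10 : ((insert e T).filter fun f =>
              (a f = w ∨ b f = w) ∧ Function.update own e x f ≠ w) ⊆ {e} := by
            intro f hf
            obtain ⟨h11, h12, -⟩ := mem_filter.1 hf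
            rcases mem_insert.1 h11 with rfl | h11
            · exact mem_singleton_self _
            · exfalso
              obtain ⟨k1, k2⟩ := h6 f h11
              rcases h12 with h12 | h12
              · exact hy (by rw [← h12]; exact k1)
              · exact hy (by rw [← h12]; exact k2)
          exact (card_le_card h10).trans (card_singleton _).le
        · refine le_trans (card_le_card fun f hf => ?_) (h8 w)
          obtain ⟨h11, h12, h13⟩ := mem_filter.1 hf
          rcases mem_insert.1 h11 with rfl | h11
          · exfalso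
            rw [Function.update_self] at h13
            rcases hxy with ⟨l1, l2⟩ | ⟨l1, l2⟩
            · rcases h12 with h12 | h12
              · exact h13 (by rw [← l1]; exact h12)
              · exact hwy (by rw [← l2]; exact h12.symm)
            · rcases h12 with h12 | h12
              · exact hwy (by rw [← l1]; exact h12.symm)
              · exact h13 (by rw [← l2]; exact h12)
          · rw [hown f h11] at h13
            exact mem_filter.2 ⟨h11, h12, h13⟩
      · rw [card_insert_of_notMem heT, h9]
  have hpos : 0 < U.card := card_pos.2 ⟨r, hr⟩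
  obtain ⟨S, T, own, h1, hSU, h2, h3, h4, h5, h6, h7, h8, h9⟩ := key (U.card - 1) (by omega)
  have hS : S = U := eq_of_subset_of_card_le hSU (by omega)
  exact ⟨T, own, h3, h4, h5, fun v hv => h7 v (by rw [hS]; exact hv), h8, by omega⟩

/-- **the tree grown from the root** -/
theorem par {N E : Type*} [Fintype N] [DecidableEq N] [DecidableEq E] (a b : E → N) (F : Finset E)
    (r : N) (h : ∀ v, Relation.ReflTransGen (PJoin a b F) r v) :
    ∃ (T : Finset E) (own : E → N), T ⊆ F ∧ (∀ e ∈ T, a e ≠ b e) ∧
      (∀ e ∈ T, own e = a e ∨ own e = b e) ∧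
      (∀ v, Relation.ReflTransGen (PJoin a b T) r v) ∧
      (∀ v, (T.filter fun e => (a e = v ∨ b e = v) ∧ own e ≠ v).card ≤ 1) ∧
      T.card + 1 = Fintype.card N := by
  obtain ⟨T, own, h1, h2, h3, h4, h5, h6⟩ := par_on a b univ F
    (fun _ _ => ⟨mem_univ _, mem_univ _⟩) r (mem_univ _) fun v _ => h v
  exact ⟨T, own, h1, h2, h3, fun v => h4 v (mem_univ _), h5, by rw [h6, card_univ]⟩

end Pool.Agent.Lib.MP_21a058_co
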