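import Pool.Agent.Lib.MP_21a058_co.Basic
import Pool.Agent.Lib.MP_21a058_co.P.Defs
import Pool.Agent.Lib.MP_21a058_co.P.Par

/-!
Translations for MP_21a058_co, one tree: the cut form `ConnOn` of connectedness against walks, and the
graph notions of Basic against cuts.
-/

set_option autoImplicit false

namespace Pool.Agent.Lib.MP_21a058_co.P

open Finset

section walks
variable {V E : Type*} [DecidableEq V] [Fintype E] [DecidableEq E] {a b : E → V}

/-- the cut form gives walks inside `X` -/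
theorem ConnOn.walk {F : Finset E} {X : Finset V} (h : ConnOn a b F X) {x y : V} (hx : x ∈ X)
    (hy : y ∈ X) : Relation.ReflTransGen (PJoin a b (F ∩ ins a b X)) x y := by
  classical
  by_contra hcon
  obtain ⟨Y, hY⟩ : ∃ Y : Finset V, Y = X.filter
      (fun w => Relation.ReflTransGen (PJoin a b (F ∩ ins a b X)) x w) := ⟨_, rfl⟩
  have hmem : ∀ w, w ∈ Y ↔ w ∈ X ∧
      Relation.ReflTransGen (PJoin a b (F ∩ ins a b X)) x w := by
    intro w
    rw [hY, mem_filter]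
  have hxY : x ∈ Y := (hmem x).2 ⟨hx, Relation.ReflTransGen.refl⟩
  have hyY : y ∉ Y := fun hh => hcon ((hmem y).1 hh).2
  obtain ⟨e, heF, heX, hec⟩ := h Y (hY ▸ filter_subset _ _) ⟨x, hxY⟩
    (fun hh => hyY (hh ▸ hy))
  obtain ⟨h1, h2⟩ := (mem_ins a b).1 heX
  apply (mem_cut a b).1 hec
  have hj : PJoin a b (F ∩ ins a b X) (a e) (b e) :=
    ⟨e, mem_inter.2 ⟨heF, heX⟩, Or.inl ⟨rfl, rfl⟩⟩
  rw [hmem, hmem]
  exact ⟨fun hh => ⟨h2, hh.2.tail hj⟩, fun hh => ⟨h1, hh.2.tail hj.symm⟩⟩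

/-- walks inside `X` give the cut form -/
theorem connOn_of_walk {F : Finset E} {X : Finset V}
    (h : ∀ x ∈ X, ∀ y ∈ X, Relation.ReflTransGen (PJoin a b (F ∩ ins a b X)) x y) :
    ConnOn a b F X := by
  intro Y hYX hne hYne
  obtain ⟨x, hx⟩ := hne
  have hex : ∃ y ∈ X, y ∉ Y := by
    by_contra hcon
    push Not at hcon
    exact hYne (Subset.antisymm hYX hcon)
  obtain ⟨y, hy, hyY⟩ := hex
  obtain ⟨e, he, u, v, hu, hv, huv⟩ := PJoin.leaves (h x (hYX hx) y hy) Y hx hyY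
  obtain ⟨heF, heX⟩ := mem_inter.1 he
  refine ⟨e, heF, heX, (mem_cut a b).2 fun hh => ?_⟩
  rcases huv with ⟨h1, h2⟩ | ⟨h1, h2⟩
  · rw [h1, h2] at hh
    exact hv (hh.1 hu)
  · rw [h1, h2] at hh
    exact hv (hh.2 hu)

theorem connOn_iff {F : Finset E} {X : Finset V} : ConnOn a b F X ↔
    ∀ x ∈ X, ∀ y ∈ X, Relation.ReflTransGen (PJoin a b (F ∩ ins a b X)) x y :=
  ⟨fun h _ hx _ hy => h.walk hx hy, connOn_of_walk⟩

theorem ConnOn.mono {F F' : Finset E} {X : Finset V} (hF : F ⊆ F') (h : ConnOn a b F X) :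
    ConnOn a b F' X := by
  intro Y hYX hne hYne
  obtain ⟨e, h1, h2⟩ := h Y hYX hne hYne
  exact ⟨e, hF h1, h2⟩

/-- only the edges inside `X` matter -/
theorem connOn_inter_ins {F : Finset E} {X : Finset V} :
    ConnOn a b (F ∩ ins a b X) X ↔ ConnOn a b F X := by
  constructor
  · exact ConnOn.mono inter_subset_left
  · intro h Y hYX hne hYne
    obtain ⟨e, h1, h2, h3⟩ := h Y hYX hne hYne
    exact ⟨e, mem_inter.2 ⟨h1, h2⟩, h2, h3⟩

/-- the form with an arbitrary separating set -/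
theorem ConnOn.sep {F : Finset E} {X : Finset V} (h : ConnOn a b F X) {Y : Finset V}
    (h1 : ∃ u ∈ X, u ∈ Y) (h2 : ∃ v ∈ X, v ∉ Y) :
    ∃ e ∈ F, e ∈ ins a b X ∧ e ∈ cut a b Y := by
  obtain ⟨u, huX, huY⟩ := h1
  obtain ⟨v, hvX, hvY⟩ := h2
  obtain ⟨e, he, heX, hec⟩ := h (Y ∩ X) inter_subset_right ⟨u, mem_inter.2 ⟨huY, huX⟩⟩
    (fun hh => hvY (mem_inter.1 (hh ▸ hvX)).1)
  obtain ⟨h3, h4⟩ := (mem_ins a b).1 heX
  refine ⟨e, he, heX, (mem_cut a b).2 fun hh => (mem_cut a b).1 hec ?_⟩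
  rw [mem_inter, mem_inter]
  exact ⟨fun h5 => ⟨hh.1 h5.1, h4⟩, fun h5 => ⟨hh.2 h5.1, h3⟩⟩

theorem connOn_of_sep {F : Finset E} {X : Finset V}
    (h : ∀ Y : Finset V, (∃ u ∈ X, u ∈ Y) → (∃ v ∈ X, v ∉ Y) →
      ∃ e ∈ F, e ∈ ins a b X ∧ e ∈ cut a b Y) : ConnOn a b F X := by
  intro Y hYX hne hYne
  obtain ⟨x, hx⟩ := hne
  refine h Y ⟨x, hYX hx, hx⟩ ?_
  by_contra hcon
  push Not at hcon
  exact hYne (Subset.antisymm hYX hcon)

theorem connOn_iff_sep {F : Finset E} {X : Finset V} : ConnOn a b F X ↔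
    ∀ Y : Finset V, (∃ u ∈ X, u ∈ Y) → (∃ v ∈ X, v ∉ Y) →
      ∃ e ∈ F, e ∈ ins a b X ∧ e ∈ cut a b Y :=
  ⟨fun h _ h1 h2 => h.sep h1 h2, connOn_of_sep⟩

/-- cuts of complements -/
theorem cut_compl [Fintype V] (Z : Finset V) : cut a b Zᶜ = cut a b Z := by
  ext e
  rw [mem_cut, mem_cut, mem_compl, mem_compl]
  tauto

end walks

section graph
variable {V E : Type} [Fintype V] [DecidableEq V] [Fintype E] [DecidableEq E] {a b : E → V}
  {G : MGraph V E}

theorem joined_iff (hab : ∀ e, G.ends e = s(a e, b e)) {F : Finset E} {x y : V} :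
    G.Joined (F : Set E) x y ↔ PJoin a b F x y := by
  constructor
  · rintro ⟨e, he, h⟩
    rw [hab e] at h
    rcases Sym2.eq_iff.1 h with ⟨h1, h2⟩ | ⟨h1, h2⟩
    · exact ⟨e, he, Or.inl ⟨h1, h2⟩⟩
    · exact ⟨e, he, Or.inr ⟨h1, h2⟩⟩
  · rintro ⟨e, he, h⟩
    refine ⟨e, he, ?_⟩
    rw [hab e]
    rcases h with ⟨h1, h2⟩ | ⟨h1, h2⟩
    · rw [h1, h2]
    · rw [h1, h2, Sym2.eq_swap]

theorem connected_iff (hab : ∀ e, G.ends e = s(a e, b e)) {F : Finset E} :
    G.Connected (F : Set E) ↔ ConnOn a b F univ := by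
  have h1 : G.Joined (F : Set E) = PJoin a b F := by
    funext x y
    exact propext (joined_iff hab)
  have h2 : F ∩ ins a b univ = F := by
    ext e
    simp [mem_ins]
  rw [connOn_iff, h2]
  unfold MGraph.Connected
  rw [h1]
  exact ⟨fun h x _ y _ => h x y, fun h x y => h x (mem_univ x) y (mem_univ y)⟩

/-- `k`-edge-connected means: at least `k` edges in every cut -/
theorem edgeConnected_iff (hab : ∀ e, G.ends e = s(a e, b e)) {F : Finset E} {k : ℕ} :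
    G.EdgeConnected (F : Set E) k ↔
      ∀ Z : Finset V, Z.Nonempty → Z ≠ univ → k ≤ (F ∩ cut a b Z).card := by
  constructor
  · intro h Z hZ hZ'
    by_contra hlt
    push Not at hlt
    have h1 := h _ hlt
    rw [← coe_sdiff, connected_iff hab] at h1
    obtain ⟨e, he, -, hec⟩ := h1 Z (subset_univ _) hZ hZ'
    obtain ⟨h2, h3⟩ := mem_sdiff.1 he
    exact h3 (mem_inter.2 ⟨h2, hec⟩)
  · intro h D hD
    rw [← coe_sdiff, connected_iff hab]
    intro Z _ hZ hZ'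
    have h1 := h Z hZ hZ'
    have h2 : ∃ e ∈ F ∩ cut a b Z, e ∉ D := by
      by_contra hcon
      push Not at hcon
      have := card_le_card (show F ∩ cut a b Z ⊆ D from hcon)
      omega
    obtain ⟨e, he, heD⟩ := h2
    obtain ⟨h3, h4⟩ := mem_inter.1 he
    exact ⟨e, mem_sdiff.2 ⟨h3, heD⟩, (mem_ins a b).2 ⟨mem_univ _, mem_univ _⟩, h4⟩

/-- the whole edge set -/
theorem edgeConnected_univ_iff (hab : ∀ e, G.ends e = s(a e, b e)) {k : ℕ} :
    G.EdgeConnected Set.univ k ↔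
      ∀ Z : Finset V, Z.Nonempty → Z ≠ univ → k ≤ (cut a b Z).card := by
  rw [← coe_univ, edgeConnected_iff hab]
  simp only [univ_inter]

/-- a choice of the two ends -/
theorem exists_ends (G : MGraph V E) : ∃ a b : E → V, ∀ e, G.ends e = s(a e, b e) := by
  have h : ∀ e, ∃ p : V × V, G.ends e = s(p.1, p.2) := by
    intro e
    obtain ⟨p, hp⟩ := Quot.exists_rep (G.ends e)
    exact ⟨p, hp.symm⟩
  choose p hp using h
  exact ⟨fun e => (p e).1, fun e => (p e).2, hp⟩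

end graph

end Pool.Agent.Lib.MP_21a058_co.P
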