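import Pool.Agent.Lib.MP_21a058_co.P.Glue

/-!
From disjoint connected classes and a well connected rest to `Arrow k ks` for every tuple `ks`
with one large part.
-/

set_option autoImplicit false

namespace Pool.Agent.Lib.MP_21a058_co.P

open Finset

/-- `s` places are distributed to the classes other than `i0`. -/
theorem exists_assign {r s : ℕ} (ks : Fin r → ℕ) (i0 : Fin r)
    (hs : ∑ i ∈ univ.erase i0, ks i ≤ s) :
    ∃ σ : Fin s → Fin r, ∀ i, i ≠ i0 → ks i ≤ (univ.filter fun j => σ j = i).card := by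
  classical
  have hcard : Fintype.card (Σ i : {i // i ≠ i0}, Fin (ks i)) ≤ Fintype.card (Fin s) := by
    rw [Fintype.card_sigma, Fintype.card_fin]
    simp only [Fintype.card_fin]
    refine le_trans (le_of_eq ?_) hs
    rw [← Finset.sum_subtype (univ.erase i0) (fun x => by simp) ks]
  obtain ⟨f⟩ := Function.Embedding.nonempty_of_card_le hcard
  refine ⟨fun j => if h : ∃ x, f x = j then ((Classical.choose h).1 : Fin r) else i0, ?_⟩
  intro i hi
  have hval : ∀ y : Fin (ks i), (fun j => if h : ∃ x, f x = j then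
      ((Classical.choose h).1 : Fin r) else i0) (f ⟨⟨i, hi⟩, y⟩) = i := by
    intro y
    have h : ∃ x, f x = f ⟨⟨i, hi⟩, y⟩ := ⟨_, rfl⟩
    have h2 : Classical.choose h = ⟨⟨i, hi⟩, y⟩ := f.injective (Classical.choose_spec h)
    show (if h : ∃ x, f x = f ⟨⟨i, hi⟩, y⟩ then
      ((Classical.choose h).1 : Fin r) else i0) = i
    rw [dif_pos h, h2]
  have hinj : Function.Injective (fun y : Fin (ks i) => f ⟨⟨i, hi⟩, y⟩) := by
    intro y y' hyy
    have h1 := f.injective hyy
    simpa using h1
  calc ks i = (univ : Finset (Fin (ks i))).card := by rw [card_univ, Fintype.card_fin]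
    _ = (univ.image (fun y : Fin (ks i) => f ⟨⟨i, hi⟩, y⟩)).card :=
        (card_image_of_injective _ hinj).symm
    _ ≤ _ := by
        apply card_le_card
        intro j hj
        obtain ⟨y, -, rfl⟩ := mem_image.1 hj
        rw [mem_filter]
        exact ⟨mem_univ _, hval y⟩

/-- Disjoint connected classes `A j` and a rest with at least `l` edges in every cut give a
partition into classes with the edge-connectivities `ks`, one of them (`i0`) at most `l`, the
others of total at most the number of the classes `A j`. -/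
theorem edgeConn_of_thin {V E : Type} [Fintype V] [DecidableEq V] [Fintype E] [DecidableEq E]
    {a b : E → V} {G : MGraph V E} (hab : ∀ e, G.ends e = s(a e, b e)) {s l : ℕ}
    (A : Fin s → Finset E) (hd : ∀ i j, i ≠ j → Disjoint (A i) (A j))
    (hc : ∀ j, ConnOn a b (A j) univ)
    (hl : ∀ Z : Finset V, Z.Nonempty → Z ≠ univ → l ≤ (cut a b Z \ univ.biUnion A).card)
    {r : ℕ} (ks : Fin r → ℕ) (i0 : Fin r) (hs : ∑ i ∈ univ.erase i0, ks i ≤ s)
    (hk : ks i0 ≤ l) : ∃ c : E → Fin r, ∀ i, G.EdgeConnected {e | c e = i} (ks i) := by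
  classical
  obtain ⟨σ, hσ⟩ := exists_assign ks i0 hs
  let c : E → Fin r := fun e => if h : ∃ j, e ∈ A j then σ (Classical.choose h) else i0
  have hcA : ∀ j, ∀ e ∈ A j, c e = σ j := by
    intro j e he
    have h : ∃ j, e ∈ A j := ⟨j, he⟩
    have h1 : Classical.choose h = j := by
      by_contra hne
      exact disjoint_left.1 (hd _ _ hne) (Classical.choose_spec h) he
    show (if h : ∃ j, e ∈ A j then σ (Classical.choose h) else i0) = σ j
    rw [dif_pos h, h1]
  have hc0 : ∀ e, e ∉ univ.biUnion A → c e = i0 := by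
    intro e he
    have h : ¬ ∃ j, e ∈ A j := fun ⟨j, hj⟩ => he (mem_biUnion.2 ⟨j, mem_univ _, hj⟩)
    show (if h : ∃ j, e ∈ A j then σ (Classical.choose h) else i0) = i0
    rw [dif_neg h]
  refine ⟨c, fun i => ?_⟩
  have hset : {e | c e = i} = ((univ.filter fun e => c e = i : Finset E) : Set E) := by
    ext e
    simp
  rw [hset, edgeConnected_iff hab]
  intro Z hZ hZ'
  by_cases hi : i = i0
  · subst hi
    refine hk.trans ((hl Z hZ hZ').trans (card_le_card ?_))
    intro e he
    obtain ⟨h1, h2⟩ := mem_sdiff.1 he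
    exact mem_inter.2 ⟨mem_filter.2 ⟨mem_univ _, hc0 e h2⟩, h1⟩
  · refine (hσ i hi).trans ?_
    have hex : ∀ j, ∃ e ∈ A j, e ∈ cut a b Z := by
      intro j
      obtain ⟨e, h1, -, h3⟩ := hc j Z (subset_univ _) hZ hZ'
      exact ⟨e, h1, h3⟩
    choose g hg1 hg2 using hex
    apply card_le_card_of_injOn g
    · intro j hj
      have hj' : σ j = i := (mem_filter.1 hj).2
      exact mem_inter.2 ⟨mem_filter.2 ⟨mem_univ _, by rw [hcA j _ (hg1 j), hj']⟩, hg2 j⟩
    · intro j _ j' _ hjj
      by_contra hne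
      have h1 := hg1 j
      rw [hjj] at h1
      exact disjoint_left.1 (hd _ _ hne) h1 (hg1 j')

/-- The bridge to `Arrow`. -/
theorem arrow_of_thin {k s l : ℕ}
    (h : ∀ (V E : Type) [Fintype V] [DecidableEq V] [Fintype E] [DecidableEq E] (a b : E → V),
      Nonempty V → (∀ e, a e ≠ b e) →
      (∀ Z : Finset V, Z.Nonempty → Z ≠ univ → k ≤ (cut a b Z).card) →
      ∃ A : Fin s → Finset E, (∀ i j, i ≠ j → Disjoint (A i) (A j)) ∧
        (∀ j, ConnOn a b (A j) univ) ∧
        ∀ Z : Finset V, Z.Nonempty → Z ≠ univ → l ≤ (cut a b Z \ univ.biUnion A).card)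
    {r : ℕ} (ks : Fin r → ℕ) (i0 : Fin r) (hs : ∑ i ∈ univ.erase i0, ks i ≤ s)
    (hk : ks i0 ≤ l) : Arrow k ks := by
  classical
  intro V E _ _ G hG
  have := Fintype.ofFinite V
  have := Fintype.ofFinite E
  obtain ⟨a, b, hab⟩ := exists_ends G
  rcases isEmpty_or_nonempty V with hV | hV
  · exact ⟨fun _ => i0, fun i D _ u => (hV.false u).elim⟩
  · rw [edgeConnected_univ_iff hab] at hG
    have hne : ∀ e, a e ≠ b e := by
      intro e he
      apply G.loopless e
      rw [hab e, Sym2.mk_isDiag_iff]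
      exact he
    obtain ⟨A, hd, hc, hl⟩ := h V E a b hV hne hG
    exact edgeConn_of_thin hab A hd hc hl ks i0 hs hk

end Pool.Agent.Lib.MP_21a058_co.P
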