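import Pool.Agent.Lib.MP_21a058_co.P.Defs

/-! MP_21a058_co, one tree: **the assembly of one step** (`good_of_step`). -/

namespace Pool.Agent.Lib.MP_21a058_co.P

open Finset

section
variable {V E : Type*} [DecidableEq V] [Fintype E] [DecidableEq E] {a b : E → V}

theorem asm_ins_mono {X Y : Finset V} (h : X ⊆ Y) : ins a b X ⊆ ins a b Y := fun e he => by
  rw [mem_ins] at he ⊢
  exact ⟨h he.1, h he.2⟩

theorem asm_not_cut {X : Finset V} {e : E} (h : e ∈ ins a b X) : e ∉ cut a b X := by
  rw [mem_ins] at h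
  rw [mem_cut]
  exact fun hc => hc ⟨fun _ => h.2, fun _ => h.1⟩

/-- an edge that crosses a subset of `W` but not `W` is inside `W` -/
theorem asm_ins_of_cut {Z W : Finset V} {e : E} (hZ : Z ⊆ W) (h : e ∈ cut a b Z)
    (hW : e ∉ cut a b W) : e ∈ ins a b W := by
  rw [mem_cut] at h hW
  rw [mem_ins]
  push Not at hW
  by_cases ha : a e ∈ Z
  · exact ⟨hZ ha, hW.1 (hZ ha)⟩
  · have hb : b e ∈ Z := by
      by_contra hb
      exact h ⟨fun h1 => absurd h1 ha, fun h1 => absurd h1 hb⟩
    exact ⟨hW.2 (hZ hb), hZ hb⟩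

/-- an edge that crosses a subset of `W` has an end in `W` -/
theorem asm_end {Z W : Finset V} {e : E} (hZ : Z ⊆ W) (h : e ∈ cut a b Z) :
    a e ∈ W ∨ b e ∈ W := by
  rw [mem_cut] at h
  by_contra hcon
  push Not at hcon
  exact h ⟨fun h1 => absurd (hZ h1) hcon.1, fun h1 => absurd (hZ h1) hcon.2⟩

/-- an edge inside `X` that crosses `Z` shows that `Z` splits `X` -/
theorem asm_spl {X Z : Finset V} {e : E} (h : e ∈ ins a b X) (hc : e ∈ cut a b Z) :
    ¬ (X ⊆ Z ∨ Disjoint X Z) := by
  rw [mem_ins] at h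
  rw [mem_cut] at hc
  rintro (h1 | h1)
  · exact hc ⟨fun _ => h1 h.2, fun _ => h1 h.1⟩
  · exact hc ⟨fun h2 => absurd h2 (disjoint_left.mp h1 h.1),
      fun h2 => absurd h2 (disjoint_left.mp h1 h.2)⟩

/-- for edges inside `X`, crossing `Y` and crossing `Y ∩ X` is the same -/
theorem asm_cut_inter {X Y : Finset V} {e : E} (h : e ∈ ins a b X) :
    e ∈ cut a b (Y ∩ X) ↔ e ∈ cut a b Y := by
  rw [mem_ins] at h
  rw [mem_cut, mem_cut, mem_inter, mem_inter]
  simp only [h.1, h.2, and_true]

/-- the use of `ConnOn` for an arbitrary splitting set -/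
theorem asm_conn {F : Finset E} {X Y : Finset V} (h : ConnOn a b F X) (h1 : (Y ∩ X).Nonempty)
    (h2 : ¬ X ⊆ Y) : ∃ e ∈ F, e ∈ ins a b X ∧ e ∈ cut a b Y := by
  obtain ⟨e, he, hi, hc⟩ := h (Y ∩ X) inter_subset_right h1 (fun hcon => h2 (by
    rw [← hcon]
    exact inter_subset_left))
  exact ⟨e, he, hi, (asm_cut_inter hi).mp hc⟩

/-- (F1), inside -/
theorem asm_con_in [Fintype V] {T : Finset E} (hT : ConnOn a b T univ)
    {X : Finset V} (h1 : (T ∩ cut a b X).card ≤ 1) : ConnOn a b T X := by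
  intro Y hYX ⟨u, huY⟩ hne
  obtain ⟨v, hvX, hvY⟩ : ∃ v ∈ X, v ∉ Y := by
    by_contra hcon
    push Not at hcon
    exact hne (subset_antisymm hYX hcon)
  by_cases hXu : X = univ
  · subst hXu
    exact hT Y hYX ⟨u, huY⟩ hne
  obtain ⟨w, hw⟩ : ∃ w, w ∉ X := by
    by_contra hcon
    push Not at hcon
    exact hXu (eq_univ_of_forall hcon)
  have huX := hYX huY
  -- the edge at `X`
  obtain ⟨e0, he0, -, hc0⟩ := hT X (subset_univ _) ⟨u, huX⟩ hXu
  have huniq : ∀ e ∈ T, e ∈ cut a b X → e = e0 := fun e he hc =>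
    card_le_one.mp h1 e (mem_inter.mpr ⟨he, hc⟩) e0 (mem_inter.mpr ⟨he0, hc0⟩)
  -- its end in `X`
  have hc0' := (mem_cut a b).mp hc0
  obtain ⟨x0, hx0X, hx0⟩ : ∃ x0 ∈ X, (a e0 = x0 ∧ b e0 ∉ X) ∨ (b e0 = x0 ∧ a e0 ∉ X) := by
    by_cases ha : a e0 ∈ X
    · exact ⟨_, ha, Or.inl ⟨rfl, fun hb => hc0' ⟨fun _ => hb, fun _ => ha⟩⟩⟩
    · have hb : b e0 ∈ X := by
        by_contra hb
        exact hc0' ⟨fun h1 => absurd h1 ha, fun h1 => absurd h1 hb⟩
      exact ⟨_, hb, Or.inr ⟨rfl, ha⟩⟩
  -- a subset of `X` without `x0`, a side of the cut `Y`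
  have key : ∀ Z : Finset V, Z ⊆ X → x0 ∉ Z → Z.Nonempty →
      ∃ e ∈ T, e ∈ ins a b X ∧ e ∈ cut a b Z := by
    intro Z hZX hx0Z hZn
    obtain ⟨e, he, -, hc⟩ := hT Z (subset_univ _) hZn
      (fun hcon => hx0Z (by rw [hcon]; exact mem_univ _))
    refine ⟨e, he, ?_, hc⟩
    by_cases hcX : e ∈ cut a b X
    · exfalso
      have := huniq e he hcX
      subst this
      rw [mem_cut] at hc
      rcases hx0 with ⟨h2, h3⟩ | ⟨h2, h3⟩
      · exact hc ⟨fun h4 => absurd (h2 ▸ h4) hx0Z, fun h4 => absurd (hZX h4) h3⟩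
      · exact hc ⟨fun h4 => absurd (hZX h4) h3, fun h4 => absurd (h2 ▸ h4) hx0Z⟩
    · exact asm_ins_of_cut hZX hc hcX
  by_cases hxY : x0 ∈ Y
  · obtain ⟨e, he, hin, hc⟩ := key (X \ Y) sdiff_subset (by simp [hxY]) ⟨v, by simp [hvX, hvY]⟩
    refine ⟨e, he, hin, ?_⟩
    rw [mem_ins] at hin
    rw [mem_cut] at hc ⊢
    intro hcon
    apply hc
    simp only [mem_sdiff, hin.1, hin.2, true_and]
    exact not_congr hcon
  · exact key Y hYX hxY ⟨u, huY⟩

theorem asm_cut_compl [Fintype V] (X : Finset V) : cut a b Xᶜ = cut a b X := by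
  ext e
  rw [mem_cut, mem_cut, mem_compl, mem_compl]
  exact not_congr not_iff_not

end

namespace Setup
variable {V E : Type*} [Fintype V] [DecidableEq V] [Fintype E] [DecidableEq E] {p : Pars}
  (S : Setup V E p)

theorem asm_mem_L {Z : Finset V} :
    Z ∈ S.L ↔ Z.Nonempty ∧ S.r ∉ Z ∧ p.t ≤ (S.J Z).card + p.K := by
  simp [L]

theorem asm_mem_J {X : Finset V} {l : Fin p.t} :
    l ∈ S.J X ↔ (cls S.lab l ∩ cut S.a S.b X).card ≤ 1 := by
  simp [J]

theorem asm_labels {F : Finset E} {R : Finset (Fin p.t)} (h : ∀ l ∈ R, ∃ e ∈ F, S.lab e = l) :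
    R.card ≤ F.card := by
  have : R ⊆ F.image S.lab := fun l hl => by
    obtain ⟨e, he, hel⟩ := h l hl
    exact mem_image.mpr ⟨e, he, hel⟩
  exact (card_le_card this).trans card_image_le

theorem asm_card_J {X : Finset V} (hX : X = univ ∨ X ∈ S.L) :
    p.t ≤ (S.J X).card + p.K := by
  rcases hX with rfl | hX
  · have h1 : cut S.a S.b (univ : Finset V) = ∅ := by
      apply eq_empty_of_forall_notMem
      intro e he
      rw [mem_cut] at he
      exact he (by simp)
    have : S.J univ = univ := by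
      apply eq_univ_of_forall
      intro l
      rw [asm_mem_J, h1]
      simp
    rw [this, card_univ, Fintype.card_fin]
    omega
  · exact (S.asm_mem_L.mp hX).2.2

theorem asm_count_ins (R : Finset (Fin p.t)) {X Y : Finset V} (h : (Y ∩ X).Nonempty)
    (h' : ¬ X ⊆ Y) :
    (S.J X).card ≤ ((ins S.a S.b X ∩ cut S.a S.b Y).filter fun e => S.lab e ∉ R).card +
      R.card := by
  have h1 := le_card_sdiff R (S.J X)
  have h2 : (S.J X \ R).card ≤
      ((ins S.a S.b X ∩ cut S.a S.b Y).filter fun e => S.lab e ∉ R).card := by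
    apply S.asm_labels
    intro l hl
    obtain ⟨hlJ, hlR⟩ := mem_sdiff.mp hl
    obtain ⟨e, he, hi, hc⟩ := asm_conn (asm_con_in (S.conn l) (S.asm_mem_J.mp hlJ)) h h'
    have hl' := (mem_cls S.lab).mp he
    exact ⟨e, mem_filter.mpr ⟨mem_inter.mpr ⟨hi, hc⟩, by rw [hl']; exact hlR⟩, hl'⟩
  omega

theorem asm_count_compl (R : Finset (Fin p.t)) {W Z : Finset V} (h : ¬ Z ⊆ W) (hr : S.r ∉ Z)
    (hr' : S.r ∉ W) :
    (S.J W).card ≤ ((ins S.a S.b Wᶜ ∩ cut S.a S.b Z).filter fun e => S.lab e ∉ R).card +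
      R.card := by
  have h0 : S.J Wᶜ = S.J W := by
    ext l
    rw [asm_mem_J, asm_mem_J, asm_cut_compl]
  rw [← h0]
  apply S.asm_count_ins
  · obtain ⟨z, hz, hzW⟩ := not_subset.mp h
    exact ⟨z, mem_inter.mpr ⟨hz, mem_compl.mpr hzW⟩⟩
  · intro hcon
    exact hr (hcon (mem_compl.mpr hr'))

theorem good_of_step {X : Finset V} {O : Finset E} {C : Finset (Finset V)} {A0 : Finset E}
    {P : Finset (Fin p.t)} (hX : X = univ ∨ X ∈ S.L) (hI : S.Inv X O)
    (hs : S.StepData X O C A0 P) (A' : Finset V → Finset E)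
    (hA' : ∀ W ∈ C, S.Good W ((O ∪ A0) ∩ cut S.a S.b W) (A' W)) :
    S.Good X O (A0 ∪ C.biUnion A') := by
  have hf1 : ∀ W ∈ C, A' W ⊆ ins S.a S.b W := fun W hW => (hA' W hW).hA
  have hf3 := fun W hW => (hA' W hW).c1
  have hf4 := fun W hW => (hA' W hW).c2
  obtain ⟨Q, hQ, hQO⟩ := hI.i3
  have htt := p.ht
  have hCX : ∀ W ∈ C, W ⊆ X := fun W hW => (hs.sub W hW).2.subset
  have hCL := fun W hW => S.asm_mem_L.mp (hs.sub W hW).1
  -- two children with a common vertex are equal
  have huniq : ∀ W ∈ C, ∀ W' ∈ C, ∀ x, x ∈ W → x ∈ W' → W = W' := by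
    intro W hW W' hW' x hx hx'
    by_contra hne
    exact disjoint_left.mp (hs.disj W hW W' hW' hne) hx hx'
  have hOX : ∀ e ∈ O, ∀ W ∈ C, e ∉ ins S.a S.b W := by
    intro e he W hW hin
    exact asm_not_cut (asm_ins_mono (hCX W hW) hin) (hI.hO he)
  -- an edge at a child or inside it is in no other child
  have hend : ∀ W ∈ C, ∀ e, (S.a e ∈ W ∨ S.b e ∈ W) → ∀ W' ∈ C, e ∈ A' W' → W = W' := by
    intro W hW e he W' hW' h1
    have hin := (mem_ins S.a S.b).mp (hf1 W' hW' h1)
    rcases he with h5 | h5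
    · exact huniq W hW W' hW' _ h5 hin.1
    · exact huniq W hW W' hW' _ h5 hin.2
  -- the missed edges inside a split child
  have hsub : ∀ (Z : Finset V), ∀ W ∈ C, (ins S.a S.b W ∩ cut S.a S.b Z) \ A' W ⊆
      (ins S.a S.b X ∩ cut S.a S.b Z) \ (A0 ∪ C.biUnion A' ∪ O) := by
    intro Z W hW e he
    obtain ⟨h3, h4⟩ := mem_sdiff.mp he
    obtain ⟨h5, h6⟩ := mem_inter.mp h3
    refine mem_sdiff.mpr ⟨mem_inter.mpr ⟨asm_ins_mono (hCX W hW) h5, h6⟩, fun hcon2 => ?_⟩
    rcases mem_union.mp hcon2 with h7 | h7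
    · rcases mem_union.mp h7 with h8 | h8
      · exact hs.hA0' W hW e h8 h5
      · obtain ⟨W', hW', h9⟩ := mem_biUnion.mp h8
        have := hend W hW e (Or.inl ((mem_ins S.a S.b).mp h5).1) W' hW' h9
        subst this
        exact h4 h9
    · exact hOX e h7 W hW h5
  -- labels outside `P` inside `X`, no child split
  have hout : ∀ (Z : Finset V), (∀ W ∈ C, W ⊆ Z ∨ Disjoint W Z) →
      S.out X P Z ≤
        (((ins S.a S.b X ∩ cut S.a S.b Z) \ (A0 ∪ C.biUnion A' ∪ O)).card) + 1 := by
    intro Z hZ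
    unfold out
    set F := (ins S.a S.b X ∩ cut S.a S.b Z).filter (fun e => S.lab e ∉ P) with hF
    have h4 : (F \ A0).card + (F ∩ A0).card = F.card := card_sdiff_add_card_inter F A0
    have h5 : (F ∩ A0).card ≤ (A0.filter (fun e => S.lab e ∉ P)).card := by
      apply card_le_card
      intro e he
      obtain ⟨h6, h7⟩ := mem_inter.mp he
      exact mem_filter.mpr ⟨h7, (mem_filter.mp h6).2⟩
    have h6 := hs.hPA
    have h7 : F \ A0 ⊆ (ins S.a S.b X ∩ cut S.a S.b Z) \ (A0 ∪ C.biUnion A' ∪ O) := by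
      intro e he
      obtain ⟨h8, h9⟩ := mem_sdiff.mp he
      have h10 := (mem_filter.mp h8).1
      obtain ⟨hin, hc⟩ := mem_inter.mp h10
      refine mem_sdiff.mpr ⟨h10, fun hcon2 => ?_⟩
      rcases mem_union.mp hcon2 with h7 | h7
      · rcases mem_union.mp h7 with h8 | h8
        · exact h9 h8
        · obtain ⟨W', hW', h11⟩ := mem_biUnion.mp h8
          exact asm_spl (hf1 W' hW' h11) hc (hZ W' hW')
      · exact asm_not_cut hin (hI.hO h7)
    have h8 := card_le_card h7
    omega
  have hnspl : ∀ W Z : Finset V, ¬ (W ⊆ Z ∨ Disjoint W Z) → (Z ∩ W).Nonempty ∧ ¬ W ⊆ Z := by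
    intro W Z h
    push Not at h
    refine ⟨?_, h.1⟩
    obtain ⟨x, hx, hx'⟩ := not_disjoint_iff.mp h.2
    exact ⟨x, mem_inter.mpr ⟨hx', hx⟩⟩
  refine ⟨?_, ?_, ?_, ?_⟩
  · -- inside
    intro e he
    rcases mem_union.mp he with he | he
    · exact hs.hA0 he
    · obtain ⟨W, hW, heW⟩ := mem_biUnion.mp he
      exact asm_ins_mono (hCX W hW) (hf1 W hW heW)
  · -- connected
    intro Y hYX hYn hYne
    by_cases h : ∃ W ∈ C, ¬ (W ⊆ Y ∨ Disjoint W Y)
    · obtain ⟨W, hW, hsp⟩ := h
      obtain ⟨h1, h2⟩ := hnspl W Y hsp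
      obtain ⟨e, he, hin, hc⟩ := asm_conn (hA' W hW).conn h1 h2
      exact ⟨e, mem_union_right _ (mem_biUnion.mpr ⟨W, hW, he⟩),
        asm_ins_mono (hCX W hW) hin, hc⟩
    · have h' : ∀ W ∈ C, W ⊆ Y ∨ Disjoint W Y := by
        intro W hW
        by_contra hcon
        exact h ⟨W, hW, hcon⟩
      obtain ⟨e, he, hc⟩ := hs.conn Y hYX hYn hYne h'
      exact ⟨e, mem_union_left _ he, hs.hA0 he, hc⟩
  · -- (C1)
    intro Z hZne hZX hrZ
    by_cases h1 : ∃ W ∈ C, Z ⊆ W
    · obtain ⟨W, hW, hZW⟩ := h1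
      rcases hZW.eq_or_ssubset with rfl | hlt
      · refine (hs.child Z hW).trans (card_le_card ?_)
        intro e he
        obtain ⟨hec, heN⟩ := mem_sdiff.mp he
        refine mem_sdiff.mpr ⟨hec, fun hcon2 => ?_⟩
        rcases mem_union.mp hcon2 with h2 | h2
        · rcases mem_union.mp h2 with h3 | h3
          · exact heN (mem_union_right _ h3)
          · obtain ⟨W', hW', h4⟩ := mem_biUnion.mp h3
            have := hend Z hW e (asm_end (subset_refl Z) hec) W' hW' h4
            subst this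
            exact asm_not_cut (hf1 Z hW h4) hec
        · exact heN (mem_union_left _ h2)
      · refine (hf3 W hW Z hZne hlt hrZ).trans (card_le_card ?_)
        intro e he
        obtain ⟨hec, heN⟩ := mem_sdiff.mp he
        refine mem_sdiff.mpr ⟨hec, fun hcon2 => ?_⟩
        have hON : e ∉ O ∪ A0 := by
          intro h2
          by_cases h3 : e ∈ cut S.a S.b W
          · exact heN (mem_union_right _ (mem_inter.mpr ⟨h2, h3⟩))
          · have hin := asm_ins_of_cut hZW hec h3
            rcases mem_union.mp h2 with h4 | h4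
            · exact hOX e h4 W hW hin
            · exact hs.hA0' W hW e h4 hin
        rcases mem_union.mp hcon2 with h2 | h2
        · rcases mem_union.mp h2 with h3 | h3
          · exact hON (mem_union_right _ h3)
          · obtain ⟨W', hW', h4⟩ := mem_biUnion.mp h3
            have hWW := hend W hW e (asm_end hZW hec) W' hW' h4
            subst hWW
            exact heN (mem_union_left _ h4)
        · exact hON (mem_union_left _ h2)
    · push Not at h1
      have hcin : (ins S.a S.b X ∩ cut S.a S.b Z) \ (A0 ∪ C.biUnion A' ∪ O) ⊆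
          cut S.a S.b Z \ (A0 ∪ C.biUnion A' ∪ O) :=
        sdiff_subset_sdiff inter_subset_right (subset_refl _)
      by_cases h2 : ∃ W ∈ C, ¬ (W ⊆ Z ∨ Disjoint W Z)
      · obtain ⟨W, hW, hsp⟩ := h2
        obtain ⟨hs1, hs2⟩ := hnspl W Z hsp
        have hc1 := hf4 W hW Z hs1 hs2
        by_cases h3 : ∃ W' ∈ C, W' ≠ W ∧ ¬ (W' ⊆ Z ∨ Disjoint W' Z)
        · obtain ⟨W', hW', hne, hsp'⟩ := h3
          obtain ⟨hs1', hs2'⟩ := hnspl W' Z hsp'
          have hc2 := hf4 W' hW' Z hs1' hs2'
          have hdj : Disjoint ((ins S.a S.b W ∩ cut S.a S.b Z) \ A' W)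
              ((ins S.a S.b W' ∩ cut S.a S.b Z) \ A' W') := by
            rw [disjoint_left]
            intro e he he'
            have hin := (mem_ins S.a S.b).mp (mem_inter.mp (mem_sdiff.mp he).1).1
            have hin' := (mem_ins S.a S.b).mp (mem_inter.mp (mem_sdiff.mp he').1).1
            exact hne (huniq W' hW' W hW _ hin'.1 hin.1)
          have h4 := card_le_card (union_subset ((hsub Z W hW).trans hcin)
            ((hsub Z W' hW').trans hcin))
          rw [card_union_of_disjoint hdj] at h4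
          omega
        · have h3' : ∀ W' ∈ C, W' ≠ W → (W' ⊆ Z ∨ Disjoint W' Z) := by
            intro W' hW' hne
            by_contra hcon
            exact h3 ⟨W', hW', hne, hcon⟩
          have hLW := hCL W hW
          set F := (ins S.a S.b Wᶜ ∩ cut S.a S.b Z).filter
            (fun e => S.lab e ∉ P ∪ Q) with hF
          have hlab : (S.J W).card ≤ F.card + (P ∪ Q).card :=
            S.asm_count_compl (P ∪ Q) (h1 W hW) hrZ hLW.2.1
          have hPQ : (P ∪ Q).card ≤ P.card + Q.card := card_union_le _ _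
          have hPk := hs.hP
          have hrem : (F ∩ (O ∪ A0)).card ≤ p.β + 2 := by
            have h4 : F ∩ (O ∪ A0) ⊆ O.filter (fun e => S.lab e ∉ Q) ∪
                A0.filter (fun e => S.lab e ∉ P) := by
              intro e he
              obtain ⟨h5, h6⟩ := mem_inter.mp he
              have h7 := (mem_filter.mp h5).2
              rw [mem_union, not_or] at h7
              rcases mem_union.mp h6 with h8 | h8
              · exact mem_union_left _ (mem_filter.mpr ⟨h8, h7.2⟩)
              · exact mem_union_right _ (mem_filter.mpr ⟨h8, h7.1⟩)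
            have h5 := (card_le_card h4).trans (card_union_le _ _)
            have h6 := hs.hPA
            omega
          have hF2 : (F \ (O ∪ A0)).card + (F ∩ (O ∪ A0)).card = F.card :=
            card_sdiff_add_card_inter F (O ∪ A0)
          have hsub2 : F \ (O ∪ A0) ⊆ cut S.a S.b Z \ (A0 ∪ C.biUnion A' ∪ O) := by
            intro e he
            obtain ⟨h4, h5⟩ := mem_sdiff.mp he
            obtain ⟨hin, hc⟩ := mem_inter.mp (mem_filter.mp h4).1
            have hin := (mem_ins S.a S.b).mp hin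
            refine mem_sdiff.mpr ⟨hc, fun hcon2 => ?_⟩
            rcases mem_union.mp hcon2 with h7 | h7
            · rcases mem_union.mp h7 with h8 | h8
              · exact h5 (mem_union_right _ h8)
              · obtain ⟨W', hW', h9⟩ := mem_biUnion.mp h8
                have hin' := (mem_ins S.a S.b).mp (hf1 W' hW' h9)
                by_cases hWW : W' = W
                · subst hWW
                  exact (mem_compl.mp hin.1) hin'.1
                · exact asm_spl (hf1 W' hW' h9) hc (h3' W' hW' hWW)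
            · exact h5 (mem_union_left _ h7)
          have hdj : Disjoint ((ins S.a S.b W ∩ cut S.a S.b Z) \ A' W) (F \ (O ∪ A0)) := by
            rw [disjoint_left]
            intro e he he'
            have hin := (mem_ins S.a S.b).mp (mem_inter.mp (mem_sdiff.mp he).1).1
            have hin' := (mem_ins S.a S.b).mp
              (mem_inter.mp (mem_filter.mp (mem_sdiff.mp he').1).1).1
            exact (mem_compl.mp hin'.1) hin.1
          have h4 := card_le_card (union_subset ((hsub Z W hW).trans hcin) hsub2)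
          rw [card_union_of_disjoint hdj] at h4
          have h6 := hLW.2.2
          omega
      · have h2' : ∀ W ∈ C, (W ⊆ Z ∨ Disjoint W Z) := by
          intro W hW
          by_contra hcon
          exact h2 ⟨W, hW, hcon⟩
        have h3 := hs.crit Z hZne hZX hrZ h1 h2'
        have h4 := hout Z h2'
        have hsub2 : (cut S.a S.b X ∩ cut S.a S.b Z) \ O ⊆
            cut S.a S.b Z \ (A0 ∪ C.biUnion A' ∪ O) := by
          intro e he
          obtain ⟨h4, h5⟩ := mem_sdiff.mp he
          obtain ⟨h6, h7⟩ := mem_inter.mp h4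
          refine mem_sdiff.mpr ⟨h7, fun hcon2 => ?_⟩
          rcases mem_union.mp hcon2 with h8 | h8
          · rcases mem_union.mp h8 with h9 | h9
            · exact asm_not_cut (hs.hA0 h9) h6
            · obtain ⟨W', hW', h10⟩ := mem_biUnion.mp h9
              exact asm_not_cut (asm_ins_mono (hCX W' hW') (hf1 W' hW' h10)) h6
          · exact h5 h8
        have hdj : Disjoint ((ins S.a S.b X ∩ cut S.a S.b Z) \ (A0 ∪ C.biUnion A' ∪ O))
            ((cut S.a S.b X ∩ cut S.a S.b Z) \ O) := by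
          rw [disjoint_left]
          intro e he he'
          exact asm_not_cut (mem_inter.mp (mem_sdiff.mp he).1).1
            (mem_inter.mp (mem_sdiff.mp he').1).1
        have h5 := card_le_card (union_subset hcin hsub2)
        rw [card_union_of_disjoint hdj] at h5
        unfold m at h3
        omega
  · -- (C2)
    intro Y hY1 hY2
    have hcin : (ins S.a S.b X ∩ cut S.a S.b Y) \ (A0 ∪ C.biUnion A' ∪ O) ⊆
        (ins S.a S.b X ∩ cut S.a S.b Y) \ (A0 ∪ C.biUnion A') :=
      sdiff_subset_sdiff (subset_refl _) subset_union_left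
    by_cases h : ∃ W ∈ C, ¬ (W ⊆ Y ∨ Disjoint W Y)
    · obtain ⟨W, hW, hsp⟩ := h
      obtain ⟨hs1, hs2⟩ := hnspl W Y hsp
      have h1 := hf4 W hW Y hs1 hs2
      have h2 := card_le_card ((hsub Y W hW).trans hcin)
      omega
    · have h' : ∀ W ∈ C, W ⊆ Y ∨ Disjoint W Y := by
        intro W hW
        by_contra hcon
        exact h ⟨W, hW, hcon⟩
      have h1 := S.asm_count_ins P hY1 hY2
      have h2 := hout Y h'
      have h3 := card_le_card hcin
      have h4 := S.asm_card_J hX
      have h5 := hs.hP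
      unfold out at h2
      omega

/-- the induction, from a step for every set -/
theorem exists_good_of
    (hstep : ∀ (X : Finset V) (O : Finset E), X.Nonempty → (X = univ ∨ X ∈ S.L) → S.Inv X O →
      ∃ C A0 P, S.StepData X O C A0 P)
    {X : Finset V} {O : Finset E} (hne : X.Nonempty)
    (hX : X = univ ∨ X ∈ S.L) (hI : S.Inv X O) : ∃ A, S.Good X O A := by
  induction X using Finset.strongInduction generalizing O with
  | H X ih =>
    obtain ⟨C, A0, P, hs⟩ := hstep X O hne hX hI
    have h : ∀ W ∈ C, ∃ A, S.Good W ((O ∪ A0) ∩ cut S.a S.b W) A := fun W hW =>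
      ih W (hs.sub W hW).2 (S.asm_mem_L.mp (hs.sub W hW).1).1 (Or.inr (hs.sub W hW).1)
        (hs.inv W hW)
    choose! A' hA' using h
    exact ⟨_, S.good_of_step hX hI hs A' hA'⟩

/-- one connected class, all cuts of the rest have at least `t + D` edges; from a step for every
set -/
theorem main_of [Nonempty V]
    (hstep : ∀ (X : Finset V) (O : Finset E), X.Nonempty → (X = univ ∨ X ∈ S.L) → S.Inv X O →
      ∃ C A0 P, S.StepData X O C A0 P) :
    ∃ A : Finset E, ConnOn S.a S.b A univ ∧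
    ∀ Z : Finset V, Z.Nonempty → Z ≠ univ → p.t + p.D ≤ (cut S.a S.b Z \ A).card := by
  have ho : ∀ Z, S.o ∅ Z = 0 := fun Z => by simp [o]
  have hI : S.Inv univ ∅ := by
    refine ⟨by simp, ?_, ?_, ⟨∅, by simp, by simp⟩⟩
    · intro Z _ _
      exact Or.inr (by rw [ho]; exact Nat.zero_le _)
    · intro Z _ Z' _ _ _ _ _ _ _
      rw [ho]
      omega
  obtain ⟨A, hA⟩ := S.exists_good_of hstep univ_nonempty (Or.inl rfl) hI
  refine ⟨A, hA.conn, fun Z hZ hZu => ?_⟩
  by_cases hr : S.r ∈ Z
  · have hc : Zᶜ.Nonempty := by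
      rw [nonempty_iff_ne_empty]
      intro hcon
      exact hZu (compl_eq_empty_iff Z |>.mp hcon)
    have h1 := hA.c1 Zᶜ hc (by
      rw [ssubset_univ_iff]
      intro hcon
      exact hZ.ne_empty (compl_eq_univ_iff Z |>.mp hcon)) (by simp [hr])
    rw [asm_cut_compl, union_empty] at h1
    exact h1
  · have h1 := hA.c1 Z hZ (ssubset_univ_iff.mpr hZu) hr
    rw [union_empty] at h1
    exact h1

end Setup

end Pool.Agent.Lib.MP_21a058_co.P
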