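import Pool.Agent.Lib.MP_21a058_co.P.Defs

/-!
MP_21a058_co, `f (1, l) ≤ (3/2) l + O (√l)` (proof of helper36), file (9): **sets, cuts, tight sets**.

* `cut_compl`; `connOn_sdiff` (F3); `connOn_of_mem_J`, `connOn_compl_of_mem_J` (F1);
* `laminar`: tight sets do not cross; `J_univ`, `J_empty`, `card_J`;
* `count_cut`, `count_ins`, `count_compl`: the counts of edges with a label outside a set of labels.
-/

set_option autoImplicit false

namespace Pool.Agent.Lib.MP_21a058_co.P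

open Finset

section base
variable {V E : Type*} [Fintype V] [DecidableEq V] [Fintype E] [DecidableEq E] (a b : E → V)

theorem cut_compl (X : Finset V) : cut a b Xᶜ = cut a b X := by
  ext e
  rw [mem_cut, mem_cut, mem_compl, mem_compl]
  tauto

omit [Fintype V] in
variable {a b} in
/-- `ConnOn` for sets which need not lie in `X` -/
theorem ConnOn.split {F : Finset E} {X : Finset V} (h : ConnOn a b F X) {Y : Finset V}
    (h1 : (Y ∩ X).Nonempty) (h2 : ¬ X ⊆ Y) : ∃ e ∈ F, e ∈ ins a b X ∧ e ∈ cut a b Y := by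
  obtain ⟨e, he, hi, hc⟩ := h (Y ∩ X) inter_subset_right h1 fun hh => h2 (by
    rw [← hh]; exact inter_subset_left)
  refine ⟨e, he, hi, ?_⟩
  rw [mem_ins] at hi
  rw [mem_cut, mem_inter, mem_inter] at hc
  rw [mem_cut]
  tauto

omit [Fintype V] in
variable {a b} in
/-- **F3**, general form: at most one edge inside `X` crosses `W` -/
theorem ConnOn.inter_aux {F : Finset E} {X W : Finset V} (h : ConnOn a b F X)
    (hW : ∀ e ∈ F, ∀ e' ∈ F, e ∈ ins a b X → e' ∈ ins a b X → e ∈ cut a b W → e' ∈ cut a b W →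
      e = e') : ConnOn a b F (X ∩ W) := by
  intro Y hY hne hne'
  by_contra hcon
  push Not at hcon
  have hsub : X ∩ W ⊆ X := inter_subset_left
  have key : ∀ Y' ⊆ X ∩ W, Y'.Nonempty → Y' ≠ X ∩ W →
      (∀ e ∈ F, e ∈ ins a b (X ∩ W) → e ∉ cut a b Y') →
      ∃ e ∈ F, e ∈ ins a b X ∧ e ∈ cut a b W ∧ (a e ∈ Y' ∨ b e ∈ Y') := by
    intro Y' h1 h2 h3 h4
    obtain ⟨e, he, hi, hc⟩ := h Y' (h1.trans hsub) h2 fun hh => h3
      (Subset.antisymm h1 (by rw [hh]; exact hsub))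
    refine ⟨e, he, hi, ?_, ?_⟩
    · by_contra h5
      rw [mem_cut, not_not] at h5
      rw [mem_ins] at hi
      refine h4 e he ?_ hc
      rw [mem_cut] at hc
      rw [mem_ins, mem_inter, mem_inter]
      have h6 : a e ∈ W ∨ b e ∈ W := by
        by_contra h7
        push Not at h7
        exact hc ⟨fun h8 => absurd (mem_inter.1 (h1 h8)).2 h7.1,
          fun h8 => absurd (mem_inter.1 (h1 h8)).2 h7.2⟩
      rcases h6 with h6 | h6
      · exact ⟨⟨hi.1, h6⟩, hi.2, h5.1 h6⟩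
      · exact ⟨⟨hi.1, h5.2 h6⟩, hi.2, h6⟩
    · rw [mem_cut] at hc
      tauto
  obtain ⟨e, he, hi, hc, hs⟩ := key Y hY hne hne' hcon
  obtain ⟨e', he', hi', hc', hs'⟩ := key ((X ∩ W) \ Y) sdiff_subset
    (by
      rw [sdiff_nonempty]
      exact fun hh => hne' (Subset.antisymm hY hh))
    (by
      intro hh
      obtain ⟨y, hy⟩ := hne
      have h5 := hY hy
      rw [← hh] at h5
      exact (mem_sdiff.1 h5).2 hy)
    (by
      intro e he h1 h2
      refine hcon e he h1 ?_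
      rw [mem_ins] at h1
      rw [mem_cut, mem_sdiff, mem_sdiff] at h2
      rw [mem_cut]
      tauto)
  have h5 := hW e he e' he' hi hi' hc hc'
  subst h5
  rw [mem_cut] at hc
  have g1 : ∀ v, v ∈ Y → v ∈ W := fun v hv => (mem_inter.1 (hY hv)).2
  have g2 : ∀ v, v ∈ (X ∩ W) \ Y → v ∈ W ∧ v ∉ Y := fun v hv =>
    ⟨(mem_inter.1 (mem_sdiff.1 hv).1).2, (mem_sdiff.1 hv).2⟩
  rcases hs with s1 | s1 <;> rcases hs' with s2 | s2
  · exact (g2 _ s2).2 s1
  · exact hc ⟨fun _ => (g2 _ s2).1, fun _ => g1 _ s1⟩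
  · exact hc ⟨fun _ => g1 _ s1, fun _ => (g2 _ s2).1⟩
  · exact (g2 _ s2).2 s1

theorem connOn_sdiff {F : Finset E} {X W : Finset V} (h : ConnOn a b F X) (_hW : W ⊆ X)
    (h1 : (F ∩ cut a b W).card ≤ 1) : ConnOn a b F (X \ W) := by
  have h2 : ConnOn a b F (X ∩ Wᶜ) := h.inter_aux fun e he e' he' _ _ hc hc' => by
    rw [cut_compl] at hc hc'
    exact card_le_one.1 h1 e (mem_inter.2 ⟨he, hc⟩) e' (mem_inter.2 ⟨he', hc'⟩)
  have h3 : X ∩ Wᶜ = X \ W := by
    ext v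
    rw [mem_inter, mem_compl, mem_sdiff]
  rwa [h3] at h2

end base

namespace Setup
variable {V E : Type*} [Fintype V] [DecidableEq V] [Fintype E] [DecidableEq E] {p : Pars}
  (S : Setup V E p)

theorem mem_J {X : Finset V} {l : Fin p.t} :
    l ∈ S.J X ↔ (cls S.lab l ∩ cut S.a S.b X).card ≤ 1 := by
  unfold J
  rw [mem_filter]
  exact ⟨fun h => h.2, fun h => ⟨mem_univ _, h⟩⟩

theorem J_compl (X : Finset V) : S.J Xᶜ = S.J X := by
  ext l
  rw [mem_J, mem_J, cut_compl]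

theorem connOn_of_mem_J {X : Finset V} {l : Fin p.t} (hl : l ∈ S.J X) :
    ConnOn S.a S.b (cls S.lab l) X := by
  rw [mem_J] at hl
  have h1 := (S.conn l).inter_aux (W := X) fun e he e' he' _ _ hc hc' =>
    card_le_one.1 hl e (mem_inter.2 ⟨he, hc⟩) e' (mem_inter.2 ⟨he', hc'⟩)
  rwa [univ_inter] at h1

theorem connOn_compl_of_mem_J {X : Finset V} {l : Fin p.t} (hl : l ∈ S.J X) :
    ConnOn S.a S.b (cls S.lab l) Xᶜ := by
  refine S.connOn_of_mem_J ?_
  rwa [J_compl]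

theorem laminar {Z Z' : Finset V} (h : Z ∈ S.L) (h' : Z' ∈ S.L) :
    Z ⊆ Z' ∨ Z' ⊆ Z ∨ Disjoint Z Z' := by
  by_contra hcon
  rw [not_or, not_or] at hcon
  obtain ⟨h1, h2, h3⟩ := hcon
  unfold L at h h'
  rw [mem_filter] at h h'
  obtain ⟨-, -, hr, hJ⟩ := h
  obtain ⟨-, -, hr', hJ'⟩ := h'
  have hne : (S.J Z ∩ S.J Z').Nonempty := by
    by_contra hcon
    rw [not_nonempty_iff_eq_empty] at hcon
    have h4 := card_union_add_card_inter (S.J Z) (S.J Z')
    rw [hcon, card_empty, add_zero] at h4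
    have h5 := card_le_univ (S.J Z ∪ S.J Z')
    rw [Fintype.card_fin] at h5
    have h6 := p.ht
    omega
  obtain ⟨l, hl⟩ := hne
  rw [mem_inter] at hl
  rw [not_subset] at h1 h2
  obtain ⟨x, hx, hx'⟩ := h1
  obtain ⟨y, hy', hy⟩ := h2
  rw [not_disjoint_iff] at h3
  obtain ⟨z, hz, hz'⟩ := h3
  obtain ⟨e, he, hi, hc⟩ := (S.connOn_of_mem_J hl.1).split (Y := Z')
    ⟨z, mem_inter.2 ⟨hz', hz⟩⟩ fun hh => hx' (hh hx)
  obtain ⟨e', he', hi', hc'⟩ := (S.connOn_compl_of_mem_J hl.1).split (Y := Z')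
    ⟨y, mem_inter.2 ⟨hy', mem_compl.2 hy⟩⟩ fun hh => hr' (hh (mem_compl.2 hr))
  have h5 : e = e' := card_le_one.1 (S.mem_J.1 hl.2) e (mem_inter.2 ⟨he, hc⟩) e'
    (mem_inter.2 ⟨he', hc'⟩)
  subst h5
  rw [mem_ins] at hi hi'
  exact (mem_compl.1 hi'.1) hi.1

theorem J_univ : S.J univ = univ := by
  ext l
  rw [mem_J]
  have h1 : cls S.lab l ∩ cut S.a S.b univ = ∅ := by
    ext e
    simp [mem_cut]
  rw [h1]
  simp

theorem J_empty : S.J ∅ = univ := by
  have h1 := S.J_compl univ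
  rwa [compl_univ, J_univ] at h1

/-- `t ≤ |J X| + K` for `X = univ` or tight. -/
theorem card_J {X : Finset V} (hX : X = univ ∨ X ∈ S.L) : p.t ≤ (S.J X).card + p.K := by
  rcases hX with rfl | hX
  · rw [J_univ, card_univ, Fintype.card_fin]
    exact Nat.le_add_right _ _
  · unfold L at hX
    exact (mem_filter.1 hX).2.2.2

/-- the edges of a set with label outside `R`, by labels -/
theorem card_fib (F : Finset E) (R : Finset (Fin p.t)) :
    (F.filter fun e => S.lab e ∉ R).card = ∑ l ∈ Rᶜ, (cls S.lab l ∩ F).card := by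
  rw [card_eq_sum_card_fiberwise (f := S.lab) (t := Rᶜ) fun e he => by
    simp only [coe_filter, Set.mem_ofPred_eq] at he
    exact mem_coe.2 (mem_compl.2 he.2)]
  refine sum_congr rfl fun l hl => ?_
  congr 1
  ext e
  rw [mem_filter, mem_filter, mem_inter, mem_cls]
  constructor
  · rintro ⟨⟨h3, -⟩, h4⟩
    exact ⟨h4, h3⟩
  · rintro ⟨h3, h4⟩
    exact ⟨⟨h4, by rw [h3]; exact mem_compl.1 hl⟩, h3⟩

/-- labels of a set `J` all of which meet `F` -/
theorem card_le_of_meet (F : Finset E) (R J : Finset (Fin p.t))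
    (h : ∀ l ∈ J, (cls S.lab l ∩ F).Nonempty) :
    J.card ≤ (F.filter fun e => S.lab e ∉ R).card + R.card := by
  rw [S.card_fib]
  have h1 : (J \ R).card ≤ ∑ l ∈ Rᶜ, (cls S.lab l ∩ F).card := by
    rw [card_eq_sum_ones]
    have h2 : J \ R ⊆ Rᶜ := fun l hl => mem_compl.2 (mem_sdiff.1 hl).2
    refine le_trans ?_ (sum_le_sum_of_subset h2)
    exact sum_le_sum fun l hl => card_pos.2 (h l (mem_sdiff.1 hl).1)
  have h3 : J ⊆ (J \ R) ∪ R := by
    intro l hl
    by_cases h4 : l ∈ R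
    · exact mem_union_right _ h4
    · exact mem_union_left _ (mem_sdiff.2 ⟨hl, h4⟩)
  have h4 := (card_le_card h3).trans (card_union_le _ _)
  omega

/-- All labels outside `R` cross `Z`, those outside `J Z` twice. -/
theorem count_cut (R : Finset (Fin p.t)) {Z : Finset V} (h : Z.Nonempty) (h' : Z ≠ univ) :
    2 * p.t ≤ ((cut S.a S.b Z).filter fun e => S.lab e ∉ R).card + 2 * R.card +
      (S.J Z).card := by
  rw [S.card_fib]
  have h1 : ∀ l, 2 ≤ (cls S.lab l ∩ cut S.a S.b Z).card + (if l ∈ S.J Z then 1 else 0) := by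
    intro l
    by_cases hl : l ∈ S.J Z
    · rw [if_pos hl]
      obtain ⟨e, he, -, hc⟩ := (S.conn l).split (Y := Z) (by rwa [inter_univ])
        (fun hh => h' (univ_subset_iff.1 hh))
      have h2 := card_pos.2 ⟨e, mem_inter.2 ⟨he, hc⟩⟩
      omega
    · rw [if_neg hl]
      rw [mem_J] at hl
      omega
  have h2 : ∑ l ∈ Rᶜ, 2 ≤ ∑ l ∈ Rᶜ, ((cls S.lab l ∩ cut S.a S.b Z).card
      + (if l ∈ S.J Z then 1 else 0)) := sum_le_sum fun l _ => h1 l
  rw [sum_const, smul_eq_mul, sum_add_distrib] at h2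
  have h3 : ∑ l ∈ Rᶜ, (if l ∈ S.J Z then 1 else 0) ≤ (S.J Z).card := by
    rw [← card_filter]
    exact card_le_card fun l hl => (mem_filter.1 hl).2
  have h4 := card_add_card_compl R
  rw [Fintype.card_fin] at h4
  omega

/-- Labels of `J X` outside `R` cross `Y` inside `X`. -/
theorem count_ins (R : Finset (Fin p.t)) {X Y : Finset V} (h : (Y ∩ X).Nonempty)
    (h' : ¬ X ⊆ Y) :
    (S.J X).card ≤ ((ins S.a S.b X ∩ cut S.a S.b Y).filter fun e => S.lab e ∉ R).card +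
      R.card := by
  refine S.card_le_of_meet _ R _ fun l hl => ?_
  obtain ⟨e, he, hi, hc⟩ := (S.connOn_of_mem_J hl).split h h'
  exact ⟨e, mem_inter.2 ⟨he, mem_inter.2 ⟨hi, hc⟩⟩⟩

/-- Labels of `J W` outside `R` cross `Z` outside `W`. -/
theorem count_compl (R : Finset (Fin p.t)) {W Z : Finset V} (h : ¬ Z ⊆ W) (hr : S.r ∉ Z)
    (hr' : S.r ∉ W) :
    (S.J W).card ≤ ((ins S.a S.b Wᶜ ∩ cut S.a S.b Z).filter fun e => S.lab e ∉ R).card +
      R.card := by
  rw [← J_compl]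
  refine S.count_ins R ?_ ?_
  · rw [not_subset] at h
    obtain ⟨z, hz, hz'⟩ := h
    exact ⟨z, mem_inter.2 ⟨hz, mem_compl.2 hz'⟩⟩
  · exact fun hh => hr (hh (mem_compl.2 hr'))

end Setup

end Pool.Agent.Lib.MP_21a058_co.P
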