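import Mathlib

/-!
MP_21a058_co: blocks of `k` consecutive edges in the order of a position; an order-convex set `S` meets at most
`|S| / k + 2` blocks.
-/

set_option autoImplicit false

namespace Pool.Agent.Lib.MP_21a058_co

open Finset

/-- a rank which refines `pos` -/
lemma exists_rank {E : Type*} [DecidableEq E] (F : Finset E) (pos : E → ℕ) :
    ∃ rk : E → ℕ, (∀ x ∈ F, rk x < F.card) ∧ (∀ x ∈ F, ∀ y ∈ F, rk x = rk y → x = y) ∧
      (∀ x ∈ F, ∀ y ∈ F, pos x < pos y → rk x < rk y) := by
  classical
  obtain ⟨ix, hix⟩ : ∃ ix : E → ℕ, (∀ x ∈ F, ix x < F.card) ∧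
      ∀ x ∈ F, ∀ y ∈ F, ix x = ix y → x = y := by
    refine ⟨fun e => if h : e ∈ F then (F.equivFin ⟨e, h⟩ : ℕ) else 0, fun x hx => ?_,
      fun x hx y hy h => ?_⟩
    · simp only [hx, dite_true]
      exact (F.equivFin ⟨x, hx⟩).2
    · simp only [hx, hy, dite_true] at h
      have h1 := F.equivFin.injective (Fin.ext h)
      exact congrArg Subtype.val h1
  obtain ⟨key, hkey⟩ : ∃ key : E → ℕ, key = fun e => pos e * F.card + ix e := ⟨_, rfl⟩
  have hinj : ∀ x ∈ F, ∀ y ∈ F, key x = key y → x = y := by
    intro x hx y hy h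
    rw [hkey] at h
    beta_reduce at h
    have h1 := hix.1 x hx
    have h2 := hix.1 y hy
    have h3 : pos x = pos y := by
      rcases lt_trichotomy (pos x) (pos y) with h4 | h4 | h4
      · exfalso
        have : (pos x + 1) * F.card ≤ pos y * F.card := Nat.mul_le_mul_right _ h4
        rw [Nat.add_mul, one_mul] at this
        omega
      · exact h4
      · exfalso
        have : (pos y + 1) * F.card ≤ pos x * F.card := Nat.mul_le_mul_right _ h4
        rw [Nat.add_mul, one_mul] at this
        omega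
    rw [h3] at h
    exact hix.2 x hx y hy (by omega)
  have hmon : ∀ x ∈ F, ∀ y ∈ F, pos x < pos y → key x < key y := by
    intro x hx y hy h
    rw [hkey]
    beta_reduce
    have h1 := hix.1 x hx
    have : (pos x + 1) * F.card ≤ pos y * F.card := Nat.mul_le_mul_right _ h
    rw [Nat.add_mul, one_mul] at this
    omega
  have hlt : ∀ x ∈ F, ∀ y ∈ F, key x < key y →
      (F.filter fun f => key f < key x).card < (F.filter fun f => key f < key y).card := by
    intro x hx y hy h
    refine card_lt_card ⟨fun f hf => ?_, fun hcon => ?_⟩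
    · obtain ⟨h1, h2⟩ := mem_filter.1 hf
      exact mem_filter.2 ⟨h1, h2.trans h⟩
    · have h1 := hcon (mem_filter.2 ⟨hx, h⟩)
      exact absurd (mem_filter.1 h1).2 (lt_irrefl _)
  refine ⟨fun x => (F.filter fun f => key f < key x).card, fun x hx => ?_,
    fun x hx y hy h => ?_, fun x hx y hy h => hlt x hx y hy (hmon x hx y hy h)⟩
  · refine card_lt_card ⟨filter_subset _ _, fun hcon => ?_⟩
    have h1 := hcon hx
    exact absurd (mem_filter.1 h1).2 (lt_irrefl _)
  · beta_reduce at h
    by_contra hne
    rcases lt_trichotomy (key x) (key y) with h4 | h4 | h4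
    · have := hlt x hx y hy h4
      omega
    · exact hne (hinj x hx y hy h4)
    · have := hlt y hy x hx h4
      omega

/-- **blocks of `k` consecutive edges**; an order-convex set meets at most `|S| / k + 2` blocks -/
theorem grp {E : Type*} [DecidableEq E] (F : Finset E) (pos : E → ℕ) (k : ℕ) (hk : 0 < k) :
    ∃ g : E → ℕ, (∀ i, (F.filter fun e => g e = i).card ≤ k) ∧
      (∀ S, S ⊆ F → (∀ x ∈ S, ∀ z ∈ S, ∀ y ∈ F, pos x ≤ pos y → pos y ≤ pos z → y ∈ S) →
        k * (S.image g).card ≤ S.card + 2 * k) := by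
  obtain ⟨rk, h1, h2, h3⟩ := exists_rank F pos
  have himg : F.image rk = range F.card := by
    refine eq_of_subset_of_card_le (fun m hm => ?_) ?_
    · obtain ⟨x, hx, rfl⟩ := mem_image.1 hm
      exact mem_range.2 (h1 x hx)
    · rw [card_range, card_image_of_injOn fun x hx y hy h => h2 x hx y hy h]
  refine ⟨fun e => rk e / k, fun i => ?_, fun S hS hc => ?_⟩
  · have h4 : ((F.filter fun e => rk e / k = i).image rk) ⊆ Ico (i * k) (i * k + k) := by
      intro m hm
      obtain ⟨x, hx, rfl⟩ := mem_image.1 hm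
      have h5 := (mem_filter.1 hx).2
      have h6 := Nat.div_add_mod (rk x) k
      have h7 := Nat.mod_lt (rk x) hk
      rw [h5, mul_comm] at h6
      exact mem_Ico.2 ⟨by omega, by omega⟩
    have h5 := card_le_card h4
    rw [Nat.card_Ico, card_image_of_injOn fun x hx y hy h =>
      h2 x (mem_filter.1 hx).1 y (mem_filter.1 hy).1 h] at h5
    beta_reduce
    omega
  · rcases S.eq_empty_or_nonempty with rfl | hne
    · rw [image_empty, card_empty]
      omega
    have hne' : (S.image rk).Nonempty := hne.image rk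
    obtain ⟨lo, hlo⟩ : ∃ lo, lo = (S.image rk).min' hne' := ⟨_, rfl⟩
    obtain ⟨hi, hhi⟩ : ∃ hi, hi = (S.image rk).max' hne' := ⟨_, rfl⟩
    have hlom : lo ∈ S.image rk := by rw [hlo]; exact min'_mem _ _
    have hhim : hi ∈ S.image rk := by rw [hhi]; exact max'_mem _ _
    have hle : lo ≤ hi := by rw [hhi]; exact le_max' _ _ hlom
    obtain ⟨x, hx, hxr⟩ := mem_image.1 hlom
    obtain ⟨z, hz, hzr⟩ := mem_image.1 hhim
    have hpos : ∀ p ∈ F, ∀ q ∈ F, rk p ≤ rk q → pos p ≤ pos q := by
      intro p hp q hq h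
      by_contra hcon
      push Not at hcon
      have := h3 q hq p hp hcon
      omega
    have h4 : Icc lo hi ⊆ S.image rk := by
      intro m hm
      obtain ⟨h5, h6⟩ := mem_Icc.1 hm
      have h7 : m ∈ F.image rk := by
        rw [himg, mem_range]
        have := h1 z (hS hz)
        omega
      obtain ⟨y, hy, rfl⟩ := mem_image.1 h7
      exact mem_image.2 ⟨y, hc x hx z hz y hy (hpos x (hS hx) y hy (by omega))
        (hpos y hy z (hS hz) (by omega)), rfl⟩
    have h5 := card_le_card h4
    rw [Nat.card_Icc] at h5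
    have h6 : (S.image rk).card ≤ S.card := card_image_le
    have h7 : S.image (fun e => rk e / k) ⊆ Icc (lo / k) (hi / k) := by
      intro m hm
      obtain ⟨y, hy, rfl⟩ := mem_image.1 hm
      have h8 : rk y ∈ S.image rk := mem_image_of_mem _ hy
      refine mem_Icc.2 ⟨Nat.div_le_div_right ?_, Nat.div_le_div_right ?_⟩
      · rw [hlo]
        exact min'_le _ _ h8
      · rw [hhi]
        exact le_max' _ _ h8
    have h8 := card_le_card h7
    rw [Nat.card_Icc] at h8
    have h9 : k * (S.image fun e => rk e / k).card ≤ k * (hi / k + 1 - lo / k) :=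
      Nat.mul_le_mul_left _ h8
    have a1 := Nat.div_add_mod hi k
    have a2 := Nat.div_add_mod lo k
    have a3 := Nat.mod_lt lo hk
    have a4 : lo / k ≤ hi / k := Nat.div_le_div_right hle
    have a5 : k * (hi / k + 1 - lo / k) = k * (hi / k) + k - k * (lo / k) := by
      rw [Nat.mul_sub, Nat.mul_add, mul_one]
    rw [a5] at h9
    omega

end Pool.Agent.Lib.MP_21a058_co
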