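import Mathlib

/-! A laminar family of finite sets is a family of intervals of one injective order. -/

namespace Pool.Agent.Lib.MP_21a058_co

/-- Every member of a laminar family is an interval of one injective order. -/
theorem laminar_order {V : Type*} [Fintype V] [DecidableEq V] (L : Finset (Finset V))
    (hL : ∀ a ∈ L, ∀ b ∈ L, a ⊆ b ∨ b ⊆ a ∨ Disjoint a b) :
    ∃ f : V → ℕ, Function.Injective f ∧
      ∀ Z ∈ L, ∀ x ∈ Z, ∀ y ∈ Z, ∀ w, f x < f w → f w < f y → w ∈ Z := by
  classical
  induction L using Finset.strongInduction with
  | H L ih =>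
    by_cases hne : (L.filter (fun Z => Z.Nonempty)).Nonempty
    · obtain ⟨Z0, hZ0, hmin⟩ := Finset.exists_min_image _ (fun Z => Z.card) hne
      rw [Finset.mem_filter] at hZ0
      obtain ⟨hZ0L, x0, hx0⟩ := hZ0
      obtain ⟨f, hf, hint⟩ := ih (L.erase Z0) (Finset.erase_ssubset hZ0L)
        (fun a ha b hb => hL a (Finset.mem_of_mem_erase ha) b (Finset.mem_of_mem_erase hb))
      obtain ⟨N, hN⟩ : ∃ N, ∀ v, f v < N :=
        ⟨(Finset.univ.sup f) + 1, fun v => Nat.lt_succ_of_le (Finset.le_sup (Finset.mem_univ v))⟩
      have hN0 : 0 < N := lt_of_le_of_lt (Nat.zero_le _) (hN x0)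
      let g : V → ℕ := fun v => if v ∈ Z0 then N * f x0 + f v else N * f v
      have g1 : ∀ v, v ∈ Z0 → g v = N * f x0 + f v := fun v hv => by simp only [g, if_pos hv]
      have g2 : ∀ v, v ∉ Z0 → g v = N * f v := fun v hv => by simp only [g, if_neg hv]
      have kA : ∀ a b c : ℕ, c < N → N * a < N * b + c → a ≤ b := by
        intro a b c hc h
        by_contra hab
        push Not at hab
        have : N * (b + 1) ≤ N * a := Nat.mul_le_mul_left N hab
        rw [Nat.mul_add, Nat.mul_one] at this
        omega
      have kB : ∀ a b c : ℕ, N * a + c < N * b → a < b := by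
        intro a b c h
        by_contra hab
        push Not at hab
        have : N * b ≤ N * a := Nat.mul_le_mul_left N hab
        omega
      refine ⟨g, ?_, ?_⟩
      · intro v w hvw
        by_cases hv : v ∈ Z0
        · by_cases hw : w ∈ Z0
          · rw [g1 v hv, g1 w hw] at hvw
            exact hf (Nat.add_left_cancel hvw)
          · exfalso
            rw [g1 v hv, g2 w hw] at hvw
            have h1 : f x0 < f w ∨ f x0 = f w ∨ f w < f x0 := lt_trichotomy _ _
            rcases h1 with h1 | h1 | h1
            · have : N * (f x0 + 1) ≤ N * f w := Nat.mul_le_mul_left N h1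
              rw [Nat.mul_add, Nat.mul_one] at this
              have := hN v
              omega
            · exact hw (hf h1 ▸ hx0)
            · have : N * f w ≤ N * f x0 := Nat.mul_le_mul_left N h1.le
              have h2 : N * f w + N ≤ N * f x0 := by
                have : N * (f w + 1) ≤ N * f x0 := Nat.mul_le_mul_left N h1
                rw [Nat.mul_add, Nat.mul_one] at this
                exact this
              omega
        · by_cases hw : w ∈ Z0
          · exfalso
            rw [g2 v hv, g1 w hw] at hvw
            have h1 : f x0 < f v ∨ f x0 = f v ∨ f v < f x0 := lt_trichotomy _ _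
            rcases h1 with h1 | h1 | h1
            · have : N * (f x0 + 1) ≤ N * f v := Nat.mul_le_mul_left N h1
              rw [Nat.mul_add, Nat.mul_one] at this
              have := hN w
              omega
            · exact hv (hf h1 ▸ hx0)
            · have h2 : N * f v + N ≤ N * f x0 := by
                have : N * (f v + 1) ≤ N * f x0 := Nat.mul_le_mul_left N h1
                rw [Nat.mul_add, Nat.mul_one] at this
                exact this
              omega
          · rw [g2 v hv, g2 w hw] at hvw
            exact hf (Nat.eq_of_mul_eq_mul_left hN0 hvw)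
      · intro W hW x hx y hy w hxw hwy
        have hx0ne : ∀ v, v ∉ Z0 → f v ≠ f x0 := fun v hv h => hv (hf h ▸ hx0)
        by_cases hWZ : W = Z0
        · subst hWZ
          by_contra hw
          rw [g1 x hx, g2 w hw] at hxw
          rw [g2 w hw, g1 y hy] at hwy
          have h1 := kB _ _ _ hxw
          have h2 := kA _ _ _ (hN y) hwy
          omega
        · have hWe : W ∈ L.erase Z0 := Finset.mem_erase.mpr ⟨hWZ, hW⟩
          have hcase : Z0 ⊆ W ∨ Disjoint W Z0 := by
            rcases hL W hW Z0 hZ0L with h | h | h
            · by_cases hWn : W.Nonempty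
              · exact absurd (Finset.eq_of_subset_of_card_le h
                  (hmin W (Finset.mem_filter.mpr ⟨hW, hWn⟩))) hWZ
              · rw [Finset.not_nonempty_iff_eq_empty] at hWn
                subst hWn
                exact Or.inr (Finset.disjoint_empty_left _)
            · exact Or.inl h
            · exact Or.inr h
          rcases hcase with hsub | hdis
          · by_cases hw : w ∈ Z0
            · exact hsub hw
            · have hx' : ∃ x' ∈ W, f x' < f w := by
                by_cases hxZ : x ∈ Z0
                · rw [g1 x hxZ, g2 w hw] at hxw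
                  exact ⟨x0, hsub hx0, kB _ _ _ hxw⟩
                · rw [g2 x hxZ, g2 w hw] at hxw
                  exact ⟨x, hx, Nat.lt_of_mul_lt_mul_left hxw⟩
              have hy' : ∃ y' ∈ W, f w < f y' := by
                by_cases hyZ : y ∈ Z0
                · rw [g2 w hw, g1 y hyZ] at hwy
                  exact ⟨x0, hsub hx0, lt_of_le_of_ne (kA _ _ _ (hN y) hwy) (hx0ne w hw)⟩
                · rw [g2 w hw, g2 y hyZ] at hwy
                  exact ⟨y, hy, Nat.lt_of_mul_lt_mul_left hwy⟩
              obtain ⟨x', hx'W, hx'w⟩ := hx'
              obtain ⟨y', hy'W, hy'w⟩ := hy'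
              exact hint W hWe x' hx'W y' hy'W w hx'w hy'w
          · have hxZ : x ∉ Z0 := Finset.disjoint_left.mp hdis hx
            have hyZ : y ∉ Z0 := Finset.disjoint_left.mp hdis hy
            by_cases hw : w ∈ Z0
            · exfalso
              rw [g2 x hxZ, g1 w hw] at hxw
              rw [g1 w hw, g2 y hyZ] at hwy
              have h1 := lt_of_le_of_ne (kA _ _ _ (hN w) hxw) (hx0ne x hxZ)
              have h2 := kB _ _ _ hwy
              exact Finset.disjoint_left.mp hdis (hint W hWe x hx y hy x0 h1 h2) hx0
            · rw [g2 x hxZ, g2 w hw] at hxw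
              rw [g2 w hw, g2 y hyZ] at hwy
              exact hint W hWe x hx y hy w (Nat.lt_of_mul_lt_mul_left hxw)
                (Nat.lt_of_mul_lt_mul_left hwy)
    · refine ⟨fun v => (Fintype.equivFin V v : ℕ), ?_, ?_⟩
      · intro v w h
        exact (Fintype.equivFin V).injective (Fin.ext h)
      · intro Z hZ x hx
        exact absurd ⟨Z, Finset.mem_filter.mpr ⟨hZ, x, hx⟩⟩ hne

end Pool.Agent.Lib.MP_21a058_co
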