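import Pool.Agent.Lib.MP_21a058_co.P.Defs

/-!
MP_21a058_co, one tree, file (3): **a connected set with at most one edge of every group** (`rainbow`).

Self-contained: Rado's theorem with deficiency for disjoint groups and an integer valued monotone submodular function
(`rnRado`), and the rank of an edge set through the functions constant along its edges (`rnKer`, `rnRk`).
-/

set_option autoImplicit false

namespace Pool.Agent.Lib.MP_21a058_co.P

open Finset Module

/-! ### Rado's theorem -/

/-- one of two elements of one group may be deleted -/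
theorem rnRado_step {E Γ : Type*} [DecidableEq E] [DecidableEq Γ] (r : Finset E → ℤ)
    (mono : ∀ S T : Finset E, S ⊆ T → r S ≤ r T)
    (sub : ∀ S T : Finset E, r (S ∪ T) + r (S ∩ T) ≤ r S + r T)
    (γ : E → Γ) (S : Finset E) (R : ℤ)
    (h : ∀ C : Finset Γ, R ≤ r (S.filter fun e => γ e ∉ C) + C.card)
    {x y : E} (hxy : x ≠ y) (hg : γ x = γ y) :
    (∀ C : Finset Γ, R ≤ r ((S.erase x).filter fun e => γ e ∉ C) + C.card) ∨
      ∀ C : Finset Γ, R ≤ r ((S.erase y).filter fun e => γ e ∉ C) + C.card := by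
  by_contra hcon
  push Not at hcon
  obtain ⟨⟨C1, h1⟩, ⟨C2, h2⟩⟩ := hcon
  have key : ∀ (z : E) (C : Finset Γ), γ z ∈ C →
      (S.erase z).filter (fun e => γ e ∉ C) = S.filter fun e => γ e ∉ C := by
    intro z C hz
    ext e
    simp only [mem_filter, mem_erase]
    constructor
    · rintro ⟨⟨-, h3⟩, h4⟩
      exact ⟨h3, h4⟩
    · rintro ⟨h3, h4⟩
      exact ⟨⟨fun h5 => h4 (h5 ▸ hz), h3⟩, h4⟩
  have n1 : γ x ∉ C1 := fun h3 => by
    rw [key x C1 h3] at h1
    exact absurd (h C1) (not_le.2 h1)
  have n2 : γ y ∉ C2 := fun h3 => by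
    rw [key y C2 h3] at h2
    exact absurd (h C2) (not_le.2 h2)
  have hU : S.filter (fun e => γ e ∉ C1 ∩ C2)
      ⊆ (S.erase x).filter (fun e => γ e ∉ C1) ∪ (S.erase y).filter fun e => γ e ∉ C2 := by
    intro e he
    obtain ⟨h3, h4⟩ := mem_filter.1 he
    rw [mem_union, mem_filter, mem_filter, mem_erase, mem_erase]
    by_cases hex : e = x
    · right
      refine ⟨⟨fun h5 => hxy (hex.symm.trans h5), h3⟩, ?_⟩
      rw [hex, hg]
      exact n2
    · by_cases hey : e = y
      · left
        refine ⟨⟨hex, h3⟩, ?_⟩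
        rw [hey, ← hg]
        exact n1
      · by_cases h5 : γ e ∈ C1
        · right
          refine ⟨⟨hey, h3⟩, fun h6 => h4 (mem_inter.2 ⟨h5, h6⟩)⟩
        · left
          exact ⟨⟨hex, h3⟩, h5⟩
  have hI : S.filter (fun e => γ e ∉ insert (γ x) (C1 ∪ C2))
      ⊆ (S.erase x).filter (fun e => γ e ∉ C1) ∩ (S.erase y).filter fun e => γ e ∉ C2 := by
    intro e he
    obtain ⟨h3, h4⟩ := mem_filter.1 he
    rw [mem_insert, mem_union] at h4
    push Not at h4
    obtain ⟨h4, h5, h6⟩ := h4
    rw [mem_inter, mem_filter, mem_filter, mem_erase, mem_erase]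
    refine ⟨⟨⟨fun h7 => h4 (by rw [h7]), h3⟩, h5⟩, ⟨fun h7 => h4 (by rw [h7, hg]), h3⟩, h6⟩
  have e1 := mono _ _ hU
  have e2 := mono _ _ hI
  have e3 := sub ((S.erase x).filter fun e => γ e ∉ C1) ((S.erase y).filter fun e => γ e ∉ C2)
  have e4 := h (C1 ∩ C2)
  have e5 := h (insert (γ x) (C1 ∪ C2))
  have e6 : ((insert (γ x) (C1 ∪ C2)).card : ℤ) ≤ (C1 ∪ C2).card + 1 := by
    exact_mod_cast card_insert_le _ _
  have e7 : ((C1 ∪ C2).card : ℤ) + (C1 ∩ C2).card = C1.card + C2.card := by
    exact_mod_cast card_union_add_card_inter C1 C2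
  linarith

/-- **Rado's theorem with deficiency**, disjoint groups -/
theorem rnRado {E Γ : Type*} [DecidableEq E] [DecidableEq Γ] (r : Finset E → ℤ)
    (mono : ∀ S T : Finset E, S ⊆ T → r S ≤ r T)
    (sub : ∀ S T : Finset E, r (S ∪ T) + r (S ∩ T) ≤ r S + r T)
    (γ : E → Γ) (S : Finset E) (R : ℤ)
    (h : ∀ C : Finset Γ, R ≤ r (S.filter fun e => γ e ∉ C) + C.card) :
    ∃ A ⊆ S, (∀ x ∈ A, ∀ y ∈ A, γ x = γ y → x = y) ∧ R ≤ r A := by
  induction hn : S.card using Nat.strong_induction_on generalizing S with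
  | _ n ih =>
    by_cases hinj : ∀ x ∈ S, ∀ y ∈ S, γ x = γ y → x = y
    · refine ⟨S, Subset.refl _, hinj, ?_⟩
      have h1 := h ∅
      rw [filter_true_of_mem (fun e _ => notMem_empty _), card_empty] at h1
      simpa using h1
    · push Not at hinj
      obtain ⟨x, hx, y, hy, hg, hxy⟩ := hinj
      rcases rnRado_step r mono sub γ S R h hxy hg with h1 | h1
      · obtain ⟨A, hA, h2, h3⟩ := ih (S.erase x).card
          (by rw [← hn]; exact card_erase_lt_of_mem hx) (S.erase x) h1 rfl
        exact ⟨A, hA.trans (erase_subset _ _), h2, h3⟩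
      · obtain ⟨A, hA, h2, h3⟩ := ih (S.erase y).card
          (by rw [← hn]; exact card_erase_lt_of_mem hy) (S.erase y) h1 rfl
        exact ⟨A, hA.trans (erase_subset _ _), h2, h3⟩

/-! ### The rank -/

section Rank

variable {N E : Type*} (p q : E → N)

/-- the functions with equal values at the two ends of every edge of `F` -/
def rnKer (F : Finset E) : Submodule ℚ (N → ℚ) where
  carrier := {f | ∀ e ∈ F, f (p e) = f (q e)}
  add_mem' := by
    intro f g hf hg e he
    show f (p e) + g (p e) = f (q e) + g (q e)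
    rw [hf e he, hg e he]
  zero_mem' := by
    intro e _
    rfl
  smul_mem' := by
    intro c f hf e he
    show c • f (p e) = c • f (q e)
    rw [hf e he]

/-- the functions constant on `S` -/
def rnConst (S : Set N) : Submodule ℚ (N → ℚ) where
  carrier := {f | ∀ u ∈ S, ∀ v ∈ S, f u = f v}
  add_mem' := by
    intro f g hf hg u hu v hv
    show f u + g u = f v + g v
    rw [hf u hu v hv, hg u hu v hv]
  zero_mem' := by
    intro u _ v _
    rfl
  smul_mem' := by
    intro c f hf u hu v hv
    show c • f u = c • f v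
    rw [hf u hu v hv]

variable {p q}

lemma rnKer_anti {F F' : Finset E} (h : F ⊆ F') : rnKer p q F' ≤ rnKer p q F :=
  fun _ hf e he => hf e (h he)

lemma rnKer_union [DecidableEq E] (F F' : Finset E) :
    rnKer p q (F ∪ F') = rnKer p q F ⊓ rnKer p q F' := by
  ext f
  rw [Submodule.mem_inf]
  constructor
  · intro h
    exact ⟨fun e he => h e (mem_union_left _ he), fun e he => h e (mem_union_right _ he)⟩
  · rintro ⟨h1, h2⟩ e he
    rcases mem_union.1 he with h3 | h3
    · exact h1 e h3
    · exact h2 e h3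

variable (p q) in
/-- the rank minus the number of nodes -/
noncomputable def rnRk (F : Finset E) : ℤ := -(finrank ℚ (rnKer p q F) : ℤ)

variable [Finite N]

lemma rnRk_mono {F F' : Finset E} (h : F ⊆ F') : rnRk p q F ≤ rnRk p q F' := by
  unfold rnRk
  have h1 : finrank ℚ (rnKer p q F') ≤ finrank ℚ (rnKer p q F) :=
    Submodule.finrank_mono (rnKer_anti h)
  have h2 : (finrank ℚ (rnKer p q F') : ℤ) ≤ finrank ℚ (rnKer p q F) := by exact_mod_cast h1
  linarith

lemma rnRk_sub [DecidableEq E] (F F' : Finset E) :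
    rnRk p q (F ∪ F') + rnRk p q (F ∩ F') ≤ rnRk p q F + rnRk p q F' := by
  unfold rnRk
  rw [rnKer_union]
  have h1 := Submodule.finrank_sup_add_finrank_inf_eq (rnKer p q F) (rnKer p q F')
  have h2 : rnKer p q F ⊔ rnKer p q F' ≤ rnKer p q (F ∩ F') :=
    sup_le (rnKer_anti inter_subset_left) (rnKer_anti inter_subset_right)
  have h3 := Submodule.finrank_mono h2
  have h4 : (finrank ℚ ↥(rnKer p q F ⊔ rnKer p q F') : ℤ) ≤ finrank ℚ (rnKer p q (F ∩ F')) := by
    exact_mod_cast h3
  have h5 : (finrank ℚ ↥(rnKer p q F ⊔ rnKer p q F') : ℤ) + finrank ℚ ↥(rnKer p q F ⊓ rnKer p q F')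
      = finrank ℚ (rnKer p q F) + finrank ℚ (rnKer p q F') := by exact_mod_cast h1
  linarith

/-- one more equation lowers the dimension by at most one -/
lemma rn_finrank_insert [DecidableEq E] (F : Finset E) (e : E) :
    finrank ℚ (rnKer p q F) ≤ finrank ℚ (rnKer p q (insert e F)) + 1 := by
  let φ : (N → ℚ) →ₗ[ℚ] ℚ :=
    (LinearMap.proj (R := ℚ) (φ := fun _ : N => ℚ) (p e))
      - (LinearMap.proj (R := ℚ) (φ := fun _ : N => ℚ) (q e))
  have h1 : rnKer p q F ⊓ LinearMap.ker φ ≤ rnKer p q (insert e F) := by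
    rintro f ⟨hf, hf2⟩ e' he'
    rcases mem_insert.1 he' with h2 | h2
    · rw [h2]
      have h3 : φ f = 0 := hf2
      have h4 : f (p e) - f (q e) = 0 := h3
      linarith
    · exact hf e' h2
  have h2 := Submodule.finrank_mono h1
  have h3 := Submodule.finrank_sup_add_finrank_inf_eq (rnKer p q F) (LinearMap.ker φ)
  have h4 : finrank ℚ ↥(rnKer p q F ⊔ LinearMap.ker φ) ≤ finrank ℚ (N → ℚ) :=
    Submodule.finrank_le _
  have h5 := LinearMap.finrank_range_add_finrank_ker φ
  have h6 : finrank ℚ (LinearMap.range φ) ≤ finrank ℚ ℚ := Submodule.finrank_le _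
  rw [finrank_self] at h6
  omega

/-- removing `D` lowers the rank by at most `|D|` -/
lemma rnRk_sdiff [DecidableEq E] (F D : Finset E) :
    rnRk p q F ≤ rnRk p q (F \ D) + D.card := by
  have key : ∀ D : Finset E, ∀ F : Finset E,
      finrank ℚ (rnKer p q F) ≤ finrank ℚ (rnKer p q (F ∪ D)) + D.card := by
    intro D
    induction D using Finset.induction_on with
    | empty =>
      intro F
      rw [union_empty, card_empty, add_zero]
    | insert a D ha ih =>
      intro F
      rw [card_insert_of_notMem ha]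
      have h1 := rn_finrank_insert (p := p) (q := q) F a
      have h2 := ih (insert a F)
      have h3 : insert a F ∪ D = F ∪ insert a D := by
        rw [insert_union, union_insert]
      rw [h3] at h2
      omega
  have h1 := key D (F \ D)
  have h2 : finrank ℚ (rnKer p q (F \ D ∪ D)) ≤ finrank ℚ (rnKer p q F) := by
    apply Submodule.finrank_mono
    apply rnKer_anti
    rw [sdiff_union_self_eq_union]
    exact subset_union_left
  have h3 : (finrank ℚ (rnKer p q (F \ D)) : ℤ) ≤ finrank ℚ (rnKer p q F) + D.card := by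
    exact_mod_cast h1.trans (Nat.add_le_add_right h2 _)
  unfold rnRk
  linarith

end Rank

/-! ### Connected sets -/

section Conn

variable {N E : Type*} [Fintype N] [DecidableEq N] [Fintype E] [DecidableEq E] (a b : E → N)

/-- connected on `X`: the functions constant along the edges are constant on `X` -/
lemma rn_conn_le {F : Finset E} {X : Finset N} (h : ConnOn a b F X) :
    rnKer a b F ≤ rnConst (X : Set N) := by
  intro f hf u hu v hv
  by_contra hne
  have hu' : u ∈ X := hu
  have hv' : v ∈ X := hv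
  obtain ⟨e, he, h1, h2⟩ := h (X.filter fun x => f x = f u) (filter_subset _ _)
    ⟨u, mem_filter.2 ⟨hu', rfl⟩⟩ (fun h3 => by
      have h4 : v ∈ X.filter fun x => f x = f u := by rw [h3]; exact hv'
      exact hne (mem_filter.1 h4).2.symm)
  rw [mem_ins] at h1
  rw [mem_cut] at h2
  apply h2
  rw [mem_filter, mem_filter, hf e he]
  constructor
  · rintro ⟨-, h3⟩
    exact ⟨h1.2, h3⟩
  · rintro ⟨-, h3⟩
    exact ⟨h1.1, h3⟩

lemma rn_const_le {F : Finset E} {X : Finset N} (h : F ⊆ ins a b X) :
    rnConst (X : Set N) ≤ rnKer a b F := by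
  intro f hf e he
  have h1 := (mem_ins a b).1 (h he)
  exact hf _ h1.1 _ h1.2

/-- conversely -/
lemma rn_conn {F : Finset E} {X : Finset N} (hF : F ⊆ ins a b X)
    (h : rnKer a b F ≤ rnConst (X : Set N)) : ConnOn a b F X := by
  intro Y hY hne hYX
  by_contra hcon
  push Not at hcon
  obtain ⟨u, hu⟩ := hne
  obtain ⟨v, hv, hvY⟩ : ∃ v ∈ X, v ∉ Y := by
    by_contra h1
    push Not at h1
    exact hYX (Subset.antisymm hY h1)
  have h1 : (fun x => if x ∈ Y then (1 : ℚ) else 0) ∈ rnKer a b F := by
    intro e he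
    show (if a e ∈ Y then (1 : ℚ) else 0) = if b e ∈ Y then (1 : ℚ) else 0
    have h2 := hcon e he (hF he)
    rw [mem_cut, not_not] at h2
    by_cases h3 : a e ∈ Y
    · rw [if_pos h3, if_pos (h2.1 h3)]
    · rw [if_neg h3, if_neg (fun h4 => h3 (h2.2 h4))]
  have h2 : (if u ∈ Y then (1 : ℚ) else 0) = if v ∈ Y then (1 : ℚ) else 0 :=
    h h1 u (hY hu) v hv
  rw [if_pos hu, if_neg hvY] at h2
  exact one_ne_zero h2

/-- **a connected set with at most one edge of every group**: `k` disjoint connected sets, groups of at most `k` edges -/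
theorem rainbow {ι γ : Type*} [DecidableEq ι] [DecidableEq γ] (X : Finset N) (P : Finset ι)
    (hP : 0 < P.card) (T : ι → Finset E) (hT : ∀ i ∈ P, T i ⊆ ins a b X)
    (hc : ∀ i ∈ P, ConnOn a b (T i) X)
    (hd : ∀ i ∈ P, ∀ j ∈ P, i ≠ j → Disjoint (T i) (T j)) (grp : E → γ)
    (hg : ∀ j, ((P.biUnion T).filter fun e => grp e = j).card ≤ P.card) :
    ∃ B ⊆ P.biUnion T, (∀ e ∈ B, ∀ e' ∈ B, grp e = grp e' → e = e') ∧ ConnOn a b B X := by
  obtain ⟨B, hB, h1, h2⟩ := rnRado (rnRk a b) (fun S T h => rnRk_mono h)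
    (fun S T => rnRk_sub S T) grp (P.biUnion T) (-(finrank ℚ (rnConst (X : Set N)) : ℤ)) (by
      intro C
      -- the removed edges
      have h1 : ((P.biUnion T).filter fun e => grp e ∈ C).card ≤ C.card * P.card := by
        have h2 : (P.biUnion T).filter (fun e => grp e ∈ C)
            = C.biUnion fun j => (P.biUnion T).filter fun e => grp e = j := by
          ext e
          simp only [mem_filter, mem_biUnion]
          constructor
          · rintro ⟨h3, h4⟩
            exact ⟨grp e, h4, h3, rfl⟩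
          · rintro ⟨j, h3, h4, h5⟩
            exact ⟨h4, h5 ▸ h3⟩
        rw [h2]
        exact card_biUnion_le_card_mul _ _ _ fun j _ => hg j
      -- some class loses few of them
      have h2 : ∑ i ∈ P, ((T i).filter fun e => grp e ∈ C).card
          = ((P.biUnion T).filter fun e => grp e ∈ C).card := by
        rw [filter_biUnion, card_biUnion]
        intro i hi j hj hij
        exact (hd i hi j hj hij).mono (filter_subset _ _) (filter_subset _ _)
      obtain ⟨i, hi, h3⟩ : ∃ i ∈ P, ((T i).filter fun e => grp e ∈ C).card ≤ C.card := by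
        by_contra hcon
        push Not at hcon
        have h4 : ∑ i ∈ P, (C.card + 1) ≤ ∑ i ∈ P, ((T i).filter fun e => grp e ∈ C).card :=
          sum_le_sum fun i hi => hcon i hi
        rw [sum_const, smul_eq_mul, h2] at h4
        nlinarith
      have h4 := rnRk_sdiff (p := a) (q := b) (T i) ((T i).filter fun e => grp e ∈ C)
      have h5 : rnRk a b (T i \ (T i).filter fun e => grp e ∈ C)
          ≤ rnRk a b ((P.biUnion T).filter fun e => grp e ∉ C) := by
        apply rnRk_mono
        intro e he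
        rw [mem_sdiff, mem_filter] at he
        rw [mem_filter, mem_biUnion]
        exact ⟨⟨i, hi, he.1⟩, fun h6 => he.2 ⟨he.1, h6⟩⟩
      have h6 : -(finrank ℚ (rnConst (X : Set N)) : ℤ) ≤ rnRk a b (T i) := by
        unfold rnRk
        have h7 : finrank ℚ (rnKer a b (T i)) ≤ finrank ℚ (rnConst (X : Set N)) :=
          Submodule.finrank_mono (rn_conn_le a b (hc i hi))
        have h8 : (finrank ℚ (rnKer a b (T i)) : ℤ) ≤ finrank ℚ (rnConst (X : Set N)) := by
          exact_mod_cast h7
        linarith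
      have h7 : (((T i).filter fun e => grp e ∈ C).card : ℤ) ≤ C.card := by exact_mod_cast h3
      linarith)
  have hBX : B ⊆ ins a b X := by
    intro e he
    obtain ⟨i, hi, h3⟩ := mem_biUnion.1 (hB he)
    exact hT i hi h3
  refine ⟨B, hB, h1, rn_conn a b hBX ?_⟩
  have h3 := rn_const_le a b hBX
  unfold rnRk at h2
  have h4 : finrank ℚ (rnKer a b B) ≤ finrank ℚ (rnConst (X : Set N)) := by
    have h5 : (finrank ℚ (rnKer a b B) : ℤ) ≤ finrank ℚ (rnConst (X : Set N)) := by linarith
    exact_mod_cast h5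
  exact (Submodule.eq_of_le_of_finrank_le h3 h4).symm.le

end Conn

end Pool.Agent.Lib.MP_21a058_co.P
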