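import Pool.Agent.Lib.MP_21a058_co.P.Par
import Pool.Agent.Lib.MP_21a058_co.P.Grp
import Pool.Agent.Lib.MP_21a058_co.P.Ord
import Pool.Agent.Lib.MP_21a058_co.P.Rain
import Pool.Agent.Lib.MP_21a058_co.P.Glue

/-!
MP_21a058_co: the region lemma.  `k` disjoint edge sets connect `U`; `B`: disjoint subsets of `U`; then some edge set
`A` connects `U` modulo the sets of `B`, has no edge inside a set of `B`, and for every interval `Z` of the order inside
a set `W` of `B` it has at most a fraction `1 / k` (plus `k + 2`) of the edges from `Z` to the outside of `W`.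
-/

set_option autoImplicit false

namespace Pool.Agent.Lib.MP_21a058_co

open Finset

/-- connection is symmetric -/
lemma PJoin.rsymm {N E : Type*} {a b : E → N} {F : Finset E} {x y : N}
    (h : Relation.ReflTransGen (PJoin a b F) x y) : Relation.ReflTransGen (PJoin a b F) y x := by
  induction h with
  | refl => exact Relation.ReflTransGen.refl
  | tail _ h1 ih => exact (Relation.ReflTransGen.single h1.symm).trans ih

/-- images of connected nodes are connected -/
lemma PJoin.rmap {N M E : Type*} {a b : E → N} {F : Finset E} (nd : N → M) {x y : N}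
    (h : Relation.ReflTransGen (PJoin a b F) x y) :
    Relation.ReflTransGen (PJoin (fun e => nd (a e)) (fun e => nd (b e)) F) (nd x) (nd y) := by
  induction h with
  | refl => exact Relation.ReflTransGen.refl
  | tail _ h1 ih =>
    refine ih.tail ?_
    obtain ⟨e, he, h2⟩ := h1
    refine ⟨e, he, ?_⟩
    rcases h2 with ⟨h2, h3⟩ | ⟨h2, h3⟩
    · exact Or.inl ⟨congrArg nd h2, congrArg nd h3⟩
    · exact Or.inr ⟨congrArg nd h2, congrArg nd h3⟩

/-- `rainbow` in the form with walks -/
theorem rain {M E I : Type*} [Fintype M] [DecidableEq M] [Fintype E] [DecidableEq E]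
    [DecidableEq I] (a b : E → M) (U : Finset M) {k : ℕ} (hk : 0 < k) (T : Fin k → Finset E)
    (hd : ∀ i j, i ≠ j → Disjoint (T i) (T j)) (hin : ∀ i, ∀ e ∈ T i, a e ∈ U ∧ b e ∈ U)
    (hc : ∀ i, ∀ x ∈ U, ∀ y ∈ U, Relation.ReflTransGen (PJoin a b (T i)) x y) (gid : E → I)
    (hg : ∀ i : I, ((univ.biUnion T).filter (fun e => gid e = i)).card ≤ k) :
    ∃ A ⊆ univ.biUnion T, (∀ x ∈ U, ∀ y ∈ U, Relation.ReflTransGen (PJoin a b A) x y) ∧
      ∀ e ∈ A, ∀ f ∈ A, gid e = gid f → e = f := by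
  have hins : ∀ i, T i ∩ P.ins a b U = T i := fun i =>
    inter_eq_left.2 fun e he => (P.mem_ins a b).2 (hin i e he)
  obtain ⟨A, h1, h2, h3⟩ := P.rainbow a b U (univ : Finset (Fin k))
    (by rw [card_univ, Fintype.card_fin]; exact hk) T
    (fun i _ => fun e he => (P.mem_ins a b).2 (hin i e he))
    (fun i _ => P.connOn_of_walk fun x hx y hy => by rw [hins i]; exact hc i x hx y hy)
    (fun i _ j _ hij => hd i j hij) gid
    (fun i => by rw [card_univ, Fintype.card_fin]; exact hg i)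
  refine ⟨A, h1, fun x hx y hy => ?_, h2⟩
  have h4 := h3.walk hx hy
  have h5 : A ∩ P.ins a b U = A := inter_eq_left.2 fun e he => by
    obtain ⟨i, -, hi⟩ := mem_biUnion.1 (h1 he)
    exact (P.mem_ins a b).2 (hin i e hi)
  rwa [h5] at h4

/-- the edges of `A` from `Z` to the outside of `W` -/
def outE {V E : Type*} [DecidableEq V] (s t : E → V) (A : Finset E) (Z W : Finset V) :
    Finset E :=
  A.filter fun e => (s e ∈ Z ∧ t e ∉ W) ∨ (t e ∈ Z ∧ s e ∉ W)

/-- **the region lemma**, with an order `pos` in which the sets of `L` are intervals -/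
theorem region_pos {V E : Type*} [Fintype V] [DecidableEq V] [Fintype E] [DecidableEq E]
    (s t : E → V) (U : Finset V)
    (hU : U.Nonempty) {k : ℕ} (hk : 0 < k) (F : Fin k → Finset E)
    (hd : ∀ i j, i ≠ j → Disjoint (F i) (F j)) (hin : ∀ i, ∀ e ∈ F i, s e ∈ U ∧ t e ∈ U)
    (hc : ∀ i, ∀ x ∈ U, ∀ y ∈ U, Relation.ReflTransGen (PJoin s t (F i)) x y)
    (B : Finset (Finset V))
    (hBd : ∀ W ∈ B, ∀ W' ∈ B, W ≠ W' → Disjoint W W') (pos : V → ℕ) (L : Set (Finset V))
    (hpos : ∀ Z ∈ L, ∀ x ∈ Z, ∀ y ∈ Z, ∀ w, pos x ≤ pos w → pos w ≤ pos y → w ∈ Z) :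
    ∃ A ⊆ univ.biUnion F, (∀ e ∈ A, ∀ W ∈ B, ¬ (s e ∈ W ∧ t e ∈ W)) ∧
      (∀ x ∈ U, ∀ y ∈ U, Relation.ReflTransGen
        (fun x y => PJoin s t A x y ∨ ∃ W ∈ B, x ∈ W ∧ y ∈ W) x y) ∧
      (∀ W ∈ B, ∀ Z ∈ L, Z ⊆ W →
        k * (outE s t A Z W).card ≤ (outE s t (univ.biUnion F) Z W).card + k ^ 2 + 2 * k) := by
  classical
  -- the contraction
  obtain ⟨nd, n1, n2, n3⟩ : ∃ nd : V → Finset V, (∀ v, v ∈ nd v) ∧
      (∀ v, ∀ W ∈ B, v ∈ W → nd v = W) ∧
      (∀ v w, nd v = nd w → v = w ∨ ∃ W ∈ B, v ∈ W ∧ w ∈ W) := by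
    refine ⟨fun v => if h : ∃ W ∈ B, v ∈ W then h.choose else {v}, fun v => ?_,
      fun v W hW hv => ?_, fun v w h => ?_⟩
    · beta_reduce
      split_ifs with h
      · exact h.choose_spec.2
      · exact mem_singleton_self _
    · beta_reduce
      have h : ∃ W ∈ B, v ∈ W := ⟨W, hW, hv⟩
      rw [dif_pos h]
      by_contra hne
      exact (disjoint_left.1 (hBd _ h.choose_spec.1 W hW hne) h.choose_spec.2) hv
    · beta_reduce at h
      by_cases h1 : ∃ W ∈ B, v ∈ W
      · rw [dif_pos h1] at h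
        by_cases h2 : ∃ W ∈ B, w ∈ W
        · rw [dif_pos h2] at h
          refine Or.inr ⟨_, h1.choose_spec.1, h1.choose_spec.2, ?_⟩
          rw [h]
          exact h2.choose_spec.2
        · rw [dif_neg h2] at h
          left
          have h3 := h1.choose_spec.2
          rw [h] at h3
          exact mem_singleton.1 h3
      · rw [dif_neg h1] at h
        by_cases h2 : ∃ W ∈ B, w ∈ W
        · rw [dif_pos h2] at h
          left
          have h3 := h2.choose_spec.2
          rw [← h] at h3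
          exact (mem_singleton.1 h3).symm
        · rw [dif_neg h2] at h
          left
          exact singleton_injective h
  obtain ⟨u0, hu0⟩ := hU
  have hlift : ∀ i, ∀ x ∈ U, ∀ y ∈ U,
      Relation.ReflTransGen (PJoin (fun e => nd (s e)) (fun e => nd (t e)) (F i)) (nd x) (nd y) := by
    intro i x hx y hy
    exact PJoin.rmap nd (hc i x hx y hy)
  -- the trees
  have htree : ∀ i, ∃ (T : Finset E) (own : E → Finset V), T ⊆ F i ∧
      (∀ e ∈ T, nd (s e) ≠ nd (t e)) ∧ (∀ e ∈ T, own e = nd (s e) ∨ own e = nd (t e)) ∧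
      (∀ v ∈ U.image nd, Relation.ReflTransGen
        (PJoin (fun e => nd (s e)) (fun e => nd (t e)) T) (nd u0) v) ∧
      (∀ v, (T.filter fun e => (nd (s e) = v ∨ nd (t e) = v) ∧ own e ≠ v).card ≤ 1) ∧
      T.card + 1 = (U.image nd).card := by
    intro i
    refine par_on (fun e => nd (s e)) (fun e => nd (t e)) (U.image nd) (F i) (fun e he => ?_)
      (nd u0) (mem_image_of_mem _ hu0) fun v hv => ?_
    · exact ⟨mem_image_of_mem _ (hin i e he).1, mem_image_of_mem _ (hin i e he).2⟩
    · obtain ⟨x, hx, rfl⟩ := mem_image.1 hv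
      exact hlift i u0 hu0 x hx
  choose T ow t1 t2 t3 t4 t5 t6 using htree
  obtain ⟨TT, hTT⟩ : ∃ TT, TT = univ.biUnion T := ⟨_, rfl⟩
  have hTd : ∀ i j, i ≠ j → Disjoint (T i) (T j) := fun i j hij =>
    disjoint_of_subset_left (t1 i) (disjoint_of_subset_right (t1 j) (hd i j hij))
  -- the owner
  obtain ⟨own, hown⟩ : ∃ own : E → Finset V, ∀ i, ∀ e ∈ T i, own e = ow i e := by
    refine ⟨fun e => if h : ∃ i, e ∈ T i then ow h.choose e else ∅, fun i e he => ?_⟩
    beta_reduce
    have h : ∃ i, e ∈ T i := ⟨i, he⟩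
    rw [dif_pos h]
    by_cases h1 : h.choose = i
    · rw [h1]
    · exact absurd he (disjoint_left.1 (hTd _ _ h1) h.choose_spec)
  have hTTm : ∀ e ∈ TT, ∃ i, e ∈ T i := by
    intro e he
    rw [hTT] at he
    obtain ⟨i, -, hi⟩ := mem_biUnion.1 he
    exact ⟨i, hi⟩
  -- the inner end
  obtain ⟨inn, hinn⟩ : ∃ inn : E → V, inn = fun e => if nd (s e) = own e then s e else t e :=
    ⟨_, rfl⟩
  have hinn' : ∀ e ∈ TT, nd (inn e) = own e := by
    intro e he
    obtain ⟨i, hi⟩ := hTTm e he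
    rw [hinn]
    beta_reduce
    split_ifs with h
    · exact h
    · rcases t3 i e hi with h1 | h1
      · exact absurd (by rw [hown i e hi, h1]) h
      · rw [hown i e hi, h1]
  -- the blocks
  have hblk : ∀ W : Finset V, ∃ g : E → ℕ,
      (∀ i, ((TT.filter fun e => own e = W).filter fun e => g e = i).card ≤ k) ∧
      (∀ S, S ⊆ TT.filter (fun e => own e = W) →
        (∀ x ∈ S, ∀ z ∈ S, ∀ y ∈ TT.filter (fun e => own e = W),
          pos (inn x) ≤ pos (inn y) → pos (inn y) ≤ pos (inn z) → y ∈ S) →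
        k * (S.image g).card ≤ S.card + 2 * k) := fun W =>
    grp (TT.filter fun e => own e = W) (fun e => pos (inn e)) k hk
  choose g g1 g2 using hblk
  have hrain := rain (fun e => nd (s e)) (fun e => nd (t e)) (U.image nd) hk T hTd
    (fun i e he => ⟨mem_image_of_mem _ (hin i e (t1 i he)).1,
      mem_image_of_mem _ (hin i e (t1 i he)).2⟩)
    (fun i x hx y hy => (PJoin.rsymm (t4 i x hx)).trans (t4 i y hy))
    (fun e => (own e, g (own e) e)) (fun j => by
      refine (card_le_card fun e he => ?_).trans (g1 j.1 j.2)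
      obtain ⟨h1, h2⟩ := mem_filter.1 he
      have h3 : own e = j.1 := congrArg Prod.fst h2
      have h4 : g (own e) e = j.2 := congrArg Prod.snd h2
      rw [h3] at h4
      refine mem_filter.2 ⟨mem_filter.2 ⟨?_, h3⟩, h4⟩
      rw [hTT]
      exact h1)
  obtain ⟨A, a1, a2, a3⟩ := hrain
  rw [← hTT] at a1
  have hsub : TT ⊆ univ.biUnion F := by
    rw [hTT]
    exact biUnion_mono fun i _ => t1 i
  have hloop : ∀ e ∈ TT, nd (s e) ≠ nd (t e) := by
    intro e he
    obtain ⟨i, hi⟩ := hTTm e he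
    exact t2 i e hi
  refine ⟨A, a1.trans hsub, fun e he W hW h => ?_, fun x hx y hy => ?_, fun W hW Z hZ hZW => ?_⟩
  · exact hloop e (a1 he) (by rw [n2 _ W hW h.1, n2 _ W hW h.2])
  · -- connected modulo `B`
    have hsame : ∀ p q, nd p = nd q → Relation.ReflTransGen
        (fun x y => PJoin s t A x y ∨ ∃ W ∈ B, x ∈ W ∧ y ∈ W) p q := by
      intro p q h
      rcases n3 p q h with rfl | h1
      · exact Relation.ReflTransGen.refl
      · exact Relation.ReflTransGen.single (Or.inr h1)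
    have key : ∀ n, Relation.ReflTransGen
        (PJoin (fun e => nd (s e)) (fun e => nd (t e)) A) (nd x) n → ∀ q, nd q = n →
        Relation.ReflTransGen
          (fun x y => PJoin s t A x y ∨ ∃ W ∈ B, x ∈ W ∧ y ∈ W) x q := by
      intro n hn
      induction hn with
      | refl => exact fun q hq => hsame x q hq.symm
      | tail _ hst ih =>
        intro q hq
        obtain ⟨e, he, h1⟩ := hst
        rcases h1 with ⟨h1, h2⟩ | ⟨h1, h2⟩
        · exact ((ih (s e) h1).tail (Or.inl ⟨e, he, Or.inl ⟨rfl, rfl⟩⟩)).trans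
            (hsame _ _ (h2.trans hq.symm))
        · exact ((ih (t e) h2).tail (Or.inl ⟨e, he, Or.inr ⟨rfl, rfl⟩⟩)).trans
            (hsame _ _ (h1.trans hq.symm))
    exact key _ (a2 _ (mem_image_of_mem _ hx) _ (mem_image_of_mem _ hy)) y rfl
  · -- the count
    have hndW : ∀ v, nd v = W ↔ v ∈ W := fun v =>
      ⟨fun h => by rw [← h]; exact n1 v, fun h => n2 v W hW h⟩
    obtain ⟨X, hX⟩ : ∃ X, X = outE s t A Z W := ⟨_, rfl⟩
    rw [← hX]
    have hXA : ∀ e ∈ X, e ∈ A ∧ ((s e ∈ Z ∧ t e ∉ W) ∨ (t e ∈ Z ∧ s e ∉ W)) := by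
      intro e he
      rw [hX] at he
      exact mem_filter.1 he
    have hsplit := card_filter_add_card_filter_not (s := X) (fun e => own e = W)
    have h2 : (X.filter fun e => ¬ own e = W).card ≤ k := by
      have h3 : (X.filter fun e => ¬ own e = W) ⊆ univ.biUnion fun i =>
          (T i).filter fun e => (nd (s e) = W ∨ nd (t e) = W) ∧ ow i e ≠ W := by
        intro e he
        obtain ⟨h4, h5⟩ := mem_filter.1 he
        obtain ⟨h6, h7⟩ := hXA e h4
        obtain ⟨i, hi⟩ := hTTm e (a1 h6)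
        refine mem_biUnion.2 ⟨i, mem_univ _, mem_filter.2 ⟨hi, ?_, ?_⟩⟩
        · rcases h7 with h7 | h7
          · exact Or.inl ((hndW _).2 (hZW h7.1))
          · exact Or.inr ((hndW _).2 (hZW h7.1))
        · rw [← hown i e hi]
          exact h5
      refine (card_le_card h3).trans (card_biUnion_le.trans ?_)
      refine (sum_le_sum fun i _ => t5 i W).trans ?_
      rw [sum_const, card_univ, Fintype.card_fin, smul_eq_mul, mul_one]
    obtain ⟨S, hS⟩ : ∃ S, S = (TT.filter fun e => own e = W).filter fun e => inn e ∈ Z :=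
      ⟨_, rfl⟩
    have h3 : k * (S.image (g W)).card ≤ S.card + 2 * k := by
      refine g2 W S (by rw [hS]; exact filter_subset _ _) fun x hx z hz y hy h4 h5 => ?_
      rw [hS] at hx hz ⊢
      exact mem_filter.2 ⟨hy, hpos Z hZ _ (mem_filter.1 hx).2 _ (mem_filter.1 hz).2 _ h4 h5⟩
    have h4 : (X.filter fun e => own e = W).card ≤ (S.image (g W)).card := by
      have h5 : (X.filter fun e => own e = W) ⊆ S := by
        intro e he
        obtain ⟨h6, h7⟩ := mem_filter.1 he
        obtain ⟨h8, h9⟩ := hXA e h6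
        rw [hS]
        refine mem_filter.2 ⟨mem_filter.2 ⟨a1 h8, h7⟩, ?_⟩
        rw [hinn]
        beta_reduce
        rw [h7]
        rcases h9 with ⟨h9, h10⟩ | ⟨h9, h10⟩
        · rw [if_pos ((hndW _).2 (hZW h9))]
          exact h9
        · rw [if_neg fun h => h10 ((hndW _).1 h)]
          exact h9
      rw [← card_image_of_injOn (f := g W) (s := X.filter fun e => own e = W)]
      · exact card_le_card (image_subset_image h5)
      · intro e he f hf hef
        obtain ⟨k1, k2⟩ := mem_filter.1 (mem_coe.1 he)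
        obtain ⟨k3, k4⟩ := mem_filter.1 (mem_coe.1 hf)
        refine a3 e (hXA e k1).1 f (hXA f k3).1 ?_
        beta_reduce
        rw [k2, k4]
        exact Prod.ext rfl hef
    have h5 : S.card ≤ (outE s t (univ.biUnion F) Z W).card := by
      refine card_le_card fun e he => ?_
      rw [hS] at he
      obtain ⟨h6, h7⟩ := mem_filter.1 he
      obtain ⟨h8, h9⟩ := mem_filter.1 h6
      have h10 := hinn' e h8
      refine mem_filter.2 ⟨hsub h8, ?_⟩
      rw [hinn] at h7 h10
      beta_reduce at h7 h10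
      have hne := hloop e h8
      split_ifs at h7 h10 with h11
      · left
        refine ⟨h7, fun h12 => hne ?_⟩
        rw [h11, h9]
        exact ((hndW _).2 h12).symm
      · right
        refine ⟨h7, fun h12 => h11 ?_⟩
        rw [h9]
        exact (hndW _).2 h12
    have h6 : k * (X.filter fun e => own e = W).card ≤ S.card + 2 * k :=
      (Nat.mul_le_mul_left _ h4).trans h3
    have h7 : k * (X.filter fun e => ¬ own e = W).card ≤ k * k := Nat.mul_le_mul_left _ h2
    have h8 : k * X.card = k * (X.filter fun e => own e = W).card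
        + k * (X.filter fun e => ¬ own e = W).card := by
      rw [← Nat.mul_add, hsplit]
    rw [h8, pow_two]
    omega

namespace P

/-- **the region lemma**, cut form -/
theorem region {V E : Type*} [Fintype V] [DecidableEq V] [Fintype E] [DecidableEq E]
    (a b : E → V) {t : ℕ} (lab : E → Fin t) (P : Finset (Fin t)) (hP : 0 < P.card)
    (U : Finset V) (hU : U.Nonempty) (hc : ∀ l ∈ P, ConnOn a b (cls lab l) U)
    (B L : Finset (Finset V)) (hB : ∀ W ∈ B, W.Nonempty ∧ W ⊆ U)
    (hd : ∀ W ∈ B, ∀ W' ∈ B, W ≠ W' → Disjoint W W')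
    (hne : ∀ Z ∈ L, Z.Nonempty)
    (hlam : ∀ Z ∈ L, ∀ Z' ∈ L, Z ⊆ Z' ∨ Z' ⊆ Z ∨ Disjoint Z Z') :
    ∃ A : Finset E, (∀ e ∈ A, lab e ∈ P ∧ e ∈ ins a b U ∧ ∀ W ∈ B, e ∉ ins a b W) ∧
      (∀ Y ⊆ U, Y.Nonempty → Y ≠ U → (∀ W ∈ B, W ⊆ Y ∨ Disjoint W Y) →
        ∃ e ∈ A, e ∈ cut a b Y) ∧
      ∀ W ∈ B, ∀ Z ∈ L, Z ⊆ W →
        P.card * (A ∩ cut a b W ∩ cut a b Z).card ≤
          ((ins a b U ∩ cut a b W ∩ cut a b Z).filter fun e => lab e ∈ P).card +
            P.card * P.card + 2 * P.card := by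
  classical
  obtain ⟨pos, hinj, hpos⟩ := laminar_order L hlam
  obtain ⟨F, hF⟩ : ∃ F : Fin P.card → Finset E,
      F = fun i => cls lab (P.equivFin.symm i).1 ∩ ins a b U := ⟨_, rfl⟩
  have hFm : ∀ i, ∀ e, e ∈ F i ↔ lab e = (P.equivFin.symm i).1 ∧ e ∈ ins a b U := by
    intro i e
    rw [hF]
    beta_reduce
    rw [mem_inter, mem_cls]
  have hUF : ∀ e, e ∈ univ.biUnion F ↔ lab e ∈ P ∧ e ∈ ins a b U := by
    intro e
    constructor
    · intro he
      obtain ⟨i, -, hi⟩ := mem_biUnion.1 he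
      obtain ⟨h1, h2⟩ := (hFm i e).1 hi
      exact ⟨by rw [h1]; exact (P.equivFin.symm i).2, h2⟩
    · rintro ⟨h1, h2⟩
      refine mem_biUnion.2 ⟨P.equivFin ⟨lab e, h1⟩, mem_univ _, (hFm _ e).2 ⟨?_, h2⟩⟩
      rw [Equiv.symm_apply_apply]
  have hout : ∀ (A : Finset E) (Z W : Finset V), Z ⊆ W →
      A ∩ cut a b W ∩ cut a b Z = outE a b A Z W := by
    intro A Z W hZW
    ext e
    unfold outE
    rw [mem_inter, mem_inter, mem_cut, mem_cut, mem_filter]
    have h1 : a e ∈ Z → a e ∈ W := fun h => hZW h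
    have h2 : b e ∈ Z → b e ∈ W := fun h => hZW h
    tauto
  obtain ⟨A, h1, h2, h3, h4⟩ := region_pos a b U hU hP F (fun i j hij => by
      rw [disjoint_left]
      intro e he he'
      have k1 := ((hFm i e).1 he).1
      have k2 := ((hFm j e).1 he').1
      exact hij (P.equivFin.symm.injective (Subtype.ext (k1.symm.trans k2))))
    (fun i e he => (mem_ins a b).1 ((hFm i e).1 he).2)
    (fun i x hx y hy => by
      have k1 := (hc _ (P.equivFin.symm i).2).walk hx hy
      rw [hF]
      exact k1) B hd pos (L : Set (Finset V)) (fun Z hZ x hx y hy w k1 k2 => by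
      rcases eq_or_lt_of_le k1 with k3 | k3
      · rw [← hinj k3]
        exact hx
      rcases eq_or_lt_of_le k2 with k4 | k4
      · rw [hinj k4]
        exact hy
      exact hpos Z (mem_coe.1 hZ) x hx y hy w k3 k4)
  refine ⟨A, fun e he => ?_, fun Y hY hYne hYU hYB => ?_, fun W hW Z hZ hZW => ?_⟩
  · obtain ⟨k1, k2⟩ := (hUF e).1 (h1 he)
    exact ⟨k1, k2, fun W hW k3 => h2 e he W hW ((mem_ins a b).1 k3)⟩
  · obtain ⟨x, hx⟩ := hYne
    have hex : ∃ y ∈ U, y ∉ Y := by
      by_contra hcon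
      push Not at hcon
      exact hYU (Subset.antisymm hY hcon)
    obtain ⟨y, hyU, hyY⟩ := hex
    by_contra hcon
    push Not at hcon
    have key : ∀ w, Relation.ReflTransGen
        (fun x y => PJoin a b A x y ∨ ∃ W ∈ B, x ∈ W ∧ y ∈ W) x w → w ∈ Y := by
      intro w hw
      induction hw with
      | refl => exact hx
      | tail _ hst ih =>
        rcases hst with ⟨e, he, h5⟩ | ⟨W, hW, h5, h6⟩
        · have h7 := hcon e he
          rw [mem_cut, not_not] at h7
          rcases h5 with ⟨h5, h6⟩ | ⟨h5, h6⟩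
          · rw [← h6]
            exact h7.1 (by rw [h5]; exact ih)
          · rw [← h5]
            exact h7.2 (by rw [h6]; exact ih)
        · rcases hYB W hW with h7 | h7
          · exact h7 h6
          · exact absurd ih (disjoint_left.1 h7 h5)
    exact hyY (key y (h3 x (hY hx) y hyU))
  · have k1 := h4 W hW Z (mem_coe.2 hZ) hZW
    rw [hout A Z W hZW]
    have k2 : (ins a b U ∩ cut a b W ∩ cut a b Z).filter (fun e => lab e ∈ P)
        = outE a b (univ.biUnion F) Z W := by
      rw [← hout _ Z W hZW]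
      ext e
      rw [mem_filter, mem_inter, mem_inter, mem_inter, mem_inter, hUF]
      tauto
    rw [k2, ← pow_two]
    exact k1

end P

end Pool.Agent.Lib.MP_21a058_co
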