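import Mathlib
import Pool.Agent.Lib.MP_21a058_co.P.Defs

/-!
MP_21a058_co, elementary thin trees: **from the one-sided to the two-sided theorem**, for any notion
`Base` of a basis and any family `L` of vertex sets.

`one` (for the first end and for the second end): from `n` disjoint bases a base `A` in their union with
`n * #(A leaving W at its marked end) <= #(the union leaving W at its marked end) + c`.

`two_sided`: from `n * n * s` disjoint bases in `H`, `s` disjoint bases whose union `A` has
`n * #(A leaving W) <= #(H leaving W) + (n + 1) * c * s` for all `W` of the family.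
-/

set_option autoImplicit false

namespace Pool.Agent.Lib.MP_21a058_co.P

open Finset

section
variable {V E : Type*} [DecidableEq V] [DecidableEq E]

/-- Edges of `A` with the end `p` in `W` and the end `q` outside. -/
def side (p q : E → V) (A : Finset E) (W : Finset V) : Finset E :=
  A.filter fun e => p e ∈ W ∧ q e ∉ W

theorem mem_side {p q : E → V} {A : Finset E} {W : Finset V} {e : E} :
    e ∈ side p q A W ↔ e ∈ A ∧ p e ∈ W ∧ q e ∉ W := by
  unfold side
  rw [mem_filter]

theorem side_mono {p q : E → V} {A B : Finset E} (h : A ⊆ B) (W : Finset V) :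
    side p q A W ⊆ side p q B W := by
  intro e he
  rw [mem_side] at he ⊢
  exact ⟨h he.1, he.2⟩

/-- a cut splits into its two sides -/
theorem card_cut_side [Fintype E] (a b : E → V) (A : Finset E) (W : Finset V) :
    (A ∩ cut a b W).card = (side a b A W).card + (side b a A W).card := by
  rw [← card_union_of_disjoint]
  · congr 1
    ext e
    rw [mem_inter, mem_cut, mem_union, mem_side, mem_side]
    tauto
  · rw [disjoint_left]
    intro e h1 h2
    rw [mem_side] at h1 h2
    exact h1.2.2 h2.2.1

/-- The one-sided statement for the ends `p` (marked), `q`. -/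
def OneSided (p q : E → V) (L : Finset (Finset V)) (Base : Finset E → Prop) (n c : ℕ) : Prop :=
  ∀ B : Fin n → Finset E, (∀ i, Base (B i)) → (∀ i j, i ≠ j → Disjoint (B i) (B j)) →
    ∃ A : Finset E, Base A ∧ A ⊆ univ.biUnion B ∧
      ∀ W ∈ L, n * (side p q A W).card ≤ (side p q (univ.biUnion B) W).card + c

private theorem side_biUnion {ι : Type*} [DecidableEq ι] (p q : E → V) (s : Finset ι) (B : ι → Finset E)
    (hd : ∀ i ∈ s, ∀ j ∈ s, i ≠ j → Disjoint (B i) (B j)) (W : Finset V) :
    (side p q (s.biUnion B) W).card = ∑ i ∈ s, (side p q (B i) W).card := by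
  have h1 : side p q (s.biUnion B) W = s.biUnion fun i => side p q (B i) W := by
    ext e
    rw [mem_side, mem_biUnion, mem_biUnion]
    constructor
    · rintro ⟨⟨i, hi, he⟩, h2⟩
      exact ⟨i, hi, mem_side.2 ⟨he, h2⟩⟩
    · rintro ⟨i, hi, he⟩
      rw [mem_side] at he
      exact ⟨⟨i, hi, he.1⟩, he.2⟩
  rw [h1]
  refine card_biUnion fun i hi j hj hij => ?_
  exact (hd i hi j hj hij).mono (filter_subset _ _) (filter_subset _ _)

/-- one group: `n * n` disjoint bases give a base, both sides -/
private theorem group_two {a b : E → V} {L : Finset (Finset V)} {Base : Finset E → Prop} {n c : ℕ}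
    (h1 : OneSided a b L Base n c) (h2 : OneSided b a L Base n c)
    (B : Fin n → Fin n → Finset E) (hB : ∀ i j, Base (B i j))
    (hd : ∀ i j i' j', (i, j) ≠ (i', j') → Disjoint (B i j) (B i' j')) :
    ∃ A : Finset E, Base A ∧ A ⊆ univ.biUnion (fun i => univ.biUnion (B i)) ∧
      ∀ W ∈ L, n * ((side a b A W).card + (side b a A W).card) ≤
        (side a b (univ.biUnion fun i => univ.biUnion (B i)) W).card +
        (side b a (univ.biUnion fun i => univ.biUnion (B i)) W).card + (n + 1) * c := by
  classical
  have hC : ∀ i, ∃ C : Finset E, Base C ∧ C ⊆ univ.biUnion (B i) ∧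
      ∀ W ∈ L, n * (side a b C W).card ≤ (side a b (univ.biUnion (B i)) W).card + c := fun i =>
    h1 (B i) (hB i) fun j j' hjj => hd i j i j' fun hh => hjj (Prod.ext_iff.1 hh).2
  choose C hCb hCs hCW using hC
  have hdU : ∀ i i', i ≠ i' → Disjoint (univ.biUnion (B i)) (univ.biUnion (B i')) := by
    intro i i' hii
    rw [disjoint_biUnion_left]
    intro j _
    rw [disjoint_biUnion_right]
    intro j' _
    exact hd i j i' j' fun hh => hii (Prod.ext_iff.1 hh).1
  obtain ⟨A, hAb, hAs, hAW⟩ := h2 C hCb fun i i' hii => (hdU i i' hii).mono (hCs i) (hCs i')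
  have hCU : univ.biUnion C ⊆ univ.biUnion fun i => univ.biUnion (B i) := by
    intro e he
    obtain ⟨i, hi, hei⟩ := mem_biUnion.1 he
    exact mem_biUnion.2 ⟨i, hi, hCs i hei⟩
  refine ⟨A, hAb, hAs.trans hCU, ?_⟩
  intro W hW
  have e1 := hAW W hW
  have e2 := card_le_card (side_mono (p := b) (q := a) hCU W)
  have e3 := card_le_card (side_mono (p := a) (q := b) hAs W)
  have e4 := side_biUnion a b univ C (fun i _ i' _ hii => (hdU i i' hii).mono (hCs i) (hCs i')) W
  have e5 := side_biUnion a b univ (fun i => univ.biUnion (B i)) (fun i _ i' _ hii => hdU i i' hii) W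
  have e6 : ∑ i, n * (side a b (C i) W).card ≤
      ∑ i, ((side a b (univ.biUnion (B i)) W).card + c) := sum_le_sum fun i _ => hCW i W hW
  rw [← mul_sum, sum_add_distrib, sum_const, card_univ, Fintype.card_fin, smul_eq_mul, ← e4, ← e5]
    at e6
  have e7 := Nat.mul_le_mul_left n e3
  have e8 : (n + 1) * c = n * c + c := by ring
  rw [mul_add, e8]
  omega

/-- **the two-sided theorem** -/
theorem two_sided [Fintype E] {a b : E → V} {L : Finset (Finset V)} {Base : Finset E → Prop}
    {n c s : ℕ} (h1 : OneSided a b L Base n c) (h2 : OneSided b a L Base n c) {H : Finset E}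
    (T : Fin (n * n * s) → Finset E) (hT : ∀ i, Base (T i)) (hTH : ∀ i, T i ⊆ H)
    (hd : ∀ i j, i ≠ j → Disjoint (T i) (T j)) :
    ∃ A : Fin s → Finset E, (∀ i, Base (A i)) ∧ (∀ i, A i ⊆ H) ∧
      (∀ i j, i ≠ j → Disjoint (A i) (A j)) ∧
      ∀ W ∈ L, n * (univ.biUnion A ∩ cut a b W).card ≤
        (H ∩ cut a b W).card + (n + 1) * c * s := by
  classical
  have hg : ∀ k : Fin s, ∃ A : Finset E, Base A ∧
      A ⊆ univ.biUnion (fun i : Fin n => univ.biUnion fun j : Fin n =>
        T (finProdFinEquiv (finProdFinEquiv (i, j), k))) ∧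
      ∀ W ∈ L, n * ((side a b A W).card + (side b a A W).card) ≤
        (side a b (univ.biUnion (fun i : Fin n => univ.biUnion fun j : Fin n =>
          T (finProdFinEquiv (finProdFinEquiv (i, j), k)))) W).card +
        (side b a (univ.biUnion (fun i : Fin n => univ.biUnion fun j : Fin n =>
          T (finProdFinEquiv (finProdFinEquiv (i, j), k)))) W).card + (n + 1) * c := by
    intro k
    refine group_two h1 h2 (fun i j => T (finProdFinEquiv (finProdFinEquiv (i, j), k)))
      (fun i j => hT _) ?_
    intro i j i' j' hij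
    refine hd _ _ fun hh => hij ?_
    have h3 := finProdFinEquiv.injective hh
    exact finProdFinEquiv.injective (Prod.ext_iff.1 h3).1
  obtain ⟨U, hU⟩ : ∃ U : Fin s → Finset E, ∀ k, U k =
      univ.biUnion (fun i : Fin n => univ.biUnion fun j : Fin n =>
        T (finProdFinEquiv (finProdFinEquiv (i, j), k))) := ⟨_, fun _ => rfl⟩
  simp only [← hU] at hg
  choose A hAb hAs hAW using hg
  have hUd : ∀ k k', k ≠ k' → Disjoint (U k) (U k') := by
    intro k k' hkk
    rw [hU, hU, disjoint_biUnion_left]
    intro i _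
    rw [disjoint_biUnion_left]
    intro j _
    rw [disjoint_biUnion_right]
    intro i' _
    rw [disjoint_biUnion_right]
    intro j' _
    exact hd _ _ fun hh => hkk (Prod.ext_iff.1 (finProdFinEquiv.injective hh)).2
  have hUH : ∀ k, U k ⊆ H := by
    intro k
    rw [hU]
    intro e he
    obtain ⟨i, -, he⟩ := mem_biUnion.1 he
    obtain ⟨j, -, he⟩ := mem_biUnion.1 he
    exact hTH _ he
  refine ⟨A, hAb, fun k => (hAs k).trans (hUH k), fun k k' hkk => (hUd k k' hkk).mono (hAs k) (hAs k'),
    ?_⟩
  intro W hW
  have e1 : ∑ k, n * ((side a b (A k) W).card + (side b a (A k) W).card) ≤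
      ∑ k, ((side a b (U k) W).card + (side b a (U k) W).card + (n + 1) * c) :=
    sum_le_sum fun k _ => hAW k W hW
  have e2 := side_biUnion a b univ A (fun i _ i' _ hii => (hUd i i' hii).mono (hAs i) (hAs i')) W
  have e3 := side_biUnion b a univ A (fun i _ i' _ hii => (hUd i i' hii).mono (hAs i) (hAs i')) W
  have e4 := side_biUnion a b univ U (fun i _ i' _ hii => hUd i i' hii) W
  have e5 := side_biUnion b a univ U (fun i _ i' _ hii => hUd i i' hii) W
  rw [← mul_sum, sum_add_distrib, sum_add_distrib, sum_add_distrib, sum_const, card_univ,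
    Fintype.card_fin, smul_eq_mul, ← e2, ← e3, ← e4, ← e5, ← card_cut_side, ← card_cut_side] at e1
  have e6 : univ.biUnion U ∩ cut a b W ⊆ H ∩ cut a b W := by
    intro e he
    obtain ⟨h3, h4⟩ := mem_inter.1 he
    obtain ⟨k, -, h5⟩ := mem_biUnion.1 h3
    exact mem_inter.2 ⟨hUH k h5, h4⟩
  have e7 := card_le_card e6
  have e8 : (n + 1) * c * s = s * ((n + 1) * c) := by ring
  omega

end

end Pool.Agent.Lib.MP_21a058_co.P
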