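import Pool.Agent.Lib.MP_21a058_co.P.Base

/-! The special child of a step: the choice of the edge `g`, the invariants (MP_21a058_co). -/

namespace Pool.Agent.Lib.MP_21a058_co.P

open Finset

namespace Setup

variable {V E : Type*} [Fintype V] [DecidableEq V] [Fintype E] [DecidableEq E] {p : Pars}
  (S : Setup V E p)

/-- an edge of the cut of `X` which crosses two disjoint subsets of `X`: impossible -/
theorem g_not_two {X Z1 Z2 : Finset V} {e : E} (he : e ∈ cut S.a S.b X) (h1 : Z1 ⊆ X)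
    (h2 : Z2 ⊆ X) (hd : Disjoint Z1 Z2) (e1 : e ∈ cut S.a S.b Z1) (e2 : e ∈ cut S.a S.b Z2) :
    False := by
  rw [mem_cut] at he e1 e2
  by_cases ha : S.a e ∈ X
  · have hb : S.b e ∉ X := fun hb => he ⟨fun _ => hb, fun _ => ha⟩
    have b1 : S.b e ∉ Z1 := fun h => hb (h1 h)
    have b2 : S.b e ∉ Z2 := fun h => hb (h2 h)
    have a1 : S.a e ∈ Z1 := by
      by_contra h
      exact e1 ⟨fun hh => absurd hh h, fun hh => absurd hh b1⟩
    have a2 : S.a e ∈ Z2 := by
      by_contra h
      exact e2 ⟨fun hh => absurd hh h, fun hh => absurd hh b2⟩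
    exact Finset.disjoint_left.mp hd a1 a2
  · have b1 : S.a e ∉ Z1 := fun h => ha (h1 h)
    have b2 : S.a e ∉ Z2 := fun h => ha (h2 h)
    have a1 : S.b e ∈ Z1 := by
      by_contra h
      exact e1 ⟨fun hh => absurd hh b1, fun hh => absurd hh h⟩
    have a2 : S.b e ∈ Z2 := by
      by_contra h
      exact e2 ⟨fun hh => absurd hh b2, fun hh => absurd hh h⟩
    exact Finset.disjoint_left.mp hd a1 a2

theorem g_card_two {X Z1 Z2 : Finset V} {O : Finset E} (hO : O ⊆ cut S.a S.b X) (h1 : Z1 ⊆ X)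
    (h2 : Z2 ⊆ X) (hd : Disjoint Z1 Z2) :
    (O ∩ cut S.a S.b Z1).card + (O ∩ cut S.a S.b Z2).card ≤ O.card := by
  rw [← Finset.card_union_of_disjoint]
  · exact Finset.card_le_card
      (Finset.union_subset Finset.inter_subset_left Finset.inter_subset_left)
  · rw [Finset.disjoint_left]
    intro e he1 he2
    rw [Finset.mem_inter] at he1 he2
    exact S.g_not_two (hO he1.1) h1 h2 hd he1.2 he2.2

/-- an edge of the cut of `X` which crosses `Z ⊆ A ⊆ X` crosses `A` -/
theorem g_cut_mono {X A Z : Finset V} (hAX : A ⊆ X) (hZA : Z ⊆ A) {e : E}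
    (he : e ∈ cut S.a S.b X) (hz : e ∈ cut S.a S.b Z) : e ∈ cut S.a S.b A := by
  rw [mem_cut] at *
  intro h
  by_cases ha : S.a e ∈ X
  · have hb : S.b e ∉ X := fun hb => he ⟨fun _ => hb, fun _ => ha⟩
    have hbA : S.b e ∉ A := fun hh => hb (hAX hh)
    have haA : S.a e ∉ A := fun hh => hbA (h.1 hh)
    exact hz ⟨fun hh => absurd (hZA hh) haA, fun hh => absurd (hZA hh) hbA⟩
  · have haA : S.a e ∉ A := fun hh => ha (hAX hh)
    have hbA : S.b e ∉ A := fun hh => haA (h.2 hh)
    exact hz ⟨fun hh => absurd (hZA hh) haA, fun hh => absurd (hZA hh) hbA⟩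

theorem g_not_cut_of_ins {X : Finset V} {e : E} (h : e ∈ ins S.a S.b X) :
    e ∉ cut S.a S.b X := by
  rw [mem_ins] at h
  rw [mem_cut]
  exact fun hh => hh ⟨fun _ => h.2, fun _ => h.1⟩

/-- the number of edges between `R` and the rest of `X` -/
theorem g_cand {X : Finset V} {O : Finset E} {R : Finset V} (hRne : R.Nonempty) (hr : S.r ∉ R)
    (hRX : R ⊂ X) : 2 * p.t ≤ (cut S.a S.b R ∩ ins S.a S.b X).card + S.m X O R + S.o O R := by
  have hRu : R ≠ univ := fun h => hr (h ▸ Finset.mem_univ _)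
  have h1 := S.cutge R hRne hRu
  have h2 : cut S.a S.b R ⊆ (cut S.a S.b R ∩ ins S.a S.b X) ∪
      (((cut S.a S.b X ∩ cut S.a S.b R) \ O) ∪ (O ∩ cut S.a S.b R)) := by
    intro e he
    by_cases hX : e ∈ cut S.a S.b X
    · rw [Finset.mem_union]
      right
      rw [Finset.mem_union]
      by_cases hO : e ∈ O
      · right
        exact Finset.mem_inter.mpr ⟨hO, he⟩
      · left
        exact Finset.mem_sdiff.mpr ⟨Finset.mem_inter.mpr ⟨hX, he⟩, hO⟩
    · rw [Finset.mem_union]
      left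
      refine Finset.mem_inter.mpr ⟨he, ?_⟩
      rw [mem_cut] at he hX
      rw [mem_ins]
      push Not at hX
      by_cases ha : S.a e ∈ X
      · exact ⟨ha, hX.1 ha⟩
      · exfalso
        have hb : S.b e ∉ X := fun h => ha (hX.2 h)
        exact he ⟨fun hh => absurd (hRX.1 hh) ha, fun hh => absurd (hRX.1 hh) hb⟩
  have h3 := (Finset.card_le_card h2).trans (Finset.card_union_le _ _)
  have h4 := Finset.card_union_le ((cut S.a S.b X ∩ cut S.a S.b R) \ O) (O ∩ cut S.a S.b R)
  unfold Setup.m Setup.o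
  omega

theorem exists_g' (hlam : ∀ Z ∈ S.L, ∀ Z' ∈ S.L, Z ⊆ Z' ∨ Z' ⊆ Z ∨ Disjoint Z Z')
    {X : Finset V} {O : Finset E} {R : Finset V} (hI : S.Inv X O)
    (hR : R ∈ S.L) (hRX : R ⊂ X) (hm : S.m X O R < p.κ)
    (ho' : S.o O R ≤ p.β) :
    ∃ g ∈ cut S.a S.b R ∩ ins S.a S.b X, ∀ A0 : Finset E, A0 ∩ cut S.a S.b R = {g} →
      S.Inv R ((O ∪ A0) ∩ cut S.a S.b R) := by
  classical
  obtain ⟨-, hRne, hRr, -⟩ := Finset.mem_filter.mp hR
  have hRX' : R ⊆ X := hRX.1
  set C := cut S.a S.b R ∩ ins S.a S.b X with hCdef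
  have hC : p.κ < C.card := by
    have h1 := S.g_cand (O := O) hRne hRr hRX
    have h2 := p.ht
    have h3 := p.hκ
    rw [← hCdef] at h1
    omega
  -- the choice of `g`
  obtain ⟨g, hgC, hg⟩ : ∃ g ∈ C, ∀ Z ∈ S.L, Z ⊂ R → S.m X O Z < p.κ →
      S.o O Z = p.β → (C ∩ cut S.a S.b Z).card ≤ p.κ → g ∉ cut S.a S.b Z := by
    let F : Finset (Finset V) := S.L.filter (fun Z => Z ⊂ R ∧
      S.m X O Z < p.κ ∧ S.o O Z = p.β ∧ (C ∩ cut S.a S.b Z).card ≤ p.κ)
    by_cases hF : F.Nonempty
    · obtain ⟨Y, hY, hmax⟩ := Finset.exists_max_image F (fun Z => Z.card) hF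
      obtain ⟨hYL, hYA, hYm, hYo, hYC⟩ := Finset.mem_filter.mp hY
      have hex : ∃ g ∈ C, g ∉ cut S.a S.b Y := by
        by_contra hcon
        push Not at hcon
        have : C ∩ cut S.a S.b Y = C := Finset.inter_eq_left.mpr (fun e he => hcon e he)
        rw [this] at hYC
        omega
      obtain ⟨g, hgC, hgY⟩ := hex
      refine ⟨g, hgC, ?_⟩
      intro Z hZL hZA hZm hZo hZC hgZ
      have hZF : Z ∈ F := Finset.mem_filter.mpr ⟨hZL, hZA, hZm, hZo, hZC⟩
      have hsub : Z ⊆ Y := by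
        rcases hlam Z hZL Y hYL with h | h | h
        · exact h
        · exact (Finset.eq_of_subset_of_card_le h (hmax Z hZF)).symm.subset
        · exfalso
          have h5 := p.hβ
          have h6 := p.hq
          have h7 := p.hκ
          have hq0 : p.q ≠ 0 := by
            intro h0
            rw [h0] at h6
            omega
          have h8 := hI.i2 Z hZL Y hYL (lt_of_lt_of_le hZA hRX') (lt_of_lt_of_le hYA hRX') h
            hZm hYm (by omega)
          omega
      exact hgY (S.g_cut_mono hYA.1 hsub (Finset.mem_inter.mp hgC).1 hgZ)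
    · have hne : C.Nonempty := Finset.card_pos.mp (by omega)
      obtain ⟨g, hgC⟩ := hne
      refine ⟨g, hgC, ?_⟩
      intro Z hZL hZA hZm hZo hZC _
      exact hF ⟨Z, Finset.mem_filter.mpr ⟨hZL, hZA, hZm, hZo, hZC⟩⟩
  refine ⟨g, hgC, ?_⟩
  intro A0 hA0
  have hEq : (O ∪ A0) ∩ cut S.a S.b R = insert g (O ∩ cut S.a S.b R) := by
    rw [Finset.union_inter_distrib_right, hA0, Finset.union_comm, ← Finset.insert_eq]
  rw [hEq]
  have hgX : g ∉ cut S.a S.b X := S.g_not_cut_of_ins (Finset.mem_inter.mp hgC).2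
  have hgA : g ∈ cut S.a S.b R := (Finset.mem_inter.mp hgC).1
  have hgO : g ∉ O := fun h => hgX (hI.hO h)
  have hsub : insert g (O ∩ cut S.a S.b R) ⊆ cut S.a S.b R := by
    intro e he
    rcases Finset.mem_insert.mp he with rfl | h
    · exact hgA
    · exact (Finset.mem_inter.mp h).2
  have hoR : (O ∩ cut S.a S.b R).card ≤ p.β := ho'
  have hcard : (insert g (O ∩ cut S.a S.b R)).card ≤ p.β + 1 :=
    (Finset.card_insert_le _ _).trans (by omega)
  -- the missed edges of the child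
  have hmZ : ∀ Z, Z ⊂ R → S.m X O Z + (C ∩ cut S.a S.b Z).card ≤
      S.m R (insert g (O ∩ cut S.a S.b R)) Z +
        (if g ∈ cut S.a S.b Z then 1 else 0) := by
    intro Z hZA
    unfold Setup.m
    have hdis : Disjoint ((cut S.a S.b X ∩ cut S.a S.b Z) \ O) (C ∩ cut S.a S.b Z) := by
      rw [Finset.disjoint_left]
      intro e h1 h2
      simp only [Finset.mem_sdiff, Finset.mem_inter, hCdef] at h1 h2
      exact S.g_not_cut_of_ins h2.1.2 h1.1.1
    rw [← Finset.card_union_of_disjoint hdis]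
    have hsub2 : ((cut S.a S.b X ∩ cut S.a S.b Z) \ O) ∪ (C ∩ cut S.a S.b Z) ⊆
        ((cut S.a S.b R ∩ cut S.a S.b Z) \ insert g (O ∩ cut S.a S.b R)) ∪
          (if g ∈ cut S.a S.b Z then {g} else ∅) := by
      intro e he
      rw [Finset.mem_union] at he ⊢
      by_cases heg : e = g
      · subst heg
        rcases he with he | he
        · simp only [Finset.mem_sdiff, Finset.mem_inter] at he
          exact absurd he.1.1 hgX
        · right
          rw [if_pos (Finset.mem_inter.mp he).2]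
          exact Finset.mem_singleton_self _
      · left
        simp only [Finset.mem_sdiff, Finset.mem_inter, Finset.mem_insert]
        rcases he with he | he
        · simp only [Finset.mem_sdiff, Finset.mem_inter] at he
          exact ⟨⟨S.g_cut_mono hRX' hZA.1 he.1.1 he.1.2, he.1.2⟩,
            fun h => h.elim heg (fun h => he.2 h.1)⟩
        · simp only [Finset.mem_inter, hCdef] at he
          refine ⟨⟨he.1.1, he.2⟩, fun h => h.elim heg (fun h => ?_)⟩
          exact S.g_not_cut_of_ins he.1.2 (hI.hO h.1)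
    refine (Finset.card_le_card hsub2).trans ((Finset.card_union_le _ _).trans ?_)
    split_ifs <;> simp
  have hoZ : ∀ Z, S.o (insert g (O ∩ cut S.a S.b R)) Z ≤
      S.o O Z + (if g ∈ cut S.a S.b Z then 1 else 0) := by
    intro Z
    unfold Setup.o
    have hsub3 : (insert g (O ∩ cut S.a S.b R)) ∩ cut S.a S.b Z ⊆
        (O ∩ cut S.a S.b Z) ∪ (if g ∈ cut S.a S.b Z then {g} else ∅) := by
      intro e he
      simp only [Finset.mem_inter, Finset.mem_insert] at he
      rw [Finset.mem_union]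
      rcases he.1 with rfl | h
      · right
        rw [if_pos he.2]
        exact Finset.mem_singleton_self _
      · left
        exact Finset.mem_inter.mpr ⟨h.1, he.2⟩
    refine (Finset.card_le_card hsub3).trans ((Finset.card_union_le _ _).trans ?_)
    split_ifs <;> simp
  refine ⟨hsub, ?_, ?_, ⟨∅, by simp, (Finset.card_filter_le _ _).trans hcard⟩⟩
  · intro Z hZL hZA
    have h1 := hmZ Z hZA
    have h2 := hoZ Z
    by_cases hgZ : g ∈ cut S.a S.b Z
    · rw [if_pos hgZ] at h1 h2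
      have h3 : 1 ≤ (C ∩ cut S.a S.b Z).card :=
        Finset.card_pos.mpr ⟨g, Finset.mem_inter.mpr ⟨hgC, hgZ⟩⟩
      rcases hI.i1 Z hZL (lt_of_lt_of_le hZA hRX') with h | h
      · left; omega
      · by_cases hmZ' : p.κ ≤ S.m X O Z
        · left; omega
        · push Not at hmZ'
          by_cases hoZ' : S.o O Z = p.β
          · by_cases hCZ : (C ∩ cut S.a S.b Z).card ≤ p.κ
            · exact absurd hgZ (hg Z hZL hZA hmZ' hoZ' hCZ)
            · left; omega
          · right; omega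
    · rw [if_neg hgZ] at h1 h2
      rcases hI.i1 Z hZL (lt_of_lt_of_le hZA hRX') with h | h
      · left; omega
      · right; omega
  · intro Z1 _ Z2 _ h1 h2 hd _ _ ho1
    have h3 := S.g_card_two hsub h1.1 h2.1 hd
    have h5 := p.hβ
    unfold Setup.o at ho1 ⊢
    omega

theorem exists_g {X : Finset V} {O : Finset E} {R : Finset V} (hI : S.Inv X O)
    (hR : R ∈ S.L) (hRX : R ⊂ X) (hm : S.m X O R < p.κ) (_ho : p.β < 2 * S.o O R)
    (ho' : S.o O R ≤ p.β) :
    ∃ g ∈ cut S.a S.b R ∩ ins S.a S.b X, ∀ A0 : Finset E, A0 ∩ cut S.a S.b R = {g} →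
      S.Inv R ((O ∪ A0) ∩ cut S.a S.b R) :=
  S.exists_g' (fun _ h _ h' => S.laminar h h') hI hR hRX hm ho'

theorem child_R {O : Finset E} {R : Finset V} (hR : R ∈ S.L) (ho' : S.o O R ≤ p.β) {g : E}
    {A0 : Finset E} (hA0 : A0 ∩ cut S.a S.b R = {g}) :
    p.t + p.D ≤ (cut S.a S.b R \ (O ∪ A0)).card := by
  obtain ⟨-, hRne, hRr, -⟩ := Finset.mem_filter.mp hR
  have hRu : R ≠ univ := fun h => hRr (h ▸ Finset.mem_univ _)
  have h1 := S.cutge R hRne hRu
  have h2 : cut S.a S.b R ⊆ (cut S.a S.b R \ (O ∪ A0)) ∪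
      ((O ∩ cut S.a S.b R) ∪ (A0 ∩ cut S.a S.b R)) := by
    intro e he
    simp only [Finset.mem_union, Finset.mem_sdiff, Finset.mem_inter]
    tauto
  have h3 := (Finset.card_le_card h2).trans (Finset.card_union_le _ _)
  have h4 := Finset.card_union_le (O ∩ cut S.a S.b R) (A0 ∩ cut S.a S.b R)
  have h8 : (A0 ∩ cut S.a S.b R).card = 1 := by rw [hA0, Finset.card_singleton]
  have h5 : (O ∩ cut S.a S.b R).card ≤ p.β := ho'
  have h6 := p.ht
  have h7 := p.hK
  omega

end Setup

end Pool.Agent.Lib.MP_21a058_co.P
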